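import Pool.Agent.SumProd339.Det

set_option autoImplicit false

/-!
# A spanning family of leading vectors bounds the logarithms of the moduli
-/

namespace Pool.Agent.SumProd339

open Matrix Finset

/-- If the vector `t` is orthogonal to `e_i` (`i` in `C` and others), to vectors
`e_i + e_j - e_k`, nearly orthogonal to vectors `e_p - e_q`, and all these vectors span, then the
entries of `t` are small. -/
theorem core {n : ℕ} (t : Fin n → ℝ) (L : Set (Fin n → ℝ)) (κ : ℝ) (hκ : 0 ≤ κ)
    (hL : ∀ v ∈ L, (∃ i, v = Pi.single i 1 ∧ t i = 0) ∨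
      (∃ i j k, v = Pi.single i 1 + Pi.single j 1 - Pi.single k 1 ∧ t i + t j = t k) ∨
      (∃ p q, v = Pi.single p 1 - Pi.single q 1 ∧ |t p - t q| ≤ κ))
    (C : Finset (Fin n)) (hC : ∀ i ∈ C, t i = 0)
    (hCL : ∀ i ∈ C, (Pi.single i 1 : Fin n → ℝ) ∈ L)
    (hspan : Submodule.span ℝ L = ⊤) (m : Fin n) :
    |t m| ≤ (2 : ℝ) ^ ((n : ℝ) - C.card - 1) * κ := by
  classical
  have hstd : LinearIndependent ℝ (fun i : Fin n => (Pi.single i 1 : Fin n → ℝ)) := by
    have h := (Pi.basisFun ℝ (Fin n)).linearIndependent
    convert h using 1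
    funext i
    simp
  set s : Set (Fin n → ℝ) := (fun i : Fin n => (Pi.single i 1 : Fin n → ℝ)) '' (C : Set (Fin n))
    with hs
  have hsli : LinearIndepOn ℝ id s :=
    (hstd.linearIndepOn_id).mono (Set.image_subset_range _ _)
  have hsL : s ⊆ L := by
    rintro _ ⟨i, hi, rfl⟩
    exact hCL i hi
  obtain ⟨b, hbL, hsb, hLb, hbli⟩ := exists_linearIndepOn_id_extension hsli hsL
  have hbspan : Submodule.span ℝ b = ⊤ := by
    rw [eq_top_iff, ← hspan]
    exact Submodule.span_le.2 hLb
  have hbli' : LinearIndependent ℝ (fun x : b => (x : Fin n → ℝ)) := hbli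
  let bas : Module.Basis b ℝ (Fin n → ℝ) := Module.Basis.mk hbli' (by
    rw [Subtype.range_coe_subtype]
    simpa using hbspan.ge)
  have hfin : Finite b := Module.Finite.finite_basis bas
  letI : Fintype b := Fintype.ofFinite b
  have hcard : Fintype.card b = n := by
    rw [← Module.finrank_eq_card_basis bas, Module.finrank_fin_fun]
  let ev : Fin n ≃ b := (Fintype.equivFinOfCardEq hcard).symm
  set V : Fin n → (Fin n → ℝ) := fun r => (ev r : Fin n → ℝ) with hV
  have hVli : LinearIndependent ℝ V := hbli'.comp ev ev.injective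
  have hVL : ∀ r, V r ∈ L := fun r => hbL (ev r).2
  -- the integer matrix
  have hint : ∀ r, ∃ a : Fin n → ℤ, ∀ x, (a x : ℝ) = V r x := by
    intro r
    rcases hL _ (hVL r) with ⟨i, hi, _⟩ | ⟨i, j, k, h, _⟩ | ⟨p, q, h, _⟩
    · refine ⟨Pi.single i 1, fun x => ?_⟩
      rw [hi]
      by_cases hx : x = i
      · subst hx; simp
      · simp [hx]
    · refine ⟨Pi.single i 1 + Pi.single j 1 - Pi.single k 1, fun x => ?_⟩
      rw [h]
      simp only [Pi.add_apply, Pi.sub_apply, Pi.single_apply]
      push_cast
      rfl
    · refine ⟨Pi.single p 1 - Pi.single q 1, fun x => ?_⟩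
      rw [h]
      simp only [Pi.sub_apply, Pi.single_apply]
      push_cast
      rfl
  choose A hA using hint
  have hAsingle : ∀ r i, V r = Pi.single i 1 → A r = Pi.single i 1 := by
    intro r i h
    funext x
    have := hA r x
    rw [h] at this
    by_cases hx : x = i
    · subst hx
      simp at this ⊢
      exact_mod_cast this
    · simp [hx] at this ⊢
      exact_mod_cast this
  have hAmul : ∀ r i j k, V r = Pi.single i 1 + Pi.single j 1 - Pi.single k 1 →
      A r = Pi.single i 1 + Pi.single j 1 - Pi.single k 1 := by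
    intro r i j k h
    funext x
    have := hA r x
    rw [h] at this
    simp only [Pi.add_apply, Pi.sub_apply, Pi.single_apply] at this ⊢
    exact_mod_cast this
  have hAadd : ∀ r p q, V r = Pi.single p 1 - Pi.single q 1 →
      A r = Pi.single p 1 - Pi.single q 1 := by
    intro r p q h
    funext x
    have := hA r x
    rw [h] at this
    simp only [Pi.sub_apply, Pi.single_apply] at this ⊢
    exact_mod_cast this
  have hdot : ∀ r, ∑ x, (A r x : ℝ) * t x = ∑ x, V r x * t x := by
    intro r
    exact Finset.sum_congr rfl fun x _ => by rw [hA r x]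
  set Z : Finset (Fin n) := Finset.univ.filter (fun r => ∃ i, V r = Pi.single i 1 ∧ t i = 0) with hZ
  set B : Finset (Fin n) := Finset.univ.filter (fun r => r ∉ Z ∧
    ∃ i j k, V r = Pi.single i 1 + Pi.single j 1 - Pi.single k 1 ∧ t i + t j = t k) with hB
  set D : Finset (Fin n) := Finset.univ.filter (fun r => r ∉ Z ∧ r ∉ B) with hD
  have hmat : (Matrix.of A).det ≠ 0 := by
    have h1 : LinearIndependent ℝ ((Matrix.of A).map (Int.cast : ℤ → ℝ)).row := by
      convert hVli using 1
      funext r x
      simp only [Matrix.row_apply, Matrix.map_apply, Matrix.of_apply]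
      exact hA r x
    rw [Matrix.linearIndependent_rows_iff_isUnit, Matrix.isUnit_iff_isUnit_det,
      isUnit_iff_ne_zero] at h1
    intro h0
    apply h1
    have := (Int.cast_det (R := ℝ) (Matrix.of A)).symm
    rw [this, h0]
    simp
  have hDrow : ∀ r ∈ D, ∃ p q, V r = Pi.single p 1 - Pi.single q 1 ∧ |t p - t q| ≤ κ := by
    intro r hr
    simp only [hD, Finset.mem_filter, Finset.mem_univ, true_and] at hr
    rcases hL _ (hVL r) with h | h | h
    · exact absurd (by simp only [hZ, Finset.mem_filter, Finset.mem_univ, true_and]; exact h) hr.1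
    · exact absurd (by simp only [hB, Finset.mem_filter, Finset.mem_univ, true_and]; exact ⟨hr.1, h⟩)
        hr.2
    · exact h
  have hZrow : ∀ r ∈ Z, ∃ i, V r = Pi.single i 1 ∧ t i = 0 := by
    intro r hr
    simpa only [hZ, Finset.mem_filter, Finset.mem_univ, true_and] using hr
  have hBrow : ∀ r ∈ B, ∃ i j k, V r = Pi.single i 1 + Pi.single j 1 - Pi.single k 1 ∧
      t i + t j = t k := by
    intro r hr
    simp only [hB, Finset.mem_filter, Finset.mem_univ, true_and] at hr
    exact hr.2
  have hcases : ∀ r, r ∈ Z ∨ r ∈ B ∨ r ∈ D := by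
    intro r
    by_cases h1 : r ∈ Z
    · exact Or.inl h1
    · by_cases h2 : r ∈ B
      · exact Or.inr (Or.inl h2)
      · refine Or.inr (Or.inr ?_)
        simp only [hD, Finset.mem_filter, Finset.mem_univ, true_and]
        exact ⟨h1, h2⟩
  have hBD : Disjoint B D := by
    rw [Finset.disjoint_left]
    intro r h1 h2
    simp only [hD, Finset.mem_filter, Finset.mem_univ, true_and] at h2
    exact h2.2 h1
  have hBZ : Disjoint Z B := by
    rw [Finset.disjoint_left]
    intro r h1 h2
    simp only [hB, Finset.mem_filter, Finset.mem_univ, true_and] at h2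
    exact h2.1 h1
  have hDZ : Disjoint Z D := by
    rw [Finset.disjoint_left]
    intro r h1 h2
    simp only [hD, Finset.mem_filter, Finset.mem_univ, true_and] at h2
    exact h2.1 h1
  have hbound := cramer_bound (Matrix.of A) hmat t B D hBD κ
    (by
      intro r hr
      rcases hcases r with h | h | h
      · obtain ⟨i, hi, _⟩ := hZrow r h
        have : (Matrix.of A) r = Pi.single i 1 := hAsingle r i hi
        rw [this]
        exact DRow.single i
      · exact absurd h hr
      · obtain ⟨p, q, hpq, _⟩ := hDrow r h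
        have : (Matrix.of A) r = Pi.single p 1 - Pi.single q 1 := hAadd r p q hpq
        rw [this]
        exact DRow.diff p q)
    (by
      intro r hr
      obtain ⟨i, j, k, h, _⟩ := hBrow r hr
      refine ⟨Pi.single i 1 - Pi.single k 1, Pi.single j 1, DRow.diff i k, DRow.single j, ?_⟩
      have : (Matrix.of A) r = Pi.single i 1 + Pi.single j 1 - Pi.single k 1 := hAmul r i j k h
      rw [this]
      abel)
    (by
      intro r hr
      have e1 : ∑ x, ((Matrix.of A) r x : ℝ) * t x = ∑ x, V r x * t x := hdot r
      rw [e1]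
      rcases hcases r with h | h | h
      · obtain ⟨i, hi, h0⟩ := hZrow r h
        rw [hi]
        simp [Pi.single_apply, h0]
      · obtain ⟨i, j, k, hv, h0⟩ := hBrow r h
        rw [hv]
        simp only [Pi.add_apply, Pi.sub_apply, Pi.single_apply, sub_mul, add_mul,
          Finset.sum_sub_distrib, Finset.sum_add_distrib, ite_mul, one_mul, zero_mul,
          Finset.sum_ite_eq', Finset.sum_ite_eq, Finset.mem_univ, if_true]
        linarith
      · exact absurd h hr)
    (by
      intro r hr
      have e1 : ∑ x, ((Matrix.of A) r x : ℝ) * t x = ∑ x, V r x * t x := hdot r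
      rw [e1]
      obtain ⟨p, q, hv, h0⟩ := hDrow r hr
      rw [hv]
      simp only [Pi.sub_apply, Pi.single_apply, sub_mul,
        Finset.sum_sub_distrib, ite_mul, one_mul, zero_mul,
        Finset.sum_ite_eq', Finset.sum_ite_eq, Finset.mem_univ, if_true]
      exact h0) m
  -- counting
  have hCZ : C.card ≤ Z.card := by
    apply Finset.card_le_card_of_injOn
      (fun i => if h : (Pi.single i 1 : Fin n → ℝ) ∈ b then ev.symm ⟨Pi.single i 1, h⟩ else i)
    · intro i hi
      have hib : (Pi.single i 1 : Fin n → ℝ) ∈ b := hsb ⟨i, hi, rfl⟩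
      simp only [hib, dif_pos]
      simp only [hZ, Finset.coe_filter, Finset.mem_univ, true_and, Set.mem_setOf_eq]
      refine ⟨i, ?_, hC i hi⟩
      simp only [hV, Equiv.apply_symm_apply]
    · intro i hi j hj hij
      have hib : (Pi.single i 1 : Fin n → ℝ) ∈ b := hsb ⟨i, hi, rfl⟩
      have hjb : (Pi.single j 1 : Fin n → ℝ) ∈ b := hsb ⟨j, hj, rfl⟩
      simp only [hib, hjb, dif_pos] at hij
      have h2 := ev.symm.injective hij
      have h3 : (Pi.single i 1 : Fin n → ℝ) = Pi.single j 1 := congrArg Subtype.val h2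
      exact hstd.injective h3
  have htot : Z.card + B.card + D.card ≤ n := by
    have h1 : (Z ∪ B ∪ D).card ≤ n := by
      calc (Z ∪ B ∪ D).card ≤ (Finset.univ : Finset (Fin n)).card :=
            Finset.card_le_card (Finset.subset_univ _)
        _ = n := by simp
    rw [Finset.card_union_of_disjoint, Finset.card_union_of_disjoint hBZ] at h1
    · exact h1
    · rw [Finset.disjoint_union_left]
      exact ⟨hDZ, hBD⟩
  have hle : C.card + B.card + D.card ≤ n := by omega
  refine le_trans hbound ?_
  apply mul_le_mul_of_nonneg_right _ hκ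
  rcases Nat.eq_zero_or_pos D.card with h0 | hpos
  · rw [h0]
    simp only [Nat.cast_zero, zero_mul]
    positivity
  · have h5 : D.card ≤ 2 ^ (D.card - 1) := by
      have := Nat.lt_two_pow_self (n := D.card - 1)
      omega
    have h6 : (D.card : ℝ) * 2 ^ B.card ≤ 2 ^ (D.card - 1 + B.card) := by
      rw [pow_add]
      apply mul_le_mul_of_nonneg_right _ (by positivity)
      exact_mod_cast h5
    refine le_trans h6 ?_
    rw [← Real.rpow_natCast]
    apply Real.rpow_le_rpow_of_exponent_le (by norm_num)
    have h7 : ((D.card - 1 + B.card : ℕ) : ℝ) = (D.card : ℝ) - 1 + B.card := by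
      push_cast [Nat.cast_sub hpos]
      ring
    rw [h7]
    have h8 : (C.card : ℝ) + B.card + D.card ≤ n := by exact_mod_cast hle
    linarith

end Pool.Agent.SumProd339
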