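import Pool.Agent.SumProd339.Isolated

set_option autoImplicit false

/-!
# Isolated solutions of a doubling system with one further relation
-/

namespace Pool.Agent.SumProd339

open Finset

/-- A curve of solutions through an isolated solution is locally constant. -/
lemma no_curve {n : ℕ} (P : (Fin n → ℂ) → Prop) (x : Fin n → ℂ)
    (hiso : ∃ U ∈ nhds x, ∀ z ∈ U, P z → z = x) (y : ℝ → (Fin n → ℂ)) (hy0 : y 0 = x)
    (hc : ContinuousAt y 0) (hP : ∀ᶠ s in nhds (0 : ℝ), P (y s)) :
    ∃ s : ℝ, 0 < s ∧ y s = x := by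
  obtain ⟨U, hU, hUz⟩ := hiso
  have hev : ∀ᶠ s in nhds (0 : ℝ), y s ∈ U := by
    apply hc.eventually
    rw [hy0]
    exact hU
  have hev2 := hev.and hP
  rw [Metric.eventually_nhds_iff] at hev2
  obtain ⟨ε, hε, hball⟩ := hev2
  have h1 := hball (y := ε / 2) (by
    rw [Real.dist_eq, sub_zero, abs_of_pos (by positivity)]
    linarith)
  exact ⟨ε / 2, by positivity, hUz _ h1.1 h1.2⟩

/-- A point is tame for a system whose additions are doublings. -/
lemma tame_of_doublings {n : ℕ} (S : Set (Eqn n)) (x : Fin n → ℂ) (hx : IsSol S x)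
    (hdbl : ∀ i j k, Eqn.add i j k ∈ S → i = j) : Tame S x := by
  apply tame_of_balanced
  intro i j k h p q hp hq hp0 hq0
  have hij : i = j := hdbl i j k h
  subst hij
  have h3 : x i + x i = x k := hx _ h
  have h4 : ‖x k‖ = 2 * ‖x i‖ := by
    rw [← h3, ← two_mul, norm_mul]
    simp
  have h5 := norm_nonneg (x i)
  have hp2 : p = i ∨ p = k := by tauto
  have hq2 : q = i ∨ q = k := by tauto
  rcases hp2 with rfl | rfl <;> rcases hq2 with rfl | rfl <;> linarith

lemma hpq_of_isolated {n : ℕ} (S : Set (Eqn n)) (x : Fin n → ℂ) (hx : IsSol S x)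
    (hb : Tame S x) (p q r : Fin n) (hp0 : x p ≠ 0) (hq0 : x q ≠ 0) (hr0 : x r ≠ 0)
    (α β : ℂ) (hrel : x r = α * x p + β * x q)
    (hiso : ∃ U ∈ nhds x, ∀ z ∈ U, (IsSol S z ∧ z r = α * z p + β * z q) → z = x)
    (hnt : (Pi.single r 1 - Pi.single q 1 : Fin n → ℝ) ∉
      Submodule.span ℝ (insert (Pi.single p 1 - Pi.single q 1 : Fin n → ℝ) {v | Lead S x v})) :
    (Pi.single p 1 - Pi.single q 1 : Fin n → ℝ) ∈ Submodule.span ℝ {v | Lead S x v} := by
  by_contra hne
  have hnt2 : (Pi.single p 1 - Pi.single q 1 : Fin n → ℝ) ∉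
      Submodule.span ℝ (insert (Pi.single r 1 - Pi.single q 1 : Fin n → ℝ) {v | Lead S x v}) :=
    fun h => hnt (mem_span_insert_exchange h hne)
  obtain ⟨f1, hf1, hk1⟩ := Submodule.exists_le_ker_of_notMem hnt
  obtain ⟨f2, hf2, hk2⟩ := Submodule.exists_le_ker_of_notMem hnt2
  have h1L : ∀ v, Lead S x v → f1 v = 0 := fun v hv =>
    hk1 (Submodule.subset_span (Set.mem_insert_of_mem _ hv))
  have h2L : ∀ v, Lead S x v → f2 v = 0 := fun v hv =>
    hk2 (Submodule.subset_span (Set.mem_insert_of_mem _ hv))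
  have h1p : f1 (Pi.single p 1 - Pi.single q 1) = 0 :=
    hk1 (Submodule.subset_span (Set.mem_insert _ _))
  have h2r : f2 (Pi.single r 1 - Pi.single q 1) = 0 :=
    hk2 (Submodule.subset_span (Set.mem_insert _ _))
  set a : ℝ := f1 (Pi.single r 1 - Pi.single q 1) with ha
  set b : ℝ := f2 (Pi.single p 1 - Pi.single q 1) with hb'
  rw [map_sub] at h1p h2r ha hb'
  -- the curve
  let τ : ℝ → ℂ := fun s =>
    Complex.log ((α * x p * Complex.exp (s : ℂ) + β * x q) / x r) / (a : ℂ)
  let w : ℝ → Fin n → ℂ := fun s j =>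
    τ s * ((f1 (Pi.single j 1) : ℝ) : ℂ) + ((s : ℂ) / (b : ℂ)) * ((f2 (Pi.single j 1) : ℝ) : ℂ)
  let y : ℝ → (Fin n → ℂ) := fun s j => x j * Complex.exp (w s j)
  have haC : (a : ℂ) ≠ 0 := by exact_mod_cast hf1
  have hbC : (b : ℂ) ≠ 0 := by exact_mod_cast hf2
  have hR0 : (α * x p * Complex.exp ((0 : ℝ) : ℂ) + β * x q) / x r = 1 := by
    rw [Complex.ofReal_zero, Complex.exp_zero, mul_one, ← hrel]
    exact div_self hr0
  have hRcont : Continuous (fun s : ℝ => (α * x p * Complex.exp (s : ℂ) + β * x q) / x r) := by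
    fun_prop
  have hτ0 : τ 0 = 0 := by
    simp only [τ]
    rw [hR0, Complex.log_one, zero_div]
  have hτc : ContinuousAt τ 0 := by
    simp only [τ]
    apply ContinuousAt.div_const
    apply ContinuousAt.clog hRcont.continuousAt
    rw [hR0]
    exact Complex.one_mem_slitPlane
  have hy0 : y 0 = x := by
    funext j
    simp only [y, w, hτ0]
    simp
  have hyc : ContinuousAt y 0 := by
    rw [continuousAt_pi]
    intro j
    simp only [y, w]
    apply ContinuousAt.mul continuousAt_const
    apply ContinuousAt.cexp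
    apply ContinuousAt.add
    · exact hτc.mul continuousAt_const
    · have : Continuous (fun s : ℝ => ((s : ℂ) / (b : ℂ)) * ((f2 (Pi.single j 1) : ℝ) : ℂ)) := by
        fun_prop
      exact this.continuousAt
  have hRne : ∀ᶠ s in nhds (0 : ℝ),
      (α * x p * Complex.exp ((s : ℝ) : ℂ) + β * x q) / x r ≠ 0 := by
    apply hRcont.continuousAt.eventually_ne
    rw [hR0]
    exact one_ne_zero
  have hker1 : Submodule.span ℝ {v | Lead S x v} ≤ LinearMap.ker f1 :=
    Submodule.span_le.2 (fun v hv => h1L v hv)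
  have hker2 : Submodule.span ℝ {v | Lead S x v} ≤ LinearMap.ker f2 :=
    Submodule.span_le.2 (fun v hv => h2L v hv)
  have hsolS : ∀ s, IsSol S (y s) := by
    intro s
    apply move S x hx
    · intro i hi
      simp only [w]
      rw [h1L _ (Lead.one i hi), h2L _ (Lead.one i hi)]
      simp
    · intro i j k h hi hj
      have e1 := h1L _ (Lead.mul i j k h hi hj)
      have e2 := h2L _ (Lead.mul i j k h hi hj)
      rw [map_sub, map_add] at e1 e2
      have e3 : f1 (Pi.single k 1) = f1 (Pi.single i 1) + f1 (Pi.single j 1) := by linarith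
      have e4 : f2 (Pi.single k 1) = f2 (Pi.single i 1) + f2 (Pi.single j 1) := by linarith
      simp only [w]
      rw [e3, e4]
      push_cast
      ring
    · intro i j k h p' q' hp hq hp0' hq0'
      have e1 : f1 (Pi.single p' 1 - Pi.single q' 1) = 0 := hker1 (hb i j k h p' q' hp hq hp0' hq0')
      have e2 : f2 (Pi.single p' 1 - Pi.single q' 1) = 0 := hker2 (hb i j k h p' q' hp hq hp0' hq0')
      rw [map_sub] at e1 e2
      have e3 : f1 (Pi.single p' 1) = f1 (Pi.single q' 1) := by linarith
      have e4 : f2 (Pi.single p' 1) = f2 (Pi.single q' 1) := by linarith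
      simp only [w]
      rw [e3, e4]
  have hwp : ∀ s, w s p = w s q + (s : ℂ) := by
    intro s
    have e1 : f1 (Pi.single p 1) = f1 (Pi.single q 1) := by linarith
    have e2 : f2 (Pi.single p 1) = f2 (Pi.single q 1) + b := by linarith
    simp only [w]
    rw [e1, e2]
    push_cast
    field_simp
    ring
  have hwr : ∀ s, w s r = w s q +
      Complex.log ((α * x p * Complex.exp (s : ℂ) + β * x q) / x r) := by
    intro s
    have e1 : f1 (Pi.single r 1) = f1 (Pi.single q 1) + a := by linarith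
    have e2 : f2 (Pi.single r 1) = f2 (Pi.single q 1) := by linarith
    simp only [w, τ]
    rw [e1, e2]
    push_cast
    field_simp
    ring
  have hP : ∀ᶠ s in nhds (0 : ℝ), IsSol S (y s) ∧ y s r = α * y s p + β * y s q := by
    filter_upwards [hRne] with s hs
    refine ⟨hsolS s, ?_⟩
    have e3 : Complex.exp (w s p) = Complex.exp (w s q) * Complex.exp s := by
      rw [hwp s, Complex.exp_add]
    have e4 : Complex.exp (w s r) = Complex.exp (w s q) *
        ((α * x p * Complex.exp (s : ℂ) + β * x q) / x r) := by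
      rw [hwr s, Complex.exp_add, Complex.exp_log hs]
    show x r * Complex.exp (w s r) = α * (x p * Complex.exp (w s p)) +
      β * (x q * Complex.exp (w s q))
    rw [e3, e4]
    generalize Complex.exp (w s q) = c
    field_simp
  obtain ⟨s, hs, hys⟩ := no_curve (fun z => IsSol S z ∧ z r = α * z p + β * z q) x hiso y hy0 hyc hP
  have e1 := congrFun hys p
  have e2 := congrFun hys q
  simp only [y] at e1 e2
  have e3 : Complex.exp (w s p) = 1 := mul_left_cancel₀ hp0 (by rw [e1, mul_one])
  have e4 : Complex.exp (w s q) = 1 := mul_left_cancel₀ hq0 (by rw [e2, mul_one])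
  rw [hwp s, Complex.exp_add, e4, one_mul] at e3
  have e5 : Real.exp s = 1 := by
    have : ((Real.exp s : ℝ) : ℂ) = 1 := by
      rw [Complex.ofReal_exp]
      exact e3
    exact_mod_cast this
  rw [Real.exp_eq_one_iff] at e5
  linarith

lemma hspan_of_isolated {n : ℕ} (S : Set (Eqn n)) (x : Fin n → ℂ) (hx : IsSol S x)
    (hb : Tame S x) (p q r : Fin n) (α β : ℂ) (hrel : x r = α * x p + β * x q)
    (hiso : ∃ U ∈ nhds x, ∀ z ∈ U, (IsSol S z ∧ z r = α * z p + β * z q) → z = x)
    (hpq : (Pi.single p 1 - Pi.single q 1 : Fin n → ℝ) ∈ Submodule.span ℝ {v | Lead S x v}) :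
    Submodule.span ℝ
      (insert (Pi.single r 1 - Pi.single q 1 : Fin n → ℝ) {v | Lead S x v}) = ⊤ := by
  by_contra hne
  obtain ⟨f, hf0, hf⟩ := Submodule.exists_le_ker_of_lt_top _ (lt_top_iff_ne_top.2 hne)
  have hfL : ∀ v, Lead S x v → f v = 0 := fun v hv =>
    hf (Submodule.subset_span (Set.mem_insert_of_mem _ hv))
  have hfr : f (Pi.single r 1 - Pi.single q 1) = 0 :=
    hf (Submodule.subset_span (Set.mem_insert _ _))
  have hker : Submodule.span ℝ {v | Lead S x v} ≤ LinearMap.ker f :=
    Submodule.span_le.2 (fun v hv => hfL v hv)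
  have hfp : f (Pi.single p 1 - Pi.single q 1) = 0 := hker hpq
  rw [map_sub] at hfr hfp
  have hex : ∃ i, f (Pi.single i 1) ≠ 0 := by
    by_contra hall
    push Not at hall
    apply hf0
    apply LinearMap.pi_ext'
    intro i
    ext
    simpa using hall i
  obtain ⟨i, hi⟩ := hex
  have hxi : x i ≠ 0 := fun h => hi (hfL _ (Lead.zero i h))
  let y : ℝ → (Fin n → ℂ) := fun τ j => x j * Complex.exp ((τ : ℂ) * (f (Pi.single j 1) : ℝ))
  have hy0 : y 0 = x := by
    funext j
    simp [y]
  have hcont : Continuous y := by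
    apply continuous_pi
    intro j
    exact continuous_const.mul (Complex.continuous_exp.comp
      ((Complex.continuous_ofReal).mul continuous_const))
  have hP : ∀ᶠ s in nhds (0 : ℝ), IsSol S (y s) ∧ y s r = α * y s p + β * y s q := by
    apply Filter.Eventually.of_forall
    intro s
    refine ⟨move_functional S x hx hb f hfL (s : ℂ), ?_⟩
    have e1 : f (Pi.single p 1) = f (Pi.single q 1) := by linarith
    have e2 : f (Pi.single r 1) = f (Pi.single q 1) := by linarith
    simp only [y]
    rw [e1, e2, hrel]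
    ring
  obtain ⟨s, hs, hys⟩ := no_curve (fun z => IsSol S z ∧ z r = α * z p + β * z q) x hiso y hy0
    hcont.continuousAt hP
  have h3 := congrFun hys i
  simp only [y] at h3
  have h4 : Complex.exp ((s : ℂ) * (f (Pi.single i 1) : ℝ)) = 1 :=
    mul_left_cancel₀ hxi (by rw [h3, mul_one])
  have h5 : Real.exp (s * f (Pi.single i 1)) = 1 := by
    have : ((Real.exp (s * f (Pi.single i 1)) : ℝ) : ℂ) = 1 := by
      rw [Complex.ofReal_exp]
      push_cast
      exact h4
    exact_mod_cast this
  rw [Real.exp_eq_one_iff] at h5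
  rcases mul_eq_zero.1 h5 with h | h
  · linarith
  · exact hi h

end Pool.Agent.SumProd339
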