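import Mathlib

set_option autoImplicit false

/-!
# Determinants of rows `±e_a ∓ e_b` and of sums of two such rows, and a Cramer bound
-/

namespace Pool.Agent.SumProd339

open Matrix Finset

/-- Rows of the form `e_a - e_b`, where either term may be missing. -/
def DRow {m : ℕ} (v : Fin m → ℤ) : Prop :=
  ∃ a b : Option (Fin m), ∀ x, v x = (if a = some x then 1 else 0) - (if b = some x then 1 else 0)

/-- The row `e_a`, or `0`. -/
def E {m : ℕ} (b : Option (Fin m)) : Fin m → ℤ := fun x => if b = some x then 1 else 0

lemma E_some {m : ℕ} (k : Fin m) : E (some k) = Pi.single k 1 := by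
  funext x
  simp only [E, Option.some.injEq, Pi.single_apply, eq_comm]

lemma E_none {m : ℕ} : (E (none : Option (Fin m))) = 0 := by
  funext x
  simp [E]

lemma opt {m : ℕ} (a : Option (Fin (m + 1))) (k : Fin (m + 1)) :
    ∃ a' : Option (Fin m), ∀ x, (a = some (k.succAbove x)) ↔ a' = some x := by
  cases a with
  | none => exact ⟨none, by simp⟩
  | some y =>
    by_cases h : y = k
    · subst h
      refine ⟨none, fun x => ?_⟩
      simp only [Option.some.injEq, reduceCtorEq, iff_false]
      exact (Fin.succAbove_ne y x).symm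
    · obtain ⟨z, hz⟩ := Fin.exists_succAbove_eq h
      refine ⟨some z, fun x => ?_⟩
      rw [← hz]
      simp

lemma DRow.comp {m : ℕ} {v : Fin (m + 1) → ℤ} (h : DRow v) (k : Fin (m + 1)) :
    DRow (fun x => v (k.succAbove x)) := by
  obtain ⟨a, b, hab⟩ := h
  obtain ⟨a', ha⟩ := opt a k
  obtain ⟨b', hb⟩ := opt b k
  refine ⟨a', b', fun x => ?_⟩
  simp only [hab, ha x, hb x]

lemma DRow.single {m : ℕ} (i : Fin m) : DRow (Pi.single i 1 : Fin m → ℤ) := by
  refine ⟨some i, none, fun x => ?_⟩
  simp [Pi.single_apply, eq_comm]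

lemma DRow.diff {m : ℕ} (i j : Fin m) : DRow (Pi.single i 1 - Pi.single j 1 : Fin m → ℤ) := by
  refine ⟨some i, some j, fun x => ?_⟩
  simp [Pi.single_apply, eq_comm]

/-- Total unimodularity. -/
lemma det_D (m : ℕ) : ∀ M : Matrix (Fin m) (Fin m) ℤ, (∀ r, DRow (M r)) → |M.det| ≤ 1 := by
  induction m with
  | zero => intro M _; simp
  | succ m ih =>
    intro M hM
    have hcof : ∀ r b, |(M.updateRow r (E b)).det| ≤ 1 := by
      intro r b
      cases b with
      | none =>
        have : (M.updateRow r (E none)).det = 0 := by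
          apply Matrix.det_eq_zero_of_row_eq_zero r
          intro j
          simp [E]
        rw [this, abs_zero]
        norm_num
      | some k =>
        rw [E_some, ← Matrix.adjugate_apply, Matrix.adjugate_fin_succ_eq_det_submatrix, abs_mul]
        have h1 : |(-1 : ℤ) ^ ((r : ℕ) + (k : ℕ))| = 1 := by
          rw [abs_pow, abs_neg, abs_one, one_pow]
        rw [h1, one_mul]
        exact ih _ fun s => (hM (r.succAbove s)).comp k
    choose p q hpq using hM
    by_cases hall : ∀ r, (∃ x, p r = some x) ∧ (∃ y, q r = some y)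
    · have h0 : M.det = 0 := by
        rw [← Matrix.exists_mulVec_eq_zero_iff]
        refine ⟨fun _ => 1, ?_, ?_⟩
        · intro h
          have := congrFun h 0
          simp at this
        · funext r
          obtain ⟨⟨x, hx⟩, ⟨y, hy⟩⟩ := hall r
          simp only [Matrix.mulVec, dotProduct, mul_one, Pi.zero_apply]
          simp only [hpq, hx, hy, Option.some.injEq]
          simp
      rw [h0, abs_zero]
      norm_num
    · push Not at hall
      obtain ⟨r, hr⟩ := hall
      have hrow : M r = E (p r) - E (q r) := by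
        funext x
        rw [hpq r x]
        simp only [E, Pi.sub_apply]
      by_cases hp : ∃ x, p r = some x
      · have hq : q r = none := by
          cases hqr : q r with
          | none => rfl
          | some y => exact absurd hqr (hr hp y)
        have h1 : M = M.updateRow r (E (p r)) := by
          conv_lhs => rw [← Matrix.updateRow_eq_self M r]
          rw [hrow, hq, E_none, sub_zero]
        rw [h1]
        exact hcof r _
      · have hp' : p r = none := by
          cases hpr : p r with
          | none => rfl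
          | some y => exact absurd ⟨y, hpr⟩ hp
        have h1 : M = M.updateRow r ((-1 : ℤ) • E (q r)) := by
          conv_lhs => rw [← Matrix.updateRow_eq_self M r]
          rw [hrow, hp', E_none, zero_sub, neg_one_smul]
        rw [h1, Matrix.det_updateRow_smul, abs_mul]
        simpa using hcof r (q r)

/-- Rows which are sums of two rows of the previous form cost a factor `2` each. -/
lemma det_P {m : ℕ} (B : Finset (Fin m)) : ∀ M : Matrix (Fin m) (Fin m) ℤ,
    (∀ r, r ∉ B → DRow (M r)) → (∀ r ∈ B, ∃ u w, DRow u ∧ DRow w ∧ M r = u + w) →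
    |M.det| ≤ 2 ^ B.card := by
  classical
  induction B using Finset.induction_on with
  | empty =>
    intro M h1 _
    simpa using det_D m M (fun r => h1 r (by simp))
  | insert r B hr ih =>
    intro M h1 h2
    obtain ⟨u, w, hu, hw, huw⟩ := h2 r (Finset.mem_insert_self r B)
    have key : ∀ v, DRow v → |(M.updateRow r v).det| ≤ 2 ^ B.card := by
      intro v hv
      apply ih
      · intro s hs
        by_cases hsr : s = r
        · subst hsr
          rw [Matrix.updateRow_self]
          exact hv
        · rw [Matrix.updateRow_ne hsr]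
          exact h1 s (by simp [hsr, hs])
      · intro s hs
        have hsr : s ≠ r := fun h => hr (h ▸ hs)
        rw [Matrix.updateRow_ne hsr]
        exact h2 s (Finset.mem_insert_of_mem hs)
    have h3 : M = M.updateRow r (u + w) := by
      conv_lhs => rw [← Matrix.updateRow_eq_self M r]
      rw [huw]
    rw [h3, Matrix.det_updateRow_add, Finset.card_insert_of_notMem hr, pow_succ]
    calc |(M.updateRow r u).det + (M.updateRow r w).det|
        ≤ |(M.updateRow r u).det| + |(M.updateRow r w).det| := abs_add_le _ _
      _ ≤ 2 ^ B.card + 2 ^ B.card := add_le_add (key u hu) (key w hw)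
      _ = 2 ^ B.card * 2 := by ring

/-- The Cramer bound. -/
lemma cramer_bound {m : ℕ} (A : Matrix (Fin m) (Fin m) ℤ) (hA : A.det ≠ 0) (t : Fin m → ℝ)
    (B D : Finset (Fin m)) (hBD : Disjoint B D) (κ : ℝ)
    (h1 : ∀ r, r ∉ B → DRow (A r)) (h2 : ∀ r ∈ B, ∃ u w, DRow u ∧ DRow w ∧ A r = u + w)
    (h3 : ∀ r, r ∉ D → ∑ x, (A r x : ℝ) * t x = 0)
    (h4 : ∀ r ∈ D, |∑ x, (A r x : ℝ) * t x| ≤ κ) (i : Fin m) :
    |t i| ≤ D.card * 2 ^ B.card * κ := by
  classical
  set R : Matrix (Fin m) (Fin m) ℝ := A.map (Int.cast : ℤ → ℝ) with hR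
  have hdet : R.det = (A.det : ℝ) := by
    rw [hR]
    exact (Int.cast_det A).symm
  have hmul : R.adjugate *ᵥ (R *ᵥ t) = R.det • t := by
    rw [Matrix.mulVec_mulVec, Matrix.adjugate_mul, Matrix.smul_mulVec, Matrix.one_mulVec]
  have hadj : ∀ r ∈ D, |R.adjugate i r| ≤ 2 ^ B.card := by
    intro r hr
    have e1 : R.adjugate i r = ((A.adjugate i r : ℤ) : ℝ) := by
      rw [hR]
      have := (Int.castRingHom ℝ).map_adjugate A
      have h := congrFun (congrFun this i) r
      simpa using h.symm
    rw [e1, Matrix.adjugate_apply, ← Int.cast_abs]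
    have : |(A.updateRow r (Pi.single i 1)).det| ≤ 2 ^ B.card := by
      apply det_P B
      · intro s hs
        by_cases hsr : s = r
        · subst hsr
          rw [Matrix.updateRow_self]
          exact DRow.single i
        · rw [Matrix.updateRow_ne hsr]
          exact h1 s hs
      · intro s hs
        have hsr : s ≠ r := by
          rintro rfl
          exact (Finset.disjoint_left.1 hBD hs) hr
        rw [Matrix.updateRow_ne hsr]
        exact h2 s hs
    calc ((|(A.updateRow r (Pi.single i 1)).det| : ℤ) : ℝ) ≤ ((2 ^ B.card : ℤ) : ℝ) := by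
          exact_mod_cast this
      _ = 2 ^ B.card := by push_cast; ring
  have hsum : R.det * t i = ∑ r ∈ D, R.adjugate i r * (R *ᵥ t) r := by
    have h := congrFun hmul i
    simp only [Pi.smul_apply, smul_eq_mul] at h
    rw [← h]
    simp only [Matrix.mulVec, dotProduct]
    symm
    apply Finset.sum_subset (Finset.subset_univ D)
    intro r _ hr
    have := h3 r hr
    have e : ∑ x, R r x * t x = 0 := by
      rw [← this]
      rfl
    rw [e, mul_zero]
  have hdet1 : (1 : ℝ) ≤ |R.det| := by
    rw [hdet, ← Int.cast_abs]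
    exact_mod_cast Int.one_le_abs hA
  calc |t i| ≤ |R.det| * |t i| := by
        nlinarith [abs_nonneg (t i)]
    _ = |∑ r ∈ D, R.adjugate i r * (R *ᵥ t) r| := by rw [← abs_mul, hsum]
    _ ≤ ∑ r ∈ D, |R.adjugate i r * (R *ᵥ t) r| := Finset.abs_sum_le_sum_abs _ _
    _ ≤ ∑ _r ∈ D, 2 ^ B.card * κ := by
        apply Finset.sum_le_sum
        intro r hr
        rw [abs_mul]
        apply mul_le_mul (hadj r hr) _ (abs_nonneg _) (by positivity)
        have := h4 r hr
        exact this
    _ = D.card * 2 ^ B.card * κ := by
        rw [Finset.sum_const, nsmul_eq_mul]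
        ring

end Pool.Agent.SumProd339
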