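import Pool.Agent.SumProd339.MaxOne

set_option autoImplicit false

/-!
# Consistent systems with one essential addition equation have a bounded solution
-/

namespace Pool.Agent.SumProd339

open Finset

instance finite_eqn (n : ℕ) : Finite (Eqn n) := by
  let f : Eqn n → Fin n ⊕ (Fin n × Fin n × Fin n) ⊕ (Fin n × Fin n × Fin n) := fun e =>
    match e with
    | Eqn.one i => Sum.inl i
    | Eqn.add i j k => Sum.inr (Sum.inl (i, j, k))
    | Eqn.mul i j k => Sum.inr (Sum.inr (i, j, k))
  apply Finite.of_injective f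
  rintro (_ | _ | _) (_ | _ | _) h <;> simp_all [f]

lemma span_of_closed {n : ℕ} (S : Set (Eqn n)) (x : Fin n → ℂ) (hx : IsSol S x)
    (hfull1 : ∀ (z : Fin n → ℂ) (i : Fin n), IsSol S z → z i = 1 → Eqn.one i ∈ S)
    (hb : Tame S x) :
    Submodule.span ℝ {v | Lead S x v} = ⊤ := by
  by_contra hne
  obtain ⟨f, hfL, i, hi, hxi⟩ := exists_functional S x hne
  set τ : ℂ := -Complex.log (x i) / ((f (Pi.single i 1) : ℝ) : ℂ) with hτ
  have hsol := move_functional S x hx hb f hfL τ
  have hi' : ((f (Pi.single i 1) : ℝ) : ℂ) ≠ 0 := by exact_mod_cast hi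
  have h1 : x i * Complex.exp (τ * (f (Pi.single i 1) : ℝ)) = 1 := by
    rw [hτ, div_mul_cancel₀ _ hi', Complex.exp_neg, Complex.exp_log hxi]
    exact mul_inv_cancel₀ hxi
  have hmem : Eqn.one i ∈ S := hfull1 _ i hsol h1
  exact hi (hfL _ (Lead.one i hmem))

/-- The bound at solutions of systems with one essential addition equation which contain all unit
equations and doublings that hold at some solution. -/
theorem oneAddition_bound_closed {n : ℕ} (S : Set (Eqn n)) (x : Fin n → ℂ) (hx : IsSol S x)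
    (hfull1 : ∀ (z : Fin n → ℂ) (i : Fin n), IsSol S z → z i = 1 → Eqn.one i ∈ S)
    (hfull2 : ∀ (z : Fin n → ℂ) (i k : Fin n), IsSol S z → z i + z i = z k → Eqn.add i i k ∈ S)
    (hone : OneAddition S x)
    (C : Finset (Fin n)) (hC : ∀ i ∈ C, Eqn.one i ∈ S) (m : Fin n) :
    ‖x m‖ ≤ (2 : ℝ) ^ ((2 : ℝ) ^ ((n : ℝ) - C.card - 1)) := by
  by_cases ht : Tame S x
  · have hspan := span_of_closed S x hx hfull1 ht
    exact lead_bound S x hx ∅ (by simp) C (fun i hi => Or.inr (hC i hi)) (by simpa using hspan) m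
  obtain ⟨i₀, j₀, k₀, h1⟩ := hone
  -- the exceptional relation holds at `x`
  have hsum : x i₀ + x j₀ = x k₀ := by
    by_contra hne
    apply ht
    apply tame_of_trivial S x hx
    intro i j k h
    rcases h1 i j k h with h2 | ⟨rfl, rfl, rfl⟩ | ⟨rfl, rfl, rfl⟩
    · exact h2
    · exact absurd (hx _ h) hne
    · exfalso
      have h3 : x i + x j = x k := hx _ h
      exact hne (by rw [← h3]; ring)
  -- the coordinates are nonzero
  have hnz : ∀ a, (a = i₀ ∨ a = j₀ ∨ a = k₀) → x a ≠ 0 := by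
    intro a ha ha0
    apply ht
    apply tame_of_trivial S x hx
    intro i j k h
    rcases h1 i j k h with h2 | ⟨rfl, rfl, rfl⟩ | ⟨rfl, rfl, rfl⟩
    · exact h2
    · rcases ha with rfl | rfl | rfl
      · exact Or.inr (Or.inl ha0)
      · exact Or.inr (Or.inr (Or.inl ha0))
      · exact Or.inr (Or.inr (Or.inr ha0))
    · rcases ha with rfl | rfl | rfl
      · exact Or.inr (Or.inr (Or.inl ha0))
      · exact Or.inr (Or.inl ha0)
      · exact Or.inr (Or.inr (Or.inr ha0))
  -- the trivial part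
  set S' : Set (Eqn n) := {e | e ∈ S ∧ ∀ i j k, e = Eqn.add i j k →
    (i = j ∨ x i = 0 ∨ x j = 0 ∨ x k = 0)} with hS'
  have hx' : IsSol S' x := fun e he => hx e he.1
  have hdbl' : ∀ i j k, Eqn.add i j k ∈ S' → i = j ∨ x i = 0 ∨ x j = 0 ∨ x k = 0 :=
    fun i j k h => h.2 i j k rfl
  have hC' : ∀ i ∈ C, Eqn.one i ∈ S' := fun i hi => ⟨hC i hi, fun _ _ _ h => by cases h⟩
  have hLead : ∀ v, Lead S' x v → Lead S x v := by
    intro v hv
    cases hv with
    | zero i h => exact Lead.zero i h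
    | one i h => exact Lead.one i h.1
    | mul i j k h hi hj => exact Lead.mul i j k h.1 hi hj
    | add i j k p q h hp hq hp0 hq0 h1 h2 => exact Lead.add i j k p q h.1 hp hq hp0 hq0 h1 h2
  have hsol : ∀ z : Fin n → ℂ, IsSol S' z → z i₀ + z j₀ = z k₀ → IsSol S z := by
    intro z hz hsum' e he
    cases e with
    | one i => exact hz _ ⟨he, fun _ _ _ h => by cases h⟩
    | mul i j k => exact hz _ ⟨he, fun _ _ _ h => by cases h⟩
    | add i j k =>
      rcases h1 i j k he with h2 | ⟨rfl, rfl, rfl⟩ | ⟨rfl, rfl, rfl⟩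
      · refine hz _ ⟨he, fun i' j' k' h => ?_⟩
        cases h
        exact h2
      · exact hsum'
      · show z i + z j = z k
        rw [← hsum', add_comm]
  have key : ∀ (p q r : Fin n) (β : ℂ), (β = 1 ∨ β = -1) →
      (∀ z : Fin n → ℂ, z r = 1 * z p + β * z q ↔ z i₀ + z j₀ = z k₀) →
      (∀ a, (a = i₀ ∨ a = j₀ ∨ a = k₀) ↔ (a = p ∨ a = q ∨ a = r)) →
      ‖x r‖ ≤ ‖x p‖ → ‖x r‖ ≤ ‖x q‖ →
      |Real.log ‖x m‖| ≤ (2 : ℝ) ^ ((n : ℝ) - C.card - 1) * Real.log 2 := by
    intro p q r β hβ hrel hperm hrp hrq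
    have hp0 : x p ≠ 0 := hnz p ((hperm p).2 (Or.inl rfl))
    have hq0 : x q ≠ 0 := hnz q ((hperm q).2 (Or.inr (Or.inl rfl)))
    have hr0 : x r ≠ 0 := hnz r ((hperm r).2 (Or.inr (Or.inr rfl)))
    have hrx : x r = 1 * x p + β * x q := (hrel x).2 hsum
    have hβ0 : β ≠ 0 := by rcases hβ with rfl | rfl <;> norm_num
    have hnβ : ‖β‖ = 1 := by rcases hβ with rfl | rfl <;> simp
    have hpn : ‖x p‖ ≤ 2 * ‖x q‖ := by
      have e1 : x p = x r - β * x q := by rw [hrx]; ring
      have e2 : ‖x p‖ ≤ ‖x r‖ + ‖β * x q‖ := by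
        calc ‖x p‖ = ‖x r - β * x q‖ := by rw [← e1]
          _ ≤ _ := norm_sub_le _ _
      rw [norm_mul, hnβ] at e2
      linarith
    have hqn : ‖x q‖ ≤ 2 * ‖x p‖ := by
      have e1 : β * x q = x r - x p := by rw [hrx]; ring
      have e2 : ‖β * x q‖ ≤ ‖x r‖ + ‖x p‖ := by rw [e1]; exact norm_sub_le _ _
      rw [norm_mul, hnβ] at e2
      linarith
    have hsub : ∀ z, IsSol S' z → z r = 1 * z p + β * z q → IsSol S z :=
      fun z hz h => hsol z hz ((hrel z).1 h)
    have hb' := tame_of_trivial S' x hx' hdbl'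
    have hnt : (Pi.single r 1 - Pi.single q 1 : Fin n → ℝ) ∉
        Submodule.span ℝ (insert (Pi.single p 1 - Pi.single q 1 : Fin n → ℝ) {v | Lead S' x v}) := by
      intro h
      apply ht
      -- the exceptional equation is in `S`
      have hmem : ∃ i j k, Eqn.add i j k ∈ S ∧ (∀ a, (a = p ∨ a = q ∨ a = r) →
          (a = i ∨ a = j ∨ a = k)) := by
        by_contra hno
        push Not at hno
        apply ht
        apply tame_of_trivial S x hx
        intro i j k hS
        rcases h1 i j k hS with h2 | ⟨rfl, rfl, rfl⟩ | ⟨rfl, rfl, rfl⟩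
        · exact h2
        · exfalso
          obtain ⟨a, ha, hna⟩ := hno i j k hS
          rcases (hperm a).2 ha with h3 | h3 | h3
          · exact hna.1 h3
          · exact hna.2.1 h3
          · exact hna.2.2 h3
        · exfalso
          obtain ⟨a, ha, hna⟩ := hno i j k hS
          rcases (hperm a).2 ha with h3 | h3 | h3
          · exact hna.2.1 h3
          · exact hna.1 h3
          · exact hna.2.2 h3
      obtain ⟨i', j', k', hS0, hin⟩ := hmem
      have hpqS : (Pi.single p 1 - Pi.single q 1 : Fin n → ℝ) ∈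
          Submodule.span ℝ {v | Lead S x v} :=
        Submodule.subset_span (Lead.add i' j' k' p q hS0 (hin p (Or.inl rfl))
          (hin q (Or.inr (Or.inl rfl))) hp0 hq0 hpn hqn)
      have hle : Submodule.span ℝ
          (insert (Pi.single p 1 - Pi.single q 1 : Fin n → ℝ) {v | Lead S' x v}) ≤
          Submodule.span ℝ {v | Lead S x v} :=
        Submodule.span_le.2 (Set.insert_subset hpqS
          (fun v hv => Submodule.subset_span (hLead v hv)))
      have hrqS := hle h
      have hall : ∀ a, (a = p ∨ a = q ∨ a = r) → (Pi.single a 1 - Pi.single q 1 : Fin n → ℝ) ∈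
          Submodule.span ℝ {v | Lead S x v} := by
        intro a ha
        rcases ha with rfl | rfl | rfl
        · exact hpqS
        · rw [sub_self]; exact Submodule.zero_mem _
        · exact hrqS
      have hall2 : ∀ a b, (a = i₀ ∨ a = j₀ ∨ a = k₀) → (b = i₀ ∨ b = j₀ ∨ b = k₀) →
          (Pi.single a 1 - Pi.single b 1 : Fin n → ℝ) ∈ Submodule.span ℝ {v | Lead S x v} := by
        intro a b ha hb
        have e1 : (Pi.single a 1 - Pi.single b 1 : Fin n → ℝ) =
            (Pi.single a 1 - Pi.single q 1) - (Pi.single b 1 - Pi.single q 1) := by abel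
        rw [e1]
        exact Submodule.sub_mem _ (hall a ((hperm a).1 ha)) (hall b ((hperm b).1 hb))
      intro i j k hS a b ha hb ha0 hb0
      rcases h1 i j k hS with h2 | ⟨rfl, rfl, rfl⟩ | ⟨rfl, rfl, rfl⟩
      · have hS2 : Eqn.add i j k ∈ S' := by
          refine ⟨hS, fun i' j' k' h => ?_⟩
          cases h
          exact h2
        have h3 := tame_of_trivial S' x hx' hdbl' i j k hS2 a b ha hb ha0 hb0
        exact Submodule.span_mono (fun v hv => hLead v hv) h3
      · exact hall2 a b ha hb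
      · exact hall2 a b (perm3 _ _ _ _ ha) (perm3 _ _ _ _ hb)
    have hpq := hpq_of_maximal S' x hx' hb' p q r hp0 hq0 hr0 β hβ0
      (fun z hz h1' h2' => by
        have hmem := hfull2 z p r (hsub z hz h1') (by rw [h2']; ring)
        have h3 : x p + x p = x r := hx _ hmem
        have h4 : ‖x r‖ = 2 * ‖x p‖ := by
          rw [← h3, ← two_mul, norm_mul]
          simp
        have h5 : 0 < ‖x p‖ := norm_pos_iff.2 hp0
        linarith) hnt
    have hspan := hspan_of_maximal S' x hx' hb' p q r β hrx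
      (fun z i hz h1' h2' => by
        have hmem := hfull1 z i (hsub z hz h1') h2'
        exact ⟨hmem, fun _ _ _ h => by cases h⟩) hpq
    have hz : (Pi.single r 1 - Pi.single q 1 : Fin n → ℝ) ∉ Submodule.span ℝ {v | Lead S' x v} :=
      fun h => hnt (Submodule.span_mono (Set.subset_insert _ _) h)
    exact core3 S' x hx' hdbl' C hC' p q r hp0 hq0 hr0 1 β (Or.inl rfl) hβ hrx hrq hz hpq hspan m
  have hlog : |Real.log ‖x m‖| ≤ (2 : ℝ) ^ ((n : ℝ) - C.card - 1) * Real.log 2 := by
    by_cases c1 : ‖x k₀‖ ≤ ‖x i₀‖ ∧ ‖x k₀‖ ≤ ‖x j₀‖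
    · exact key i₀ j₀ k₀ 1 (Or.inl rfl)
        (fun z => by rw [one_mul, one_mul]; exact eq_comm) (fun a => Iff.rfl) c1.1 c1.2
    · by_cases c2 : ‖x i₀‖ ≤ ‖x j₀‖
      · have c3 : ‖x i₀‖ ≤ ‖x k₀‖ := by
          by_contra h
          push Not at h
          exact c1 ⟨h.le, h.le.trans c2⟩
        exact key k₀ j₀ i₀ (-1) (Or.inr rfl)
          (fun z => by
            constructor
            · intro h; rw [h]; ring
            · intro h; rw [← h]; ring)
          (fun a => perm1 a i₀ j₀ k₀) c3 c2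
      · push Not at c2
        have c3 : ‖x j₀‖ ≤ ‖x k₀‖ := by
          by_contra h
          push Not at h
          exact c1 ⟨h.le.trans c2.le, h.le⟩
        exact key k₀ i₀ j₀ (-1) (Or.inr rfl)
          (fun z => by
            constructor
            · intro h; rw [h]; ring
            · intro h; rw [← h]; ring)
          (fun a => perm2 a i₀ j₀ k₀) c3 c2.le
  rcases eq_or_lt_of_le (norm_nonneg (x m)) with h0 | h0
  · rw [← h0]
    positivity
  · have h2 := le_trans (le_abs_self _) hlog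
    rw [← Real.log_rpow (by norm_num : (0 : ℝ) < 2)] at h2
    exact (Real.log_le_log_iff h0 (by positivity)).1 h2

/-- If the system `T ⊆ E_n` has a solution `x` with `OneAddition T x`, then it has a solution with
all coordinates of modulus at most `2^(2^(n - |C| - 1))`, if `T` contains the equations `x_i = 1`,
`i ∈ C`. -/
theorem exists_bounded {n : ℕ} (T : Set (Eqn n)) (x : Fin n → ℂ) (hx : IsSol T x)
    (hone : OneAddition T x) (C : Finset (Fin n)) (hC : ∀ i ∈ C, Eqn.one i ∈ T) :
    ∃ z : Fin n → ℂ, IsSol T z ∧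
      ∀ m, ‖z m‖ ≤ (2 : ℝ) ^ ((2 : ℝ) ^ ((n : ℝ) - C.card - 1)) := by
  classical
  set T' : Set (Eqn n) := T ∪ {e | ∃ i, x i = 0 ∧ e = Eqn.add i i i} with hT'
  have hxT' : IsSol T' x := by
    intro e he
    rcases he with he | ⟨i, hi, rfl⟩
    · exact hx e he
    · show x i + x i = x i
      rw [hi, add_zero]
  set F : Set (Set (Eqn n)) := {S | T' ⊆ S ∧
    (∀ i j k, Eqn.add i j k ∈ S → i = j ∨ Eqn.add i j k ∈ T') ∧ ∃ z, IsSol S z} with hF
  have hfin : F.Finite := Set.toFinite F
  have hne : F.Nonempty := ⟨T', subset_rfl, fun i j k h => Or.inr h, x, hxT'⟩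
  obtain ⟨S, hS⟩ := hfin.exists_maximal hne
  obtain ⟨hTS, hadd, z, hz⟩ := hS.prop
  have hins : ∀ e : Eqn n, (∀ i j k, e = Eqn.add i j k → i = j) →
      (∃ y, IsSol S y ∧ e.Holds y) → e ∈ S := by
    rintro e he ⟨y, hy, hye⟩
    have hmem : insert e S ∈ F := by
      refine ⟨hTS.trans (Set.subset_insert _ _), ?_, y, ?_⟩
      · intro i j k h
        rcases h with h | h
        · exact Or.inl (he i j k h.symm)
        · exact hadd i j k h
      · intro e' he'
        rcases he' with rfl | he'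
        · exact hye
        · exact hy e' he'
    exact hS.le_of_ge hmem (Set.subset_insert _ _) (Set.mem_insert _ _)
  have hfull1 : ∀ (y : Fin n → ℂ) (i : Fin n), IsSol S y → y i = 1 → Eqn.one i ∈ S :=
    fun y i hy hyi => hins _ (fun _ _ _ h => by cases h) ⟨y, hy, hyi⟩
  have hfull2 : ∀ (y : Fin n → ℂ) (i k : Fin n), IsSol S y → y i + y i = y k →
      Eqn.add i i k ∈ S :=
    fun y i k hy hyi => hins _ (fun a b c h => by cases h; rfl) ⟨y, hy, hyi⟩
  have hzero : ∀ i, x i = 0 → z i = 0 := by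
    intro i hi
    have h1 : Eqn.add i i i ∈ S := hTS (Or.inr ⟨i, hi, rfl⟩)
    have h2 : z i + z i = z i := hz _ h1
    have := congrArg (fun w => w - z i) h2
    simpa using this
  have honeS : OneAddition S z := by
    obtain ⟨i₀, j₀, k₀, h1⟩ := hone
    refine ⟨i₀, j₀, k₀, fun i j k h => ?_⟩
    rcases hadd i j k h with h2 | h2
    · exact Or.inl (Or.inl h2)
    · rcases h2 with h2 | ⟨a, _, ha⟩
      · rcases h1 i j k h2 with (h3 | h3 | h3 | h3) | h3
        · exact Or.inl (Or.inl h3)
        · exact Or.inl (Or.inr (Or.inl (hzero i h3)))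
        · exact Or.inl (Or.inr (Or.inr (Or.inl (hzero j h3))))
        · exact Or.inl (Or.inr (Or.inr (Or.inr (hzero k h3))))
        · exact Or.inr h3
      · cases ha
        exact Or.inl (Or.inl rfl)
  refine ⟨z, fun e he => hz e (hTS (Or.inl he)), fun m => ?_⟩
  exact oneAddition_bound_closed S z hz hfull1 hfull2 honeS C
    (fun i hi => hTS (Or.inl (hC i hi))) m

end Pool.Agent.SumProd339
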