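import Pool.Agent.SumProd339.Systems

set_option autoImplicit false

/-!
# At an isolated tame solution the leading vectors span
-/

namespace Pool.Agent.SumProd339

/-- `x` is an isolated solution of `S`. -/
def Isolated {n : ℕ} (S : Set (Eqn n)) (x : Fin n → ℂ) : Prop :=
  ∃ U ∈ nhds x, ∀ z ∈ U, IsSol S z → z = x

lemma isolated_of_finite {n : ℕ} (S : Set (Eqn n)) (x : Fin n → ℂ)
    (h : {z | IsSol S z}.Finite) : Isolated S x := by
  refine ⟨({z | IsSol S z} \ {x})ᶜ, ?_, ?_⟩
  · apply IsOpen.mem_nhds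
    · exact (h.subset Set.sdiff_subset).isClosed.isOpen_compl
    · simp
  · intro z hz hS
    by_contra hne
    exact hz ⟨hS, hne⟩

/-- A nonzero functional vanishing on the leading vectors is nonzero at some `e_i`, `x_i ≠ 0`. -/
lemma exists_functional {n : ℕ} (S : Set (Eqn n)) (x : Fin n → ℂ)
    (hne : Submodule.span ℝ {v | Lead S x v} ≠ ⊤) :
    ∃ f : (Fin n → ℝ) →ₗ[ℝ] ℝ, (∀ v, Lead S x v → f v = 0) ∧
      ∃ i, f (Pi.single i 1) ≠ 0 ∧ x i ≠ 0 := by
  obtain ⟨f, hf0, hf⟩ := Submodule.exists_le_ker_of_lt_top _ (lt_top_iff_ne_top.2 hne)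
  have hfL : ∀ v, Lead S x v → f v = 0 := fun v hv => hf (Submodule.subset_span hv)
  have hex : ∃ i, f (Pi.single i 1) ≠ 0 := by
    by_contra hall
    push Not at hall
    apply hf0
    apply LinearMap.pi_ext'
    intro i
    ext
    simpa using hall i
  obtain ⟨i, hi⟩ := hex
  exact ⟨f, hfL, i, hi, fun h => hi (hfL _ (Lead.zero i h))⟩

lemma span_of_isolated {n : ℕ} (S : Set (Eqn n)) (x : Fin n → ℂ) (hx : IsSol S x)
    (hiso : Isolated S x) (hb : Tame S x) : Submodule.span ℝ {v | Lead S x v} = ⊤ := by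
  by_contra hne
  obtain ⟨f, hfL, i, hi, hxi⟩ := exists_functional S x hne
  obtain ⟨U, hU, hUz⟩ := hiso
  -- the curve of solutions
  let y : ℝ → (Fin n → ℂ) := fun τ j => x j * Complex.exp ((τ : ℂ) * (f (Pi.single j 1) : ℝ))
  have hy0 : y 0 = x := by
    funext j
    simp [y]
  have hcont : Continuous y := by
    apply continuous_pi
    intro j
    exact continuous_const.mul (Complex.continuous_exp.comp
      ((Complex.continuous_ofReal).mul continuous_const))
  have hev : ∀ᶠ τ in nhds (0 : ℝ), y τ ∈ U := by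
    apply hcont.continuousAt.eventually
    rw [hy0]
    exact hU
  rw [Metric.eventually_nhds_iff] at hev
  obtain ⟨ε, hε, hball⟩ := hev
  have h1 : y (ε / 2) ∈ U := by
    apply hball
    rw [Real.dist_eq, sub_zero, abs_of_pos (by positivity)]
    linarith
  have h2 := hUz _ h1 (move_functional S x hx hb f hfL ((ε / 2 : ℝ) : ℂ))
  have h3 := congrFun h2 i
  simp only [y] at h3
  have h4 : Complex.exp (((ε / 2 : ℝ) : ℂ) * (f (Pi.single i 1) : ℝ)) = 1 :=
    mul_left_cancel₀ hxi (by rw [h3, mul_one])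
  have h5 : Real.exp (ε / 2 * f (Pi.single i 1)) = 1 := by
    have : ((Real.exp (ε / 2 * f (Pi.single i 1)) : ℝ) : ℂ) = 1 := by
      rw [Complex.ofReal_exp]
      push_cast
      push_cast at h4
      exact h4
    exact_mod_cast this
  rw [Real.exp_eq_one_iff] at h5
  rcases mul_eq_zero.1 h5 with h | h
  · linarith
  · exact hi h

/-- In a maximal consistent system the leading vectors at a tame solution span. -/
lemma span_of_maximal {n : ℕ} (S : Set (Eqn n)) (x : Fin n → ℂ) (hx : IsSol S x)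
    (hmax : ∀ S' : Set (Eqn n), S ⊂ S' → ¬ ∃ z, IsSol S' z) (hb : Tame S x) :
    Submodule.span ℝ {v | Lead S x v} = ⊤ := by
  by_contra hne
  obtain ⟨f, hfL, i, hi, hxi⟩ := exists_functional S x hne
  -- choose `τ` with `x_i exp (τ f(e_i)) = 1`
  set τ : ℂ := -Complex.log (x i) / ((f (Pi.single i 1) : ℝ) : ℂ) with hτ
  have hsol := move_functional S x hx hb f hfL τ
  have hi' : ((f (Pi.single i 1) : ℝ) : ℂ) ≠ 0 := by exact_mod_cast hi
  have h1 : x i * Complex.exp (τ * (f (Pi.single i 1) : ℝ)) = 1 := by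
    rw [hτ, div_mul_cancel₀ _ hi', Complex.exp_neg, Complex.exp_log hxi]
    exact mul_inv_cancel₀ hxi
  have hmem : Eqn.one i ∈ S := by
    by_contra hnot
    apply hmax (insert (Eqn.one i) S) (Set.ssubset_insert hnot)
    refine ⟨fun j => x j * Complex.exp (τ * (f (Pi.single j 1) : ℝ)), ?_⟩
    intro e he
    rcases he with rfl | he
    · exact h1
    · exact hsol e he
  exact hi (hfL _ (Lead.one i hmem))

end Pool.Agent.SumProd339
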