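import Pool.Agent.SumProd339.OneAddFinal

set_option autoImplicit false

/-!
# Maximal systems with one essential addition equation
-/

namespace Pool.Agent.SumProd339

open Finset

lemma hpq_of_maximal {n : ℕ} (S : Set (Eqn n)) (x : Fin n → ℂ) (hx : IsSol S x)
    (hb : Tame S x) (p q r : Fin n) (hp0 : x p ≠ 0) (hq0 : x q ≠ 0) (hr0 : x r ≠ 0)
    (β : ℂ) (hβ0 : β ≠ 0)
    (hno : ∀ z, IsSol S z → z r = 1 * z p + β * z q → z r = 2 * z p → False)
    (hnt : (Pi.single r 1 - Pi.single q 1 : Fin n → ℝ) ∉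
      Submodule.span ℝ (insert (Pi.single p 1 - Pi.single q 1 : Fin n → ℝ) {v | Lead S x v})) :
    (Pi.single p 1 - Pi.single q 1 : Fin n → ℝ) ∈ Submodule.span ℝ {v | Lead S x v} := by
  by_contra hne
  have hnt2 : (Pi.single p 1 - Pi.single q 1 : Fin n → ℝ) ∉
      Submodule.span ℝ (insert (Pi.single r 1 - Pi.single q 1 : Fin n → ℝ) {v | Lead S x v}) :=
    fun h => hnt (mem_span_insert_exchange h hne)
  obtain ⟨f1, hf1, hk1⟩ := Submodule.exists_le_ker_of_notMem hnt
  obtain ⟨f2, hf2, hk2⟩ := Submodule.exists_le_ker_of_notMem hnt2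
  have h1L : ∀ v, Lead S x v → f1 v = 0 := fun v hv =>
    hk1 (Submodule.subset_span (Set.mem_insert_of_mem _ hv))
  have h2L : ∀ v, Lead S x v → f2 v = 0 := fun v hv =>
    hk2 (Submodule.subset_span (Set.mem_insert_of_mem _ hv))
  have h1p : f1 (Pi.single p 1 - Pi.single q 1) = 0 :=
    hk1 (Submodule.subset_span (Set.mem_insert _ _))
  have h2r : f2 (Pi.single r 1 - Pi.single q 1) = 0 :=
    hk2 (Submodule.subset_span (Set.mem_insert _ _))
  set a : ℝ := f1 (Pi.single r 1 - Pi.single q 1) with ha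
  set b : ℝ := f2 (Pi.single p 1 - Pi.single q 1) with hb'
  rw [map_sub] at h1p h2r ha hb'
  have haC : (a : ℂ) ≠ 0 := by exact_mod_cast hf1
  have hbC : (b : ℂ) ≠ 0 := by exact_mod_cast hf2
  have hs0 : β * x q / x p ≠ 0 := div_ne_zero (mul_ne_zero hβ0 hq0) hp0
  have hτ0 : 2 * (β * x q) / x r ≠ 0 :=
    div_ne_zero (mul_ne_zero two_ne_zero (mul_ne_zero hβ0 hq0)) hr0
  obtain ⟨σ, hσ⟩ : ∃ σ : ℂ, Complex.exp σ = β * x q / x p := ⟨_, Complex.exp_log hs0⟩
  obtain ⟨τ, hτ⟩ : ∃ τ : ℂ, Complex.exp τ = 2 * (β * x q) / x r := ⟨_, Complex.exp_log hτ0⟩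
  let w : Fin n → ℂ := fun j =>
    (τ / (a : ℂ)) * ((f1 (Pi.single j 1) : ℝ) : ℂ) + (σ / (b : ℂ)) * ((f2 (Pi.single j 1) : ℝ) : ℂ)
  have hker1 : Submodule.span ℝ {v | Lead S x v} ≤ LinearMap.ker f1 :=
    Submodule.span_le.2 (fun v hv => h1L v hv)
  have hker2 : Submodule.span ℝ {v | Lead S x v} ≤ LinearMap.ker f2 :=
    Submodule.span_le.2 (fun v hv => h2L v hv)
  have hsolS : IsSol S (fun j => x j * Complex.exp (w j)) := by
    apply move S x hx
    · intro i hi
      simp only [w]
      rw [h1L _ (Lead.one i hi), h2L _ (Lead.one i hi)]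
      simp
    · intro i j k h hi hj
      have e1 := h1L _ (Lead.mul i j k h hi hj)
      have e2 := h2L _ (Lead.mul i j k h hi hj)
      rw [map_sub, map_add] at e1 e2
      have e3 : f1 (Pi.single k 1) = f1 (Pi.single i 1) + f1 (Pi.single j 1) := by linarith
      have e4 : f2 (Pi.single k 1) = f2 (Pi.single i 1) + f2 (Pi.single j 1) := by linarith
      simp only [w]
      rw [e3, e4]
      push_cast
      ring
    · intro i j k h p' q' hp hq hp0' hq0'
      have e1 : f1 (Pi.single p' 1 - Pi.single q' 1) = 0 := hker1 (hb i j k h p' q' hp hq hp0' hq0')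
      have e2 : f2 (Pi.single p' 1 - Pi.single q' 1) = 0 := hker2 (hb i j k h p' q' hp hq hp0' hq0')
      rw [map_sub] at e1 e2
      have e3 : f1 (Pi.single p' 1) = f1 (Pi.single q' 1) := by linarith
      have e4 : f2 (Pi.single p' 1) = f2 (Pi.single q' 1) := by linarith
      simp only [w]
      rw [e3, e4]
  have hwp : w p = w q + σ := by
    have e1 : f1 (Pi.single p 1) = f1 (Pi.single q 1) := by linarith
    have e2 : f2 (Pi.single p 1) = f2 (Pi.single q 1) + b := by linarith
    simp only [w]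
    rw [e1, e2]
    push_cast
    field_simp
    ring
  have hwr : w r = w q + τ := by
    have e1 : f1 (Pi.single r 1) = f1 (Pi.single q 1) + a := by linarith
    have e2 : f2 (Pi.single r 1) = f2 (Pi.single q 1) := by linarith
    simp only [w]
    rw [e1, e2]
    push_cast
    field_simp
    ring
  have e3 : Complex.exp (w p) = Complex.exp (w q) * (β * x q / x p) := by
    rw [hwp, Complex.exp_add, hσ]
  have e4 : Complex.exp (w r) = Complex.exp (w q) * (2 * (β * x q) / x r) := by
    rw [hwr, Complex.exp_add, hτ]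
  apply hno _ hsolS
  · show x r * Complex.exp (w r) = 1 * (x p * Complex.exp (w p)) + β * (x q * Complex.exp (w q))
    rw [e3, e4]
    generalize Complex.exp (w q) = c
    field_simp
    ring
  · show x r * Complex.exp (w r) = 2 * (x p * Complex.exp (w p))
    rw [e3, e4]
    generalize Complex.exp (w q) = c
    field_simp

lemma hspan_of_maximal {n : ℕ} (S : Set (Eqn n)) (x : Fin n → ℂ) (hx : IsSol S x)
    (hb : Tame S x) (p q r : Fin n) (β : ℂ) (hrel : x r = 1 * x p + β * x q)
    (hone : ∀ z i, IsSol S z → z r = 1 * z p + β * z q → z i = 1 → Eqn.one i ∈ S)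
    (hpq : (Pi.single p 1 - Pi.single q 1 : Fin n → ℝ) ∈ Submodule.span ℝ {v | Lead S x v}) :
    Submodule.span ℝ
      (insert (Pi.single r 1 - Pi.single q 1 : Fin n → ℝ) {v | Lead S x v}) = ⊤ := by
  by_contra hne
  obtain ⟨f, hf0, hf⟩ := Submodule.exists_le_ker_of_lt_top _ (lt_top_iff_ne_top.2 hne)
  have hfL : ∀ v, Lead S x v → f v = 0 := fun v hv =>
    hf (Submodule.subset_span (Set.mem_insert_of_mem _ hv))
  have hfr : f (Pi.single r 1 - Pi.single q 1) = 0 :=
    hf (Submodule.subset_span (Set.mem_insert _ _))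
  have hker : Submodule.span ℝ {v | Lead S x v} ≤ LinearMap.ker f :=
    Submodule.span_le.2 (fun v hv => hfL v hv)
  have hfp : f (Pi.single p 1 - Pi.single q 1) = 0 := hker hpq
  rw [map_sub] at hfr hfp
  have hex : ∃ i, f (Pi.single i 1) ≠ 0 := by
    by_contra hall
    push Not at hall
    apply hf0
    apply LinearMap.pi_ext'
    intro i
    ext
    simpa using hall i
  obtain ⟨i, hi⟩ := hex
  have hxi : x i ≠ 0 := fun h => hi (hfL _ (Lead.zero i h))
  set τ : ℂ := -Complex.log (x i) / ((f (Pi.single i 1) : ℝ) : ℂ) with hτ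
  have hsol := move_functional S x hx hb f hfL τ
  have hi' : ((f (Pi.single i 1) : ℝ) : ℂ) ≠ 0 := by exact_mod_cast hi
  have h1 : x i * Complex.exp (τ * (f (Pi.single i 1) : ℝ)) = 1 := by
    rw [hτ, div_mul_cancel₀ _ hi', Complex.exp_neg, Complex.exp_log hxi]
    exact mul_inv_cancel₀ hxi
  have hmem : Eqn.one i ∈ S := by
    apply hone (fun j => x j * Complex.exp (τ * (f (Pi.single j 1) : ℝ))) i hsol _ h1
    have e1 : f (Pi.single p 1) = f (Pi.single q 1) := by linarith
    have e2 : f (Pi.single r 1) = f (Pi.single q 1) := by linarith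
    show x r * Complex.exp (τ * (f (Pi.single r 1) : ℝ)) =
      1 * (x p * Complex.exp (τ * (f (Pi.single p 1) : ℝ))) +
        β * (x q * Complex.exp (τ * (f (Pi.single q 1) : ℝ)))
    rw [e1, e2, hrel]
    ring
  exact hi (hfL _ (Lead.one i hmem))

/-- The bound at solutions of maximal systems with one essential addition equation. -/
theorem oneAddition_bound_maximal {n : ℕ} (S : Set (Eqn n)) (x : Fin n → ℂ) (hx : IsSol S x)
    (hmax : ∀ S' : Set (Eqn n), S ⊂ S' → ¬ ∃ z, IsSol S' z) (hone : OneAddition S x)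
    (C : Finset (Fin n)) (hC : ∀ i ∈ C, Eqn.one i ∈ S) (m : Fin n) :
    ‖x m‖ ≤ (2 : ℝ) ^ ((2 : ℝ) ^ ((n : ℝ) - C.card - 1)) := by
  by_cases ht : Tame S x
  · have hspan := span_of_maximal S x hx hmax ht
    exact lead_bound S x hx ∅ (by simp) C (fun i hi => Or.inr (hC i hi)) (by simpa using hspan) m
  obtain ⟨i₀, j₀, k₀, h1⟩ := hone
  -- equations which hold at some solution of `S` belong to `S`
  have hfull : ∀ (z : Fin n → ℂ) (e : Eqn n), IsSol S z → e.Holds z → e ∈ S := by
    intro z e hz he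
    by_contra hnot
    apply hmax (insert e S) (Set.ssubset_insert hnot)
    refine ⟨z, ?_⟩
    intro e' he'
    rcases he' with rfl | he'
    · exact he
    · exact hz e' he'
  -- the exceptional relation holds at `x`
  have hsum : x i₀ + x j₀ = x k₀ := by
    by_contra hne
    apply ht
    apply tame_of_trivial S x hx
    intro i j k h
    rcases h1 i j k h with h2 | ⟨rfl, rfl, rfl⟩ | ⟨rfl, rfl, rfl⟩
    · exact h2
    · exact absurd (hx _ h) hne
    · exfalso
      have h3 : x i + x j = x k := hx _ h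
      exact hne (by rw [← h3]; ring)
  -- the coordinates are nonzero
  have hnz : ∀ a, (a = i₀ ∨ a = j₀ ∨ a = k₀) → x a ≠ 0 := by
    intro a ha ha0
    apply ht
    apply tame_of_trivial S x hx
    intro i j k h
    rcases h1 i j k h with h2 | ⟨rfl, rfl, rfl⟩ | ⟨rfl, rfl, rfl⟩
    · exact h2
    · rcases ha with rfl | rfl | rfl
      · exact Or.inr (Or.inl ha0)
      · exact Or.inr (Or.inr (Or.inl ha0))
      · exact Or.inr (Or.inr (Or.inr ha0))
    · rcases ha with rfl | rfl | rfl
      · exact Or.inr (Or.inr (Or.inl ha0))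
      · exact Or.inr (Or.inl ha0)
      · exact Or.inr (Or.inr (Or.inr ha0))
  -- the trivial part
  set S' : Set (Eqn n) := {e | e ∈ S ∧ ∀ i j k, e = Eqn.add i j k →
    (i = j ∨ x i = 0 ∨ x j = 0 ∨ x k = 0)} with hS'
  have hx' : IsSol S' x := fun e he => hx e he.1
  have hdbl' : ∀ i j k, Eqn.add i j k ∈ S' → i = j ∨ x i = 0 ∨ x j = 0 ∨ x k = 0 :=
    fun i j k h => h.2 i j k rfl
  have hC' : ∀ i ∈ C, Eqn.one i ∈ S' := fun i hi => ⟨hC i hi, fun _ _ _ h => by cases h⟩
  have hLead : ∀ v, Lead S' x v → Lead S x v := by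
    intro v hv
    cases hv with
    | zero i h => exact Lead.zero i h
    | one i h => exact Lead.one i h.1
    | mul i j k h hi hj => exact Lead.mul i j k h.1 hi hj
    | add i j k p q h hp hq hp0 hq0 h1 h2 => exact Lead.add i j k p q h.1 hp hq hp0 hq0 h1 h2
  have hsol : ∀ z : Fin n → ℂ, IsSol S' z → z i₀ + z j₀ = z k₀ → IsSol S z := by
    intro z hz hsum' e he
    cases e with
    | one i => exact hz _ ⟨he, fun _ _ _ h => by cases h⟩
    | mul i j k => exact hz _ ⟨he, fun _ _ _ h => by cases h⟩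
    | add i j k =>
      rcases h1 i j k he with h2 | ⟨rfl, rfl, rfl⟩ | ⟨rfl, rfl, rfl⟩
      · refine hz _ ⟨he, fun i' j' k' h => ?_⟩
        cases h
        exact h2
      · exact hsum'
      · show z i + z j = z k
        rw [← hsum', add_comm]
  have key : ∀ (p q r : Fin n) (β : ℂ), (β = 1 ∨ β = -1) →
      (∀ z : Fin n → ℂ, z r = 1 * z p + β * z q ↔ z i₀ + z j₀ = z k₀) →
      (∀ a, (a = i₀ ∨ a = j₀ ∨ a = k₀) ↔ (a = p ∨ a = q ∨ a = r)) →
      ‖x r‖ ≤ ‖x p‖ → ‖x r‖ ≤ ‖x q‖ →
      |Real.log ‖x m‖| ≤ (2 : ℝ) ^ ((n : ℝ) - C.card - 1) * Real.log 2 := by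
    intro p q r β hβ hrel hperm hrp hrq
    have hp0 : x p ≠ 0 := hnz p ((hperm p).2 (Or.inl rfl))
    have hq0 : x q ≠ 0 := hnz q ((hperm q).2 (Or.inr (Or.inl rfl)))
    have hr0 : x r ≠ 0 := hnz r ((hperm r).2 (Or.inr (Or.inr rfl)))
    have hrx : x r = 1 * x p + β * x q := (hrel x).2 hsum
    have hβ0 : β ≠ 0 := by rcases hβ with rfl | rfl <;> norm_num
    have hnβ : ‖β‖ = 1 := by rcases hβ with rfl | rfl <;> simp
    have hpn : ‖x p‖ ≤ 2 * ‖x q‖ := by
      have e1 : x p = x r - β * x q := by rw [hrx]; ring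
      have e2 : ‖x p‖ ≤ ‖x r‖ + ‖β * x q‖ := by
        calc ‖x p‖ = ‖x r - β * x q‖ := by rw [← e1]
          _ ≤ _ := norm_sub_le _ _
      rw [norm_mul, hnβ] at e2
      linarith
    have hqn : ‖x q‖ ≤ 2 * ‖x p‖ := by
      have e1 : β * x q = x r - x p := by rw [hrx]; ring
      have e2 : ‖β * x q‖ ≤ ‖x r‖ + ‖x p‖ := by rw [e1]; exact norm_sub_le _ _
      rw [norm_mul, hnβ] at e2
      linarith
    have hsub : ∀ z, IsSol S' z → z r = 1 * z p + β * z q → IsSol S z :=
      fun z hz h => hsol z hz ((hrel z).1 h)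
    have hb' := tame_of_trivial S' x hx' hdbl'
    have hnt : (Pi.single r 1 - Pi.single q 1 : Fin n → ℝ) ∉
        Submodule.span ℝ (insert (Pi.single p 1 - Pi.single q 1 : Fin n → ℝ) {v | Lead S' x v}) := by
      intro h
      apply ht
      -- the exceptional equation is in `S`
      have hmem : ∃ i j k, Eqn.add i j k ∈ S ∧ (∀ a, (a = p ∨ a = q ∨ a = r) →
          (a = i ∨ a = j ∨ a = k)) := by
        by_contra hno
        push Not at hno
        apply ht
        apply tame_of_trivial S x hx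
        intro i j k hS
        rcases h1 i j k hS with h2 | ⟨rfl, rfl, rfl⟩ | ⟨rfl, rfl, rfl⟩
        · exact h2
        · exfalso
          obtain ⟨a, ha, hna⟩ := hno i j k hS
          rcases (hperm a).2 ha with h3 | h3 | h3
          · exact hna.1 h3
          · exact hna.2.1 h3
          · exact hna.2.2 h3
        · exfalso
          obtain ⟨a, ha, hna⟩ := hno i j k hS
          rcases (hperm a).2 ha with h3 | h3 | h3
          · exact hna.2.1 h3
          · exact hna.1 h3
          · exact hna.2.2 h3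
      obtain ⟨i', j', k', hS0, hin⟩ := hmem
      have hpqS : (Pi.single p 1 - Pi.single q 1 : Fin n → ℝ) ∈
          Submodule.span ℝ {v | Lead S x v} :=
        Submodule.subset_span (Lead.add i' j' k' p q hS0 (hin p (Or.inl rfl))
          (hin q (Or.inr (Or.inl rfl))) hp0 hq0 hpn hqn)
      have hle : Submodule.span ℝ
          (insert (Pi.single p 1 - Pi.single q 1 : Fin n → ℝ) {v | Lead S' x v}) ≤
          Submodule.span ℝ {v | Lead S x v} :=
        Submodule.span_le.2 (Set.insert_subset hpqS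
          (fun v hv => Submodule.subset_span (hLead v hv)))
      have hrqS := hle h
      have hall : ∀ a, (a = p ∨ a = q ∨ a = r) → (Pi.single a 1 - Pi.single q 1 : Fin n → ℝ) ∈
          Submodule.span ℝ {v | Lead S x v} := by
        intro a ha
        rcases ha with rfl | rfl | rfl
        · exact hpqS
        · rw [sub_self]; exact Submodule.zero_mem _
        · exact hrqS
      have hall2 : ∀ a b, (a = i₀ ∨ a = j₀ ∨ a = k₀) → (b = i₀ ∨ b = j₀ ∨ b = k₀) →
          (Pi.single a 1 - Pi.single b 1 : Fin n → ℝ) ∈ Submodule.span ℝ {v | Lead S x v} := by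
        intro a b ha hb
        have e1 : (Pi.single a 1 - Pi.single b 1 : Fin n → ℝ) =
            (Pi.single a 1 - Pi.single q 1) - (Pi.single b 1 - Pi.single q 1) := by abel
        rw [e1]
        exact Submodule.sub_mem _ (hall a ((hperm a).1 ha)) (hall b ((hperm b).1 hb))
      intro i j k hS a b ha hb ha0 hb0
      rcases h1 i j k hS with h2 | ⟨rfl, rfl, rfl⟩ | ⟨rfl, rfl, rfl⟩
      · have hS2 : Eqn.add i j k ∈ S' := by
          refine ⟨hS, fun i' j' k' h => ?_⟩
          cases h
          exact h2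
        have h3 := tame_of_trivial S' x hx' hdbl' i j k hS2 a b ha hb ha0 hb0
        exact Submodule.span_mono (fun v hv => hLead v hv) h3
      · exact hall2 a b ha hb
      · exact hall2 a b (perm3 _ _ _ _ ha) (perm3 _ _ _ _ hb)
    have hpq := hpq_of_maximal S' x hx' hb' p q r hp0 hq0 hr0 β hβ0
      (fun z hz h1' h2' => by
        have hmem := hfull z (Eqn.add p p r) (hsub z hz h1') (by
          show z p + z p = z r
          rw [h2']; ring)
        have h3 : x p + x p = x r := hx _ hmem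
        have h4 : ‖x r‖ = 2 * ‖x p‖ := by
          rw [← h3, ← two_mul, norm_mul]
          simp
        have h5 : 0 < ‖x p‖ := norm_pos_iff.2 hp0
        linarith) hnt
    have hspan := hspan_of_maximal S' x hx' hb' p q r β hrx
      (fun z i hz h1' h2' => by
        have hmem := hfull z (Eqn.one i) (hsub z hz h1') h2'
        exact ⟨hmem, fun _ _ _ h => by cases h⟩) hpq
    have hz : (Pi.single r 1 - Pi.single q 1 : Fin n → ℝ) ∉ Submodule.span ℝ {v | Lead S' x v} :=
      fun h => hnt (Submodule.span_mono (Set.subset_insert _ _) h)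
    exact core3 S' x hx' hdbl' C hC' p q r hp0 hq0 hr0 1 β (Or.inl rfl) hβ hrx hrq hz hpq hspan m
  have hlog : |Real.log ‖x m‖| ≤ (2 : ℝ) ^ ((n : ℝ) - C.card - 1) * Real.log 2 := by
    by_cases c1 : ‖x k₀‖ ≤ ‖x i₀‖ ∧ ‖x k₀‖ ≤ ‖x j₀‖
    · exact key i₀ j₀ k₀ 1 (Or.inl rfl)
        (fun z => by rw [one_mul, one_mul]; exact eq_comm) (fun a => Iff.rfl) c1.1 c1.2
    · by_cases c2 : ‖x i₀‖ ≤ ‖x j₀‖
      · have c3 : ‖x i₀‖ ≤ ‖x k₀‖ := by
          by_contra h
          push Not at h
          exact c1 ⟨h.le, h.le.trans c2⟩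
        exact key k₀ j₀ i₀ (-1) (Or.inr rfl)
          (fun z => by
            constructor
            · intro h; rw [h]; ring
            · intro h; rw [← h]; ring)
          (fun a => perm1 a i₀ j₀ k₀) c3 c2
      · push Not at c2
        have c3 : ‖x j₀‖ ≤ ‖x k₀‖ := by
          by_contra h
          push Not at h
          exact c1 ⟨h.le.trans c2.le, h.le⟩
        exact key k₀ i₀ j₀ (-1) (Or.inr rfl)
          (fun z => by
            constructor
            · intro h; rw [h]; ring
            · intro h; rw [← h]; ring)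
          (fun a => perm2 a i₀ j₀ k₀) c3 c2.le
  rcases eq_or_lt_of_le (norm_nonneg (x m)) with h0 | h0
  · rw [← h0]
    positivity
  · have h2 := le_trans (le_abs_self _) hlog
    rw [← Real.log_rpow (by norm_num : (0 : ℝ) < 2)] at h2
    exact (Real.log_le_log_iff h0 (by positivity)).1 h2

end Pool.Agent.SumProd339
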