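import Pool.Agent.SumProd339.Isolated

set_option autoImplicit false

/-!
# A refined Cramer bound, and radicals of powers of two near one
-/

namespace Pool.Agent.SumProd339

open Matrix Finset

/-- The Cramer bound with the determinant kept. -/
lemma cramer_bound' {m : ℕ} (A : Matrix (Fin m) (Fin m) ℤ) (t : Fin m → ℝ)
    (B D : Finset (Fin m)) (hBD : Disjoint B D) (κ : Fin m → ℝ)
    (h1 : ∀ r, r ∉ B → DRow (A r)) (h2 : ∀ r ∈ B, ∃ u w, DRow u ∧ DRow w ∧ A r = u + w)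
    (h3 : ∀ r, r ∉ D → ∑ x, (A r x : ℝ) * t x = 0)
    (h4 : ∀ r ∈ D, |∑ x, (A r x : ℝ) * t x| ≤ κ r) (i : Fin m) :
    |(A.det : ℝ)| * |t i| ≤ 2 ^ B.card * ∑ r ∈ D, κ r := by
  classical
  set R : Matrix (Fin m) (Fin m) ℝ := A.map (Int.cast : ℤ → ℝ) with hR
  have hdet : R.det = (A.det : ℝ) := by
    rw [hR]
    exact (Int.cast_det A).symm
  have hmul : R.adjugate *ᵥ (R *ᵥ t) = R.det • t := by
    rw [Matrix.mulVec_mulVec, Matrix.adjugate_mul, Matrix.smul_mulVec, Matrix.one_mulVec]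
  have hadj : ∀ r ∈ D, |R.adjugate i r| ≤ 2 ^ B.card := by
    intro r hr
    have e1 : R.adjugate i r = ((A.adjugate i r : ℤ) : ℝ) := by
      rw [hR]
      have := (Int.castRingHom ℝ).map_adjugate A
      have h := congrFun (congrFun this i) r
      simpa using h.symm
    rw [e1, Matrix.adjugate_apply, ← Int.cast_abs]
    have : |(A.updateRow r (Pi.single i 1)).det| ≤ 2 ^ B.card := by
      apply det_P B
      · intro s hs
        by_cases hsr : s = r
        · subst hsr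
          rw [Matrix.updateRow_self]
          exact DRow.single i
        · rw [Matrix.updateRow_ne hsr]
          exact h1 s hs
      · intro s hs
        have hsr : s ≠ r := by
          rintro rfl
          exact (Finset.disjoint_left.1 hBD hs) hr
        rw [Matrix.updateRow_ne hsr]
        exact h2 s hs
    calc ((|(A.updateRow r (Pi.single i 1)).det| : ℤ) : ℝ) ≤ ((2 ^ B.card : ℤ) : ℝ) := by
          exact_mod_cast this
      _ = 2 ^ B.card := by push_cast; ring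
  have hsum : R.det * t i = ∑ r ∈ D, R.adjugate i r * (R *ᵥ t) r := by
    have h := congrFun hmul i
    simp only [Pi.smul_apply, smul_eq_mul] at h
    rw [← h]
    simp only [Matrix.mulVec, dotProduct]
    symm
    apply Finset.sum_subset (Finset.subset_univ D)
    intro r _ hr
    have := h3 r hr
    have e : ∑ x, R r x * t x = 0 := by
      rw [← this]
      rfl
    rw [e, mul_zero]
  rw [← hdet]
  calc |R.det| * |t i| = |∑ r ∈ D, R.adjugate i r * (R *ᵥ t) r| := by rw [← abs_mul, hsum]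
    _ ≤ ∑ r ∈ D, |R.adjugate i r * (R *ᵥ t) r| := Finset.abs_sum_le_sum_abs _ _
    _ ≤ ∑ r ∈ D, 2 ^ B.card * κ r := by
        apply Finset.sum_le_sum
        intro r hr
        rw [abs_mul]
        apply mul_le_mul (hadj r hr) _ (abs_nonneg _) (by positivity)
        have := h4 r hr
        exact this
    _ = 2 ^ B.card * ∑ r ∈ D, κ r := by rw [Finset.mul_sum]

/-- A positive real whose `N`-th power is a power of two different from one is at distance at least
`1/(2N)` from one. -/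
lemma real_near_one (a : ℝ) (ha : 0 < a) (N : ℕ) (hN : 1 ≤ N) (M : ℤ) (h : a ^ N = (2 : ℝ) ^ M)
    (hM : a ≠ 1) : 1 / (2 * (N : ℝ)) ≤ |1 - a| := by
  have hN' : (0 : ℝ) < N := by exact_mod_cast hN
  by_contra hcon
  rw [not_le, abs_lt] at hcon
  obtain ⟨hlo, hhi⟩ := hcon
  rcases lt_trichotomy M 0 with hneg | hzero | hpos
  · -- `a ^ N ≤ 1/2`
    have h1 : a ^ N ≤ 1 / 2 := by
      rw [h]
      have : M ≤ -1 := by omega
      calc (2 : ℝ) ^ M ≤ (2 : ℝ) ^ (-1 : ℤ) := zpow_le_zpow_right₀ (by norm_num) this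
        _ = 1 / 2 := by norm_num
    have h2 : 1 - 1 / (2 * (N : ℝ)) < a := by linarith
    have h3 : (1 : ℝ) + (N : ℝ) * (-(1 / (2 * (N : ℝ)))) ≤ (1 + -(1 / (2 * (N : ℝ)))) ^ N := by
      apply one_add_mul_le_pow
      have : 1 / (2 * (N : ℝ)) ≤ 1 := by
        rw [div_le_one (by positivity)]
        have : (1 : ℝ) ≤ N := by exact_mod_cast hN
        linarith
      linarith
    have h4 : (1 : ℝ) + (N : ℝ) * (-(1 / (2 * (N : ℝ)))) = 1 / 2 := by
      field_simp
      ring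
    have h0 : (0 : ℝ) ≤ 1 + -(1 / (2 * (N : ℝ))) := by
      have : 1 / (2 * (N : ℝ)) ≤ 1 := by
        rw [div_le_one (by positivity)]
        have : (1 : ℝ) ≤ N := by exact_mod_cast hN
        linarith
      linarith
    have h5 : (1 + -(1 / (2 * (N : ℝ)))) ^ N < a ^ N :=
      pow_lt_pow_left₀ (by linarith) h0 (by omega)
    rw [h4] at h3
    linarith
  · rw [hzero, zpow_zero] at h
    exact hM ((pow_eq_one_iff_of_nonneg ha.le (by omega)).1 h)
  · have h1 : 2 ≤ a ^ N := by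
      rw [h]
      calc (2 : ℝ) = (2 : ℝ) ^ (1 : ℤ) := by norm_num
        _ ≤ (2 : ℝ) ^ M := zpow_le_zpow_right₀ (by norm_num) (by omega)
    have h2 : a ≤ 1 + 1 / (2 * (N : ℝ)) := by linarith
    have h3 : a ≤ Real.exp (1 / (2 * (N : ℝ))) := by
      refine le_trans h2 ?_
      have := Real.add_one_le_exp (1 / (2 * (N : ℝ)))
      linarith
    have h4 : a ^ N ≤ Real.exp (1 / 2) := by
      calc a ^ N ≤ (Real.exp (1 / (2 * (N : ℝ)))) ^ N := pow_le_pow_left₀ ha.le h3 N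
        _ = Real.exp (1 / 2) := by
          rw [← Real.exp_nat_mul]
          congr 1
          field_simp
    have h5 : Real.exp (1 / 2) < 2 := by
      have h6 : Real.exp (1 / 2) * Real.exp (1 / 2) = Real.exp 1 := by
        rw [← Real.exp_add]
        norm_num
      have h7 := Real.exp_one_lt_d9
      have h8 := Real.exp_pos (1 / 2)
      nlinarith
    linarith

/-- A root of unity different from one. -/
lemma root_near_one (σ : ℂ) (K : ℕ) (hK : 1 ≤ K) (h : σ ^ K = 1) (h1 : σ ≠ 1) :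
    1 / (K : ℝ) ≤ ‖1 - σ‖ := by
  have hK' : (0 : ℝ) < K := by exact_mod_cast hK
  have hnorm : ‖σ‖ = 1 := by
    have h2 : ‖σ‖ ^ K = 1 := by rw [← norm_pow, h, norm_one]
    exact (pow_eq_one_iff_of_nonneg (norm_nonneg _) (by omega)).1 h2
  have hgeom : ∑ j ∈ Finset.range K, σ ^ j = 0 := by
    have h2 := geom_sum_mul σ K
    rw [h, sub_self] at h2
    rcases mul_eq_zero.1 h2 with h3 | h3
    · exact h3
    · exact absurd (sub_eq_zero.1 h3) h1
  have hstep : ∀ j : ℕ, ‖1 - σ ^ j‖ ≤ j * ‖1 - σ‖ := by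
    intro j
    induction j with
    | zero => simp
    | succ j ih =>
      have e : 1 - σ ^ (j + 1) = (1 - σ ^ j) + σ ^ j * (1 - σ) := by ring
      rw [e]
      calc ‖(1 - σ ^ j) + σ ^ j * (1 - σ)‖ ≤ ‖1 - σ ^ j‖ + ‖σ ^ j * (1 - σ)‖ := norm_add_le _ _
        _ ≤ j * ‖1 - σ‖ + ‖1 - σ‖ := by
          apply add_le_add ih
          rw [norm_mul, norm_pow, hnorm, one_pow, one_mul]
        _ = ((j + 1 : ℕ) : ℝ) * ‖1 - σ‖ := by push_cast; ring
  have hsum : (K : ℝ) ≤ ∑ j ∈ Finset.range K, (j : ℝ) * ‖1 - σ‖ := by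
    have e : (K : ℂ) = ∑ j ∈ Finset.range K, (1 - σ ^ j) := by
      rw [Finset.sum_sub_distrib, hgeom]
      simp
    have e2 : (K : ℝ) = ‖(K : ℂ)‖ := by simp
    rw [e2, e]
    refine le_trans (norm_sum_le _ _) ?_
    exact Finset.sum_le_sum fun j _ => hstep j
  have hle : ∑ j ∈ Finset.range K, (j : ℝ) * ‖1 - σ‖ ≤ K * (K * ‖1 - σ‖) := by
    calc ∑ j ∈ Finset.range K, (j : ℝ) * ‖1 - σ‖ ≤ ∑ _j ∈ Finset.range K, (K : ℝ) * ‖1 - σ‖ := by
          apply Finset.sum_le_sum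
          intro j hj
          apply mul_le_mul_of_nonneg_right _ (norm_nonneg _)
          exact_mod_cast (Finset.mem_range.1 hj).le
      _ = K * (K * ‖1 - σ‖) := by
          rw [Finset.sum_const, Finset.card_range, nsmul_eq_mul]
  have h3 : (K : ℝ) * 1 ≤ K * (K * ‖1 - σ‖) := by linarith
  have h4 := le_of_mul_le_mul_left h3 hK'
  rw [div_le_iff₀ hK']
  linarith

/-- If `ρ^N` is a power of two, `ε = ±1` and `1 + ε ρ ≠ 0`, then `|1 + ε ρ| ≥ 1/(2N)`. -/
lemma radical_near_one (ρ ε : ℂ) (hε : ε = 1 ∨ ε = -1) (N : ℕ) (hN : 1 ≤ N) (M : ℤ)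
    (h : ρ ^ N = (2 : ℂ) ^ M) (h1 : 1 + ε * ρ ≠ 0) : 1 / (2 * (N : ℝ)) ≤ ‖1 + ε * ρ‖ := by
  have hnε : ‖ε‖ = 1 := by rcases hε with rfl | rfl <;> simp
  have hnorm : ‖ρ‖ ^ N = (2 : ℝ) ^ M := by
    rw [← norm_pow, h, norm_zpow]
    simp
  have hρ0 : 0 < ‖ρ‖ := by
    rcases eq_or_lt_of_le (norm_nonneg ρ) with h0 | h0
    · rw [← h0, zero_pow (by omega)] at hnorm
      have : (0 : ℝ) < (2 : ℝ) ^ M := zpow_pos (by norm_num) _
      linarith
    · exact h0
  by_cases hone : ‖ρ‖ = 1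
  · -- root of unity
    have hM : (2 : ℂ) ^ M = 1 := by
      have h2 : (2 : ℝ) ^ M = 1 := by rw [← hnorm, hone, one_pow]
      have h3 : (((2 : ℝ) ^ M : ℝ) : ℂ) = 1 := by rw [h2]; simp
      push_cast at h3
      exact h3
    have hε2 : ε ^ 2 = 1 := by rcases hε with rfl | rfl <;> norm_num
    have hroot : (-(ε * ρ)) ^ (2 * N) = 1 := by
      have e1 : (-(ε * ρ)) ^ (2 * N) = (ε ^ 2) ^ N * (ρ ^ N) ^ 2 := by
        rw [pow_mul, neg_sq, mul_pow, mul_pow, ← pow_mul ρ 2 N, ← pow_mul ρ N 2, mul_comm 2 N]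
      rw [e1, hε2, h, hM]
      simp
    have hne : -(ε * ρ) ≠ 1 := by
      intro h2
      apply h1
      rw [← h2]
      ring
    have h3 := root_near_one (-(ε * ρ)) (2 * N) (by omega) hroot hne
    have e2 : 1 - -(ε * ρ) = 1 + ε * ρ := by ring
    rw [e2] at h3
    push_cast at h3
    exact h3
  · have h2 := real_near_one ‖ρ‖ hρ0 N hN M hnorm hone
    refine le_trans h2 ?_
    have h3 : |‖(1 : ℂ)‖ - ‖-(ε * ρ)‖| ≤ ‖(1 : ℂ) - -(ε * ρ)‖ := abs_norm_sub_norm_le _ _
    rw [norm_one, norm_neg, norm_mul, hnε, one_mul, sub_neg_eq_add] at h3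
    exact h3

end Pool.Agent.SumProd339
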