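import Pool.Agent.SumProd339.NearOne

set_option autoImplicit false

/-!
# Systems with one essential addition equation: the unbalanced case
-/

namespace Pool.Agent.SumProd339

open Matrix Finset

/-- The unit `2` of `ℂ`, written additively. -/
noncomputable def twoU : Additive ℂˣ := Additive.ofMul (Units.mk0 (2 : ℂ) two_ne_zero)

/-- The point with zero coordinates replaced by `1`. -/
noncomputable def fill {n : ℕ} (x : Fin n → ℂ) (m : Fin n) : ℂ := by
  classical
  exact if x m = 0 then 1 else x m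

lemma fill_ne {n : ℕ} (x : Fin n → ℂ) (m : Fin n) : fill x m ≠ 0 := by
  unfold fill
  split_ifs with h
  · exact one_ne_zero
  · exact h

lemma fill_of_ne {n : ℕ} (x : Fin n → ℂ) (m : Fin n) (h : x m ≠ 0) : fill x m = x m := by
  unfold fill
  rw [if_neg h]

lemma fill_of_eq {n : ℕ} (x : Fin n → ℂ) (m : Fin n) (h : x m = 0) : fill x m = 1 := by
  unfold fill
  rw [if_pos h]

/-- The coordinates as additive units. -/
noncomputable def gU {n : ℕ} (x : Fin n → ℂ) (m : Fin n) : Additive ℂˣ :=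
  Additive.ofMul (Units.mk0 (fill x m) (fill_ne x m))

/-- The character of integer vectors. -/
noncomputable def chi {n : ℕ} (x : Fin n → ℂ) (a : Fin n → ℤ) : Additive ℂˣ :=
  ∑ m, a m • gU x m

lemma chi_add {n : ℕ} (x : Fin n → ℂ) (a b : Fin n → ℤ) : chi x (a + b) = chi x a + chi x b := by
  unfold chi
  rw [← Finset.sum_add_distrib]
  exact Finset.sum_congr rfl fun m _ => by rw [Pi.add_apply, add_zsmul]

lemma chi_sub {n : ℕ} (x : Fin n → ℂ) (a b : Fin n → ℤ) : chi x (a - b) = chi x a - chi x b := by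
  unfold chi
  rw [← Finset.sum_sub_distrib]
  exact Finset.sum_congr rfl fun m _ => by rw [Pi.sub_apply, sub_zsmul, sub_eq_add_neg]

lemma chi_single {n : ℕ} (x : Fin n → ℂ) (i : Fin n) : chi x (Pi.single i 1) = gU x i := by
  unfold chi
  rw [Finset.sum_eq_single i]
  · simp
  · intro b _ hb
    rw [Pi.single_eq_of_ne hb, zero_zsmul]
  · intro h
    exact absurd (Finset.mem_univ i) h

lemma chi_smul {n : ℕ} (x : Fin n → ℂ) (c : ℤ) (a : Fin n → ℤ) :
    chi x (c • a) = c • chi x a := by
  unfold chi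
  rw [← Finset.sum_zsmul]
  exact Finset.sum_congr rfl fun m _ => by rw [Pi.smul_apply, smul_eq_mul, mul_zsmul]

lemma chi_sum {n : ℕ} (x : Fin n → ℂ) (s : Finset (Fin n)) (a : Fin n → (Fin n → ℤ)) :
    chi x (∑ r ∈ s, a r) = ∑ r ∈ s, chi x (a r) := by
  classical
  induction s using Finset.induction_on with
  | empty => simp [chi]
  | insert r s hr ih => rw [Finset.sum_insert hr, Finset.sum_insert hr, chi_add, ih]

lemma gU_eq_iff {n : ℕ} (x : Fin n → ℂ) (p q : Fin n) (k : ℤ) :
    gU x p - gU x q = k • twoU ↔ fill x p / fill x q = (2 : ℂ) ^ k := by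
  unfold gU twoU
  rw [← ofMul_div, ← ofMul_zpow]
  constructor
  · intro h
    have h1 := Additive.ofMul.injective h
    have h2 := congrArg Units.val h1
    simpa using h2
  · intro h
    congr 1
    ext
    simpa using h

/-- The elements `g` such that `g` or `-g` is a power of two, written additively. -/
noncomputable def HH : AddSubgroup (Additive ℂˣ) where
  carrier := {g | ∃ k : ℤ, (2 : ℤ) • g = (2 * k) • twoU}
  add_mem' := by
    rintro a b ⟨k, hk⟩ ⟨l, hl⟩
    exact ⟨k + l, by rw [zsmul_add, hk, hl, mul_add, add_zsmul]⟩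
  zero_mem' := ⟨0, by rw [zsmul_zero, mul_zero, zero_zsmul]⟩
  neg_mem' := by
    rintro a ⟨k, hk⟩
    exact ⟨-k, by rw [zsmul_neg, hk, mul_neg, neg_zsmul]⟩

lemma mem_HH_of_ratio {n : ℕ} (x : Fin n → ℂ) (p q : Fin n) (hp : x p ≠ 0) (hq : x q ≠ 0)
    (k : ℤ) (h : (x p / x q) ^ (2 : ℤ) = (2 : ℂ) ^ (2 * k)) : gU x p - gU x q ∈ HH := by
  refine ⟨k, ?_⟩
  unfold gU twoU
  rw [← ofMul_div, ← ofMul_zpow, ← ofMul_zpow]
  congr 1
  ext
  rw [Units.val_zpow_eq_zpow_val, Units.val_zpow_eq_zpow_val, Units.val_div_eq_div_val,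
    Units.val_mk0, Units.val_mk0, Units.val_mk0, fill_of_ne x p hp, fill_of_ne x q hq]
  exact h

lemma pow_of_mem_HH {n : ℕ} (x : Fin n → ℂ) (p q : Fin n) (hp : x p ≠ 0) (hq : x q ≠ 0)
    (D : ℤ) (h : D • (gU x p - gU x q) ∈ HH) :
    ∃ k : ℤ, (x p / x q) ^ D = (2 : ℂ) ^ k ∨ (x p / x q) ^ D = -(2 : ℂ) ^ k := by
  obtain ⟨k, hk⟩ := h
  refine ⟨k, ?_⟩
  unfold gU twoU at hk
  rw [← ofMul_div, ← ofMul_zpow, ← ofMul_zpow, ← ofMul_zpow] at hk
  have h2 := congrArg Units.val (Additive.ofMul.injective hk)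
  rw [Units.val_zpow_eq_zpow_val, Units.val_zpow_eq_zpow_val, Units.val_zpow_eq_zpow_val,
    Units.val_div_eq_div_val,
    Units.val_mk0, Units.val_mk0, Units.val_mk0, fill_of_ne x p hp, fill_of_ne x q hq] at h2
  have h3 : ((x p / x q) ^ D) ^ 2 = ((2 : ℂ) ^ k) ^ 2 := by
    have e1 : ((x p / x q) ^ D) ^ 2 = ((x p / x q) ^ D) ^ (2 : ℤ) := by norm_cast
    have e2 : ((2 : ℂ) ^ k) ^ 2 = (2 : ℂ) ^ (2 * k) := by
      rw [mul_comm, _root_.zpow_mul]
      norm_cast
    rw [e1, e2]
    exact h2
  exact sq_eq_sq_iff_eq_or_eq_neg.1 h3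

/-- The ratio of two nonzero coordinates in a doubling or in an addition with a zero coordinate. -/
lemma ratio_pow {n : ℕ} (x : Fin n → ℂ) (i j k : Fin n) (h : x i + x j = x k)
    (ht : i = j ∨ x i = 0 ∨ x j = 0 ∨ x k = 0) (p q : Fin n) (hp : p = i ∨ p = j ∨ p = k)
    (hq : q = i ∨ q = j ∨ q = k) (hp0 : x p ≠ 0) (hq0 : x q ≠ 0) :
    ∃ e : ℤ, (x p / x q) ^ (2 : ℤ) = (2 : ℂ) ^ (2 * e) := by
  have key : ∃ b : ℂ, b ≠ 0 ∧ ∀ c, (c = i ∨ c = j ∨ c = k) → x c ≠ 0 →
      ∃ e : ℤ, x c = (2 : ℂ) ^ e * b ∨ x c = -((2 : ℂ) ^ e * b) := by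
    rcases ht with h1 | h1 | h1 | h1
    · subst h1
      refine ⟨x q, hq0, fun c hc hc0 => ?_⟩
      have hk : x k = 2 * x i := by rw [← h]; ring
      rcases hc with rfl | rfl | rfl <;> rcases hq with rfl | rfl | rfl
      · exact ⟨0, Or.inl (by simp)⟩
      · exact ⟨0, Or.inl (by simp)⟩
      · exact ⟨-1, Or.inl (by rw [hk]; norm_num; ring)⟩
      · exact ⟨0, Or.inl (by simp)⟩
      · exact ⟨0, Or.inl (by simp)⟩
      · exact ⟨-1, Or.inl (by rw [hk]; norm_num; ring)⟩
      · exact ⟨1, Or.inl (by rw [hk]; norm_num)⟩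
      · exact ⟨1, Or.inl (by rw [hk]; norm_num)⟩
      · exact ⟨0, Or.inl (by simp)⟩
    · have hjk : x j = x k := by rw [← h, h1, zero_add]
      refine ⟨x q, hq0, fun c hc hc0 => ⟨0, Or.inl ?_⟩⟩
      rcases hc with rfl | rfl | rfl <;> rcases hq with rfl | rfl | rfl <;>
        simp_all
    · have hjk : x i = x k := by rw [← h, h1, add_zero]
      refine ⟨x q, hq0, fun c hc hc0 => ⟨0, Or.inl ?_⟩⟩
      rcases hc with rfl | rfl | rfl <;> rcases hq with rfl | rfl | rfl <;>
        simp_all
    · have hij : x i = - x j := by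
        rw [h1] at h
        exact eq_neg_of_add_eq_zero_left h
      refine ⟨x j, ?_, fun c hc hc0 => ⟨0, ?_⟩⟩
      · intro h0
        rw [h0, neg_zero] at hij
        rcases hq with rfl | rfl | rfl
        · exact hq0 hij
        · exact hq0 h0
        · exact hq0 h1
      · rcases hc with rfl | rfl | rfl
        · right; simp [hij]
        · left; simp
        · exact absurd h1 hc0
  obtain ⟨b, hb, hc⟩ := key
  obtain ⟨e, he⟩ := hc p hp hp0
  obtain ⟨f, hf⟩ := hc q hq hq0
  refine ⟨e - f, ?_⟩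
  have h2 : (2 : ℂ) ^ f ≠ 0 := zpow_ne_zero _ two_ne_zero
  have e1 : (x p) ^ 2 = ((2 : ℂ) ^ e * b) ^ 2 := by
    rcases he with he | he <;> rw [he] <;> ring
  have e2 : (x q) ^ 2 = ((2 : ℂ) ^ f * b) ^ 2 := by
    rcases hf with hf | hf <;> rw [hf] <;> ring
  have e3 : (x p / x q) ^ (2 : ℤ) = (x p) ^ 2 / (x q) ^ 2 := by
    rw [← div_pow]
    norm_cast
  have e4 : (2 : ℂ) ^ (2 * (e - f)) = ((2 : ℂ) ^ e / (2 : ℂ) ^ f) ^ 2 := by
    rw [← zpow_sub₀ two_ne_zero, mul_comm, _root_.zpow_mul]
    norm_cast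
  rw [e3, e4, e1, e2]
  field_simp

/-- If `ρ^N` is plus or minus a power of two, `ε = ±1` and `1 + ε ρ ≠ 0`, then
`|1 + ε ρ| ≥ 1/(2N)`. -/
lemma radical_near_one' (ρ ε : ℂ) (hε : ε = 1 ∨ ε = -1) (N : ℕ) (hN : 1 ≤ N) (M : ℤ)
    (h : ρ ^ N = (2 : ℂ) ^ M ∨ ρ ^ N = -(2 : ℂ) ^ M) (h1 : 1 + ε * ρ ≠ 0) :
    1 / (2 * (N : ℝ)) ≤ ‖1 + ε * ρ‖ := by
  have hnε : ‖ε‖ = 1 := by rcases hε with rfl | rfl <;> simp
  have hsq : (ρ ^ N) ^ 2 = ((2 : ℂ) ^ M) ^ 2 := by
    rcases h with h | h <;> rw [h] <;> ring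
  have hnorm : ‖ρ‖ ^ N = (2 : ℝ) ^ M := by
    rw [← norm_pow]
    rcases h with h | h <;> rw [h] <;> simp
  have hρ0 : 0 < ‖ρ‖ := by
    rcases eq_or_lt_of_le (norm_nonneg ρ) with h0 | h0
    · rw [← h0, zero_pow (by omega)] at hnorm
      have : (0 : ℝ) < (2 : ℝ) ^ M := zpow_pos (by norm_num) _
      linarith
    · exact h0
  by_cases hone : ‖ρ‖ = 1
  · -- root of unity
    have hM : (2 : ℂ) ^ M = 1 := by
      have h2 : (2 : ℝ) ^ M = 1 := by rw [← hnorm, hone, one_pow]
      have h3 : (((2 : ℝ) ^ M : ℝ) : ℂ) = 1 := by rw [h2]; simp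
      push_cast at h3
      exact h3
    have hε2 : ε ^ 2 = 1 := by rcases hε with rfl | rfl <;> norm_num
    have hroot : (-(ε * ρ)) ^ (2 * N) = 1 := by
      have e1 : (-(ε * ρ)) ^ (2 * N) = (ε ^ 2) ^ N * (ρ ^ N) ^ 2 := by
        rw [pow_mul, neg_sq, mul_pow, mul_pow, ← pow_mul ρ 2 N, ← pow_mul ρ N 2, mul_comm 2 N]
      rw [e1, hε2, hsq, hM]
      simp
    have hne : -(ε * ρ) ≠ 1 := by
      intro h2
      apply h1
      rw [← h2]
      ring
    have h3 := root_near_one (-(ε * ρ)) (2 * N) (by omega) hroot hne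
    have e2 : 1 - -(ε * ρ) = 1 + ε * ρ := by ring
    rw [e2] at h3
    push_cast at h3
    exact h3
  · have h2 := real_near_one ‖ρ‖ hρ0 N hN M hnorm hone
    refine le_trans h2 ?_
    have h3 : |‖(1 : ℂ)‖ - ‖-(ε * ρ)‖| ≤ ‖(1 : ℂ) - -(ε * ρ)‖ := abs_norm_sub_norm_le _ _
    rw [norm_one, norm_neg, norm_mul, hnε, one_mul, sub_neg_eq_add] at h3
    exact h3

/-- The data of a leading vector. -/
lemma row_data {n : ℕ} (S : Set (Eqn n)) (x : Fin n → ℂ) (hx : IsSol S x)
    (hdbl : ∀ i j k, Eqn.add i j k ∈ S → i = j ∨ x i = 0 ∨ x j = 0 ∨ x k = 0)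
    (v : Fin n → ℝ) (hv : Lead S x v) :
    ∃ a : Fin n → ℤ, (∀ y, (a y : ℝ) = v y) ∧ chi x a ∈ HH ∧
      ((∃ i, v = Pi.single i 1 ∧ a = Pi.single i 1 ∧ Real.log ‖x i‖ = 0) ∨
        (∃ i j k, a = Pi.single i 1 + Pi.single j 1 - Pi.single k 1 ∧
          v = Pi.single i 1 + Pi.single j 1 - Pi.single k 1 ∧
          Real.log ‖x i‖ + Real.log ‖x j‖ = Real.log ‖x k‖) ∨
        (∃ i j, a = Pi.single i 1 - Pi.single j 1 ∧ v = Pi.single i 1 - Pi.single j 1 ∧
          |Real.log ‖x i‖ - Real.log ‖x j‖| ≤ Real.log 2)) := by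
  cases hv with
  | zero i h =>
    refine ⟨Pi.single i 1, fun y => ?_, ?_, Or.inl ⟨i, rfl, rfl, by simp [h]⟩⟩
    · simp only [Pi.single_apply]
      push_cast
      rfl
    · rw [chi_single]
      unfold gU
      have : Units.mk0 (fill x i) (fill_ne x i) = 1 := by
        ext
        simp [fill_of_eq x i h]
      rw [this]
      exact HH.zero_mem
  | one i h =>
    have h1 : x i = 1 := hx _ h
    refine ⟨Pi.single i 1, fun y => ?_, ?_, Or.inl ⟨i, rfl, rfl, by simp [h1]⟩⟩
    · simp only [Pi.single_apply]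
      push_cast
      rfl
    · rw [chi_single]
      unfold gU
      have : Units.mk0 (fill x i) (fill_ne x i) = 1 := by
        ext
        rw [Units.val_mk0, fill_of_ne x i (by rw [h1]; exact one_ne_zero), h1]
        rfl
      rw [this]
      exact HH.zero_mem
  | mul i j k h hi hj =>
    have h1 : x i * x j = x k := hx _ h
    have hk : x k ≠ 0 := by rw [← h1]; exact mul_ne_zero hi hj
    refine ⟨Pi.single i 1 + Pi.single j 1 - Pi.single k 1, fun y => ?_, ?_,
      Or.inr (Or.inl ⟨i, j, k, rfl, rfl, ?_⟩)⟩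
    · simp only [Pi.add_apply, Pi.sub_apply, Pi.single_apply]
      push_cast
      rfl
    · have h2 : gU x i + gU x j - gU x k = 0 := by
        rw [sub_eq_zero]
        unfold gU
        rw [← ofMul_mul]
        congr 1
        ext
        rw [Units.val_mul, Units.val_mk0, Units.val_mk0, Units.val_mk0, fill_of_ne x i hi,
          fill_of_ne x j hj, fill_of_ne x k hk, h1]
      rw [chi_sub, chi_add, chi_single, chi_single, chi_single, h2]
      exact HH.zero_mem
    · rw [← h1, norm_mul, Real.log_mul (norm_ne_zero_iff.2 hi) (norm_ne_zero_iff.2 hj)]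
  | add i j k p' q' h hp hq hp0' hq0' h1 h2 =>
    have h3 : x i + x j = x k := hx _ h
    refine ⟨Pi.single p' 1 - Pi.single q' 1, fun y => ?_, ?_,
      Or.inr (Or.inr ⟨p', q', rfl, rfl, ?_⟩)⟩
    · simp only [Pi.sub_apply, Pi.single_apply]
      push_cast
      rfl
    · obtain ⟨e, he⟩ := ratio_pow x i j k h3 (hdbl i j k h) p' q' hp hq hp0' hq0'
      rw [chi_sub, chi_single, chi_single]
      exact mem_HH_of_ratio x p' q' hp0' hq0' e he
    · have hp' : 0 < ‖x p'‖ := norm_pos_iff.2 hp0'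
      have hq' : 0 < ‖x q'‖ := norm_pos_iff.2 hq0'
      have e1 := Real.log_le_log hp' h1
      have e2 := Real.log_le_log hq' h2
      rw [Real.log_mul (by norm_num) (ne_of_gt hq')] at e1
      rw [Real.log_mul (by norm_num) (ne_of_gt hp')] at e2
      rw [abs_le]
      constructor <;> linarith

set_option maxHeartbeats 4000000 in
/-- The unbalanced case.  Each addition equation of `S` is a doubling or has a zero coordinate at
`x`; `x` is a solution of
`S` and of one further relation `x_r = α x_p + β x_q` with `α, β = ±1`, nonzero terms and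
`|x_r| ≤ |x_q|`. -/
lemma core3 {n : ℕ} (S : Set (Eqn n)) (x : Fin n → ℂ) (hx : IsSol S x)
    (hdbl : ∀ i j k, Eqn.add i j k ∈ S → i = j ∨ x i = 0 ∨ x j = 0 ∨ x k = 0)
    (C : Finset (Fin n)) (hC : ∀ i ∈ C, Eqn.one i ∈ S)
    (p q r : Fin n) (hp0 : x p ≠ 0) (hq0 : x q ≠ 0) (hr0 : x r ≠ 0)
    (α β : ℂ) (hα : α = 1 ∨ α = -1) (hβ : β = 1 ∨ β = -1) (hrel : x r = α * x p + β * x q)
    (hrq : ‖x r‖ ≤ ‖x q‖)
    (hz : (Pi.single r 1 - Pi.single q 1 : Fin n → ℝ) ∉ Submodule.span ℝ {v | Lead S x v})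
    (hpq : (Pi.single p 1 - Pi.single q 1 : Fin n → ℝ) ∈ Submodule.span ℝ {v | Lead S x v})
    (hspan : Submodule.span ℝ
      (insert (Pi.single r 1 - Pi.single q 1 : Fin n → ℝ) {v | Lead S x v}) = ⊤)
    (m : Fin n) : |Real.log ‖x m‖| ≤ (2 : ℝ) ^ ((n : ℝ) - C.card - 1) * Real.log 2 := by
  classical
  set z : Fin n → ℝ := Pi.single r 1 - Pi.single q 1 with hzdef
  set W : Submodule ℝ (Fin n → ℝ) := Submodule.span ℝ {v | Lead S x v} with hW
  set t : Fin n → ℝ := fun i => Real.log ‖x i‖ with ht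
  have hstd : LinearIndependent ℝ (fun i : Fin n => (Pi.single i 1 : Fin n → ℝ)) := by
    have h := (Pi.basisFun ℝ (Fin n)).linearIndependent
    convert h using 1
    funext i
    simp
  set s : Set (Fin n → ℝ) := (fun i : Fin n => (Pi.single i 1 : Fin n → ℝ)) '' (C : Set (Fin n))
    with hs
  have hsW : s ⊆ {v | Lead S x v} := by
    rintro _ ⟨i, hi, rfl⟩
    exact Lead.one i (hC i hi)
  have hsli : LinearIndepOn ℝ id s :=
    (hstd.linearIndepOn_id).mono (Set.image_subset_range _ _)
  have hzs : z ∉ Submodule.span ℝ s := fun h => hz (Submodule.span_mono hsW h)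
  have hsli' : LinearIndepOn ℝ id (insert z s) := hsli.id_insert hzs
  obtain ⟨b, hbL, hsb, hLb, hbli⟩ := exists_linearIndepOn_id_extension hsli'
    (Set.insert_subset_insert hsW : insert z s ⊆ insert z {v | Lead S x v})
  have hbspan : Submodule.span ℝ b = ⊤ := by
    rw [eq_top_iff, ← hspan]
    exact Submodule.span_le.2 hLb
  have hbli' : LinearIndependent ℝ (fun x : b => (x : Fin n → ℝ)) := hbli
  let bas : Module.Basis b ℝ (Fin n → ℝ) := Module.Basis.mk hbli' (by
    rw [Subtype.range_coe_subtype]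
    simpa using hbspan.ge)
  have hfin : Finite b := Module.Finite.finite_basis bas
  let _ : Fintype b := Fintype.ofFinite b
  have hcard : Fintype.card b = n := by
    rw [← Module.finrank_eq_card_basis bas, Module.finrank_fin_fun]
  let ev : Fin n ≃ b := (Fintype.equivFinOfCardEq hcard).symm
  set V : Fin n → (Fin n → ℝ) := fun r => (ev r : Fin n → ℝ) with hV
  have hVli : LinearIndependent ℝ V := hbli'.comp ev ev.injective
  have hVinj : Function.Injective V := hVli.injective
  have hVL : ∀ r, V r = z ∨ Lead S x (V r) := fun r => hbL (ev r).2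
  -- the row of `z`
  have hzb : z ∈ b := hsb (Set.mem_insert _ _)
  set rz : Fin n := ev.symm ⟨z, hzb⟩ with hrz
  have hVrz : V rz = z := by
    simp only [hV, hrz, Equiv.apply_symm_apply]
  have hVne : ∀ l, l ≠ rz → Lead S x (V l) := by
    intro l hl
    rcases hVL l with h | h
    · exact absurd (hVinj (h.trans hVrz.symm)) hl
    · exact h
  -- integer rows with their properties
  have hint : ∀ l, ∃ a : Fin n → ℤ, (∀ x, (a x : ℝ) = V l x) ∧
      (l = rz → a = Pi.single r 1 - Pi.single q 1) ∧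
      (l ≠ rz → chi x a ∈ HH) ∧
      (l ≠ rz → (∃ i, V l = Pi.single i 1 ∧ a = Pi.single i 1 ∧ t i = 0) ∨
        (∃ i j k, a = Pi.single i 1 + Pi.single j 1 - Pi.single k 1 ∧
          V l = Pi.single i 1 + Pi.single j 1 - Pi.single k 1 ∧ t i + t j = t k) ∨
        (∃ i j, a = Pi.single i 1 - Pi.single j 1 ∧ V l = Pi.single i 1 - Pi.single j 1 ∧
          |t i - t j| ≤ Real.log 2)) := by
    intro l
    by_cases hl : l = rz
    · refine ⟨Pi.single r 1 - Pi.single q 1, fun y => ?_, fun _ => rfl, fun h => absurd hl h,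
        fun h => absurd hl h⟩
      rw [hl, hVrz, hzdef]
      simp only [Pi.sub_apply, Pi.single_apply]
      push_cast
      rfl
    · obtain ⟨a, ha1, ha2, ha3⟩ := row_data S x hx hdbl (V l) (hVne l hl)
      exact ⟨a, ha1, fun h => absurd h hl, fun _ => ha2, fun _ => ha3⟩
  choose A hA hArz hAchi hAtype using hint
  have hdot : ∀ l, ∑ y, (A l y : ℝ) * t y = ∑ y, V l y * t y := by
    intro l
    exact Finset.sum_congr rfl fun y _ => by rw [hA l y]
  -- the index sets
  set Z : Finset (Fin n) := Finset.univ.filter (fun l => l ≠ rz ∧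
    ∃ i, V l = Pi.single i 1 ∧ A l = Pi.single i 1 ∧ t i = 0) with hZ
  set B : Finset (Fin n) := Finset.univ.filter (fun l => l ≠ rz ∧ l ∉ Z ∧
    ∃ i j k, A l = Pi.single i 1 + Pi.single j 1 - Pi.single k 1 ∧
      V l = Pi.single i 1 + Pi.single j 1 - Pi.single k 1 ∧ t i + t j = t k) with hB
  set D' : Finset (Fin n) := Finset.univ.filter (fun l => l ≠ rz ∧ l ∉ Z ∧ l ∉ B) with hD'
  have hD'row : ∀ l ∈ D', ∃ i j, A l = Pi.single i 1 - Pi.single j 1 ∧
      V l = Pi.single i 1 - Pi.single j 1 ∧ |t i - t j| ≤ Real.log 2 := by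
    intro l hl
    simp only [hD', Finset.mem_filter, Finset.mem_univ, true_and] at hl
    rcases hAtype l hl.1 with h | h | h
    · exact absurd (by
        simp only [hZ, Finset.mem_filter, Finset.mem_univ, true_and]; exact ⟨hl.1, h⟩) hl.2.1
    · exact absurd (by
        simp only [hB, Finset.mem_filter, Finset.mem_univ, true_and]
        exact ⟨hl.1, hl.2.1, h⟩) hl.2.2
    · exact h
  have hcases : ∀ l, l = rz ∨ l ∈ Z ∨ l ∈ B ∨ l ∈ D' := by
    intro l
    by_cases h0 : l = rz
    · exact Or.inl h0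
    · by_cases h1 : l ∈ Z
      · exact Or.inr (Or.inl h1)
      · by_cases h2 : l ∈ B
        · exact Or.inr (Or.inr (Or.inl h2))
        · refine Or.inr (Or.inr (Or.inr ?_))
          simp only [hD', Finset.mem_filter, Finset.mem_univ, true_and]
          exact ⟨h0, h1, h2⟩
  have hrzZ : rz ∉ Z := by
    simp only [hZ, Finset.mem_filter, Finset.mem_univ, true_and]
    exact fun h => h.1 rfl
  have hrzB : rz ∉ B := by
    simp only [hB, Finset.mem_filter, Finset.mem_univ, true_and]
    exact fun h => h.1 rfl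
  have hrzD : rz ∉ D' := by
    simp only [hD', Finset.mem_filter, Finset.mem_univ, true_and]
    exact fun h => h.1 rfl
  have hBZ : Disjoint Z B := by
    rw [Finset.disjoint_left]
    intro l h1 h2
    simp only [hB, Finset.mem_filter, Finset.mem_univ, true_and] at h2
    exact h2.2.1 h1
  have hDZ : Disjoint Z D' := by
    rw [Finset.disjoint_left]
    intro l h1 h2
    simp only [hD', Finset.mem_filter, Finset.mem_univ, true_and] at h2
    exact h2.2.1 h1
  have hBD' : Disjoint B D' := by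
    rw [Finset.disjoint_left]
    intro l h1 h2
    simp only [hD', Finset.mem_filter, Finset.mem_univ, true_and] at h2
    exact h2.2.2 h1
  have hBD : Disjoint B (insert rz D') := by
    rw [Finset.disjoint_insert_right]
    exact ⟨hrzB, hBD'⟩
  -- the determinant
  have hmat : (Matrix.of A).det ≠ 0 := by
    have h1 : LinearIndependent ℝ ((Matrix.of A).map (Int.cast : ℤ → ℝ)).row := by
      convert hVli using 1
      funext l y
      simp only [Matrix.row_apply, Matrix.map_apply, Matrix.of_apply]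
      exact hA l y
    rw [Matrix.linearIndependent_rows_iff_isUnit, Matrix.isUnit_iff_isUnit_det,
      isUnit_iff_ne_zero] at h1
    intro h0
    apply h1
    have := (Int.cast_det (R := ℝ) (Matrix.of A)).symm
    rw [this, h0]
    simp
  set Δ : ℤ := (Matrix.of A).det with hΔ
  set N : ℕ := Δ.natAbs with hN
  have hN1 : 1 ≤ N := Int.natAbs_pos.2 hmat
  have hNR : |(Δ : ℝ)| = (N : ℝ) := by
    rw [hN, Nat.cast_natAbs, Int.cast_abs]
  -- the relation for `x_p / x_q`
  have hkey : Δ • (gU x p - gU x q) ∈ HH := by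
    set u : Fin n → ℤ := Pi.single p 1 - Pi.single q 1 with hu
    set c : Fin n → ℤ := u ᵥ* (Matrix.of A).adjugate with hc
    have h1 : c ᵥ* (Matrix.of A) = Δ • u := by
      rw [hc, Matrix.vecMul_vecMul, Matrix.adjugate_mul, Matrix.vecMul_smul, Matrix.vecMul_one]
    have h2 : Δ • u = ∑ l, c l • A l := by
      rw [← h1]
      funext y
      simp only [Matrix.vecMul, dotProduct, Matrix.of_apply, Finset.sum_apply, Pi.smul_apply,
        smul_eq_mul]
    -- the coefficient of `z` vanishes
    have h3 : c rz = 0 := by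
      by_contra hne
      apply hz
      have h4 : (Δ : ℝ) • (Pi.single p 1 - Pi.single q 1 : Fin n → ℝ) = ∑ l, (c l : ℝ) • V l := by
        funext y
        have h5 := congrFun h2 y
        simp only [Pi.smul_apply, smul_eq_mul, Finset.sum_apply] at h5 ⊢
        have h6 : ((Δ * u y : ℤ) : ℝ) = ((∑ l, c l * A l y : ℤ) : ℝ) := by rw [h5]
        push_cast at h6
        simp only [hA] at h6
        have h7 : (u y : ℝ) = (Pi.single p 1 - Pi.single q 1 : Fin n → ℝ) y := by
          simp only [hu, Pi.sub_apply, Pi.single_apply]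
          push_cast
          rfl
        rw [h7] at h6
        exact h6
      have h5 : ∑ l, (c l : ℝ) • V l = (c rz : ℝ) • z + ∑ l ∈ Finset.univ.erase rz, (c l : ℝ) • V l := by
        rw [← Finset.add_sum_erase _ _ (Finset.mem_univ rz), hVrz]
      have h6 : ∑ l ∈ Finset.univ.erase rz, (c l : ℝ) • V l ∈ W := by
        apply Submodule.sum_mem
        intro l hl
        apply Submodule.smul_mem
        exact Submodule.subset_span (hVne l (Finset.ne_of_mem_erase hl))
      have h7 : (c rz : ℝ) • z ∈ W := by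
        have h8 : (c rz : ℝ) • z = (Δ : ℝ) • (Pi.single p 1 - Pi.single q 1 : Fin n → ℝ) -
            ∑ l ∈ Finset.univ.erase rz, (c l : ℝ) • V l := by
          rw [h4, h5]
          abel
        rw [h8]
        exact Submodule.sub_mem _ (Submodule.smul_mem _ _ hpq) h6
      have hcne : (c rz : ℝ) ≠ 0 := by exact_mod_cast hne
      have h9 := Submodule.smul_mem W (c rz : ℝ)⁻¹ h7
      rw [smul_smul, inv_mul_cancel₀ hcne, one_smul] at h9
      exact h9
    have h4 : Δ • (gU x p - gU x q) = ∑ l, c l • chi x (A l) := by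
      have h5 : gU x p - gU x q = chi x u := by
        rw [hu, chi_sub, chi_single, chi_single]
      rw [h5, ← chi_smul, h2, chi_sum]
      exact Finset.sum_congr rfl fun l _ => chi_smul x (c l) (A l)
    rw [h4]
    apply AddSubgroup.sum_mem
    intro l _
    by_cases hl : l = rz
    · rw [hl, h3, zero_zsmul]
      exact AddSubgroup.zero_mem _
    · exact AddSubgroup.zsmul_mem _ (hAchi l hl) _
  -- hence a power of `x_p / x_q` is plus or minus a power of two
  have hpow : ∃ M : ℤ, (x p / x q) ^ N = (2 : ℂ) ^ M ∨ (x p / x q) ^ N = -(2 : ℂ) ^ M := by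
    obtain ⟨k, h1⟩ := pow_of_mem_HH x p q hp0 hq0 Δ hkey
    rcases Int.natAbs_eq Δ with h | h
    · refine ⟨k, ?_⟩
      rw [← zpow_natCast, hN, ← h]
      exact h1
    · refine ⟨-k, ?_⟩
      have h5 : ((N : ℕ) : ℤ) = -Δ := by rw [hN]; omega
      rw [← zpow_natCast, h5, _root_.zpow_neg, _root_.zpow_neg]
      rcases h1 with h1 | h1
      · left; rw [h1]
      · right; rw [h1, inv_neg]
  obtain ⟨M, hM⟩ := hpow
  -- the size of `x_r / x_q`
  have hαβ : α * β = 1 ∨ α * β = -1 := by
    rcases hα with rfl | rfl <;> rcases hβ with rfl | rfl <;> norm_num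
  have hββ : β * β = 1 := by rcases hβ with rfl | rfl <;> norm_num
  have hratio : x r / x q = β * (1 + (α * β) * (x p / x q)) := by
    rw [hrel]
    field_simp
    linear_combination (-(α * x p) ) * hββ
  have hne1 : 1 + (α * β) * (x p / x q) ≠ 0 := by
    intro h
    rw [h, mul_zero] at hratio
    exact (div_ne_zero hr0 hq0) hratio
  have hlow := radical_near_one' (x p / x q) (α * β) hαβ N hN1 M hM hne1
  have hnβ : ‖β‖ = 1 := by rcases hβ with rfl | rfl <;> simp
  have hlow' : 1 / (2 * (N : ℝ)) ≤ ‖x r‖ / ‖x q‖ := by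
    rw [← norm_div, hratio, norm_mul, hnβ, one_mul]
    exact hlow
  have hrpos : 0 < ‖x r‖ := norm_pos_iff.2 hr0
  have hqpos : 0 < ‖x q‖ := norm_pos_iff.2 hq0
  have hNpos : (0 : ℝ) < N := by exact_mod_cast hN1
  have hκz : |t r - t q| ≤ Real.log 2 + Real.log N := by
    have h1 : t r ≤ t q := Real.log_le_log hrpos hrq
    have h2 : Real.log (1 / (2 * (N : ℝ))) ≤ Real.log (‖x r‖ / ‖x q‖) :=
      Real.log_le_log (by positivity) hlow'
    rw [Real.log_div hrpos.ne' hqpos.ne', one_div, Real.log_inv,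
      Real.log_mul (by norm_num) hNpos.ne'] at h2
    rw [abs_sub_comm, abs_of_nonneg (by linarith)]
    simp only [ht]
    linarith
  -- Cramer
  have hbound := cramer_bound' (Matrix.of A) t B (insert rz D') hBD
    (fun l => if l = rz then Real.log 2 + Real.log N else Real.log 2)
    (by
      intro l hl
      rcases hcases l with h | h | h | h
      · have : (Matrix.of A) l = Pi.single r 1 - Pi.single q 1 := hArz l h
        rw [this]
        exact DRow.diff r q
      · simp only [hZ, Finset.mem_filter, Finset.mem_univ, true_and] at h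
        obtain ⟨_, i, _, hi, _⟩ := h
        have : (Matrix.of A) l = Pi.single i 1 := hi
        rw [this]
        exact DRow.single i
      · exact absurd h hl
      · obtain ⟨i, j, hij, _, _⟩ := hD'row l h
        have : (Matrix.of A) l = Pi.single i 1 - Pi.single j 1 := hij
        rw [this]
        exact DRow.diff i j)
    (by
      intro l hl
      simp only [hB, Finset.mem_filter, Finset.mem_univ, true_and] at hl
      obtain ⟨_, _, i, j, k, h, _, _⟩ := hl
      refine ⟨Pi.single i 1 - Pi.single k 1, Pi.single j 1, DRow.diff i k, DRow.single j, ?_⟩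
      have : (Matrix.of A) l = Pi.single i 1 + Pi.single j 1 - Pi.single k 1 := h
      rw [this]
      abel)
    (by
      intro l hl
      have e1 : ∑ y, ((Matrix.of A) l y : ℝ) * t y = ∑ y, V l y * t y := hdot l
      rw [e1]
      rcases hcases l with h | h | h | h
      · exact absurd (by rw [h]; exact Finset.mem_insert_self _ _) hl
      · simp only [hZ, Finset.mem_filter, Finset.mem_univ, true_and] at h
        obtain ⟨_, i, hi, _, h0⟩ := h
        rw [hi]
        simp [Pi.single_apply, h0]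
      · simp only [hB, Finset.mem_filter, Finset.mem_univ, true_and] at h
        obtain ⟨_, _, i, j, k, _, hv, h0⟩ := h
        rw [hv]
        simp only [Pi.add_apply, Pi.sub_apply, Pi.single_apply, sub_mul, add_mul,
          Finset.sum_sub_distrib, Finset.sum_add_distrib, ite_mul, one_mul, zero_mul,
          Finset.sum_ite_eq', Finset.mem_univ, if_true]
        linarith
      · exact absurd (Finset.mem_insert_of_mem h) hl)
    (by
      intro l hl
      have e1 : ∑ y, ((Matrix.of A) l y : ℝ) * t y = ∑ y, V l y * t y := hdot l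
      rw [e1]
      by_cases hlz : l = rz
      · rw [if_pos hlz, hlz, hVrz, hzdef]
        simp only [Pi.sub_apply, Pi.single_apply, sub_mul,
          Finset.sum_sub_distrib, ite_mul, one_mul, zero_mul,
          Finset.sum_ite_eq', Finset.mem_univ, if_true]
        exact hκz
      · rw [if_neg hlz]
        have hl' : l ∈ D' := by
          rcases Finset.mem_insert.1 hl with h | h
          · exact absurd h hlz
          · exact h
        obtain ⟨i, j, _, hv, h0⟩ := hD'row l hl'
        rw [hv]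
        simp only [Pi.sub_apply, Pi.single_apply, sub_mul,
          Finset.sum_sub_distrib, ite_mul, one_mul, zero_mul,
          Finset.sum_ite_eq', Finset.mem_univ, if_true]
        exact h0) m
  have hsumκ : ∑ l ∈ insert rz D', (if l = rz then Real.log 2 + Real.log N else Real.log 2) =
      (D'.card + 1) * Real.log 2 + Real.log N := by
    rw [Finset.sum_insert hrzD, if_pos rfl]
    have : ∑ l ∈ D', (if l = rz then Real.log 2 + Real.log N else Real.log 2) =
        ∑ _l ∈ D', Real.log 2 := by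
      apply Finset.sum_congr rfl
      intro l hl
      have hne : l ≠ rz := fun h => hrzD (h ▸ hl)
      rw [if_neg hne]
    rw [this, Finset.sum_const, nsmul_eq_mul]
    ring
  rw [hsumκ] at hbound
  have hΔ' : |((Matrix.of A).det : ℝ)| = (N : ℝ) := hNR
  rw [hΔ'] at hbound
  -- counting
  have hCZ : C.card ≤ Z.card := by
    apply Finset.card_le_card_of_injOn
      (fun i => if h : (Pi.single i 1 : Fin n → ℝ) ∈ b then ev.symm ⟨Pi.single i 1, h⟩ else i)
    · intro i hi
      have hib : (Pi.single i 1 : Fin n → ℝ) ∈ b :=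
        hsb (Set.mem_insert_of_mem _ ⟨i, hi, rfl⟩)
      have hVi : V (ev.symm ⟨Pi.single i 1, hib⟩) = Pi.single i 1 := by
        simp only [hV, Equiv.apply_symm_apply]
      have h1i : x i = 1 := hx _ (hC i hi)
      have hne : ev.symm ⟨Pi.single i 1, hib⟩ ≠ rz := by
        intro h
        apply hz
        rw [← hVrz, ← h, hVi]
        exact Submodule.subset_span (Lead.one i (hC i hi))
      simp only [hib, dif_pos]
      simp only [hZ, Finset.coe_filter, Finset.mem_univ, true_and, Set.mem_ofPred_eq]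
      refine ⟨hne, i, hVi, ?_, by simp [ht, h1i]⟩
      funext y
      have h2 := hA (ev.symm ⟨Pi.single i 1, hib⟩) y
      rw [hVi] at h2
      simp only [Pi.single_apply] at h2 ⊢
      exact_mod_cast h2
    · intro i hi j hj hij
      have hib : (Pi.single i 1 : Fin n → ℝ) ∈ b :=
        hsb (Set.mem_insert_of_mem _ ⟨i, hi, rfl⟩)
      have hjb : (Pi.single j 1 : Fin n → ℝ) ∈ b :=
        hsb (Set.mem_insert_of_mem _ ⟨j, hj, rfl⟩)
      simp only [hib, hjb, dif_pos] at hij
      have h2 := ev.symm.injective hij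
      have h3 : (Pi.single i 1 : Fin n → ℝ) = Pi.single j 1 := congrArg Subtype.val h2
      exact hstd.injective h3
  have htot : Z.card + B.card + D'.card + 1 ≤ n := by
    have h1 : (insert rz (Z ∪ B ∪ D')).card ≤ n := by
      calc (insert rz (Z ∪ B ∪ D')).card ≤ (Finset.univ : Finset (Fin n)).card :=
            Finset.card_le_card (Finset.subset_univ _)
        _ = n := by simp
    rw [Finset.card_insert_of_notMem, Finset.card_union_of_disjoint,
      Finset.card_union_of_disjoint hBZ] at h1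
    · exact h1
    · rw [Finset.disjoint_union_left]
      exact ⟨hDZ, hBD'⟩
    · simp only [Finset.mem_union, not_or]
      exact ⟨⟨hrzZ, hrzB⟩, hrzD⟩
  have hle : C.card + B.card + D'.card + 1 ≤ n := by omega
  -- conclusion
  have hlog2 : 0 < Real.log 2 := Real.log_pos (by norm_num)
  have hlogN : Real.log N ≤ (N - 1) * Real.log 2 := by
    have h1 : (N : ℝ) ≤ 2 ^ (N - 1) := by
      have h2 := Nat.lt_two_pow_self (n := N - 1)
      have h3 : N ≤ 2 ^ (N - 1) := by omega
      exact_mod_cast h3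
    have h2 := Real.log_le_log hNpos h1
    rw [Real.log_pow] at h2
    have h3 : ((N - 1 : ℕ) : ℝ) = (N : ℝ) - 1 := by
      push_cast [Nat.cast_sub hN1]
      ring
    rw [h3] at h2
    exact h2
  have hmain : (N : ℝ) * |t m| ≤ N * (2 ^ B.card * ((D'.card + 1) * Real.log 2)) := by
    refine le_trans hbound ?_
    have h1 : ((D'.card : ℝ) + 1) * Real.log 2 + Real.log N ≤ N * ((D'.card + 1) * Real.log 2) := by
      have h2 : (0 : ℝ) ≤ (N : ℝ) - 1 := by
        have : (1 : ℝ) ≤ N := by exact_mod_cast hN1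
        linarith
      have h3 : (0 : ℝ) ≤ D'.card := by positivity
      have h4 : 0 ≤ ((N : ℝ) - 1) * (D'.card * Real.log 2) := by positivity
      nlinarith
    calc (2 : ℝ) ^ B.card * ((D'.card + 1) * Real.log 2 + Real.log N)
        ≤ 2 ^ B.card * (N * ((D'.card + 1) * Real.log 2)) :=
          mul_le_mul_of_nonneg_left h1 (by positivity)
      _ = N * (2 ^ B.card * ((D'.card + 1) * Real.log 2)) := by ring
  have hmain' : |t m| ≤ 2 ^ B.card * ((D'.card + 1) * Real.log 2) :=
    le_of_mul_le_mul_left hmain hNpos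
  refine le_trans hmain' ?_
  have h5 : D'.card + 1 ≤ 2 ^ D'.card := Nat.lt_two_pow_self
  have h6 : ((D'.card : ℝ) + 1) ≤ 2 ^ D'.card := by exact_mod_cast h5
  calc (2 : ℝ) ^ B.card * ((D'.card + 1) * Real.log 2)
      ≤ 2 ^ B.card * (2 ^ D'.card * Real.log 2) := by
        apply mul_le_mul_of_nonneg_left _ (by positivity)
        exact mul_le_mul_of_nonneg_right h6 hlog2.le
    _ = 2 ^ (B.card + D'.card) * Real.log 2 := by rw [pow_add]; ring
    _ ≤ (2 : ℝ) ^ ((n : ℝ) - C.card - 1) * Real.log 2 := by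
        apply mul_le_mul_of_nonneg_right _ hlog2.le
        rw [← Real.rpow_natCast]
        apply Real.rpow_le_rpow_of_exponent_le (by norm_num)
        push_cast
        have h8 : (C.card : ℝ) + B.card + D'.card + 1 ≤ n := by exact_mod_cast hle
        linarith

end Pool.Agent.SumProd339
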