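import Pool.Agent.SumProd339.OneAdd
import Pool.Agent.SumProd339.Curve

set_option autoImplicit false

/-!
# The bound for systems with one essential addition equation
-/

namespace Pool.Agent.SumProd339

open Finset

/-- There are `i₀, j₀, k₀` such that each addition equation `x_i + x_j = x_k` in `S` is a doubling
(`i = j`), or has a zero coordinate at `x`, or is `x_{i₀} + x_{j₀} = x_{k₀}`
or `x_{j₀} + x_{i₀} = x_{k₀}`. -/
def OneAddition {n : ℕ} (S : Set (Eqn n)) (x : Fin n → ℂ) : Prop :=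
  ∃ i₀ j₀ k₀ : Fin n, ∀ i j k, Eqn.add i j k ∈ S →
    (i = j ∨ x i = 0 ∨ x j = 0 ∨ x k = 0) ∨ (i = i₀ ∧ j = j₀ ∧ k = k₀) ∨
      (i = j₀ ∧ j = i₀ ∧ k = k₀)

/-- A point is tame for a system whose additions are doublings or have a zero coordinate. -/
lemma tame_of_trivial {n : ℕ} (S : Set (Eqn n)) (x : Fin n → ℂ) (hx : IsSol S x)
    (hdbl : ∀ i j k, Eqn.add i j k ∈ S → i = j ∨ x i = 0 ∨ x j = 0 ∨ x k = 0) : Tame S x := by
  apply tame_of_balanced
  intro i j k h p q hp hq hp0 hq0
  have h3 : x i + x j = x k := hx _ h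
  obtain ⟨e, he⟩ := ratio_pow x i j k h3 (hdbl i j k h) p q hp hq hp0 hq0
  have hcase : ‖x p‖ = ‖x q‖ ∨ ‖x p‖ = 2 * ‖x q‖ ∨ ‖x q‖ = 2 * ‖x p‖ := by
    rcases hdbl i j k h with h1 | h1 | h1 | h1
    · subst h1
      have h4 : ‖x k‖ = 2 * ‖x i‖ := by
        rw [← h3, ← two_mul, norm_mul]
        simp
      rcases hp with rfl | rfl | rfl <;> rcases hq with rfl | rfl | rfl <;> simp_all
    · have hjk : x j = x k := by rw [← h3, h1, zero_add]
      left
      rcases hp with rfl | rfl | rfl <;> rcases hq with rfl | rfl | rfl <;> simp_all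
    · have hjk : x i = x k := by rw [← h3, h1, add_zero]
      left
      rcases hp with rfl | rfl | rfl <;> rcases hq with rfl | rfl | rfl <;> simp_all
    · have hij : x i = - x j := by
        rw [h1] at h3
        exact eq_neg_of_add_eq_zero_left h3
      have h6 : ‖x i‖ = ‖x j‖ := by rw [hij, norm_neg]
      left
      rcases hp with rfl | rfl | rfl <;> rcases hq with rfl | rfl | rfl <;>
        first
        | rfl
        | exact h6
        | exact h6.symm
        | exact absurd h1 hp0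
        | exact absurd h1 hq0
  have h5 := norm_nonneg (x p)
  have h6 := norm_nonneg (x q)
  rcases hcase with h7 | h7 | h7 <;> linarith

lemma perm1 {T : Type} (a i j k : T) : (a = i ∨ a = j ∨ a = k) ↔ (a = k ∨ a = j ∨ a = i) := by
  tauto

lemma perm2 {T : Type} (a i j k : T) : (a = i ∨ a = j ∨ a = k) ↔ (a = k ∨ a = i ∨ a = j) := by
  tauto

lemma perm3 {T : Type} (a i j k : T) (h : a = i ∨ a = j ∨ a = k) : a = j ∨ a = i ∨ a = k := by
  tauto

lemma dup3 {T : Type} (a i k : T) (h : a = i ∨ a = i ∨ a = k) : a = i ∨ a = k := by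
  tauto

lemma log_bound_main {n : ℕ} (S : Set (Eqn n)) (x : Fin n → ℂ) (hx : IsSol S x)
    (hdbl : ∀ i j k, Eqn.add i j k ∈ S → i = j ∨ x i = 0 ∨ x j = 0 ∨ x k = 0)
    (C : Finset (Fin n)) (hC : ∀ i ∈ C, Eqn.one i ∈ S)
    (p q r : Fin n) (hp0 : x p ≠ 0) (hq0 : x q ≠ 0) (hr0 : x r ≠ 0)
    (α β : ℂ) (hα : α = 1 ∨ α = -1) (hβ : β = 1 ∨ β = -1) (hrel : x r = α * x p + β * x q)
    (hrq : ‖x r‖ ≤ ‖x q‖)
    (hiso : ∃ U ∈ nhds x, ∀ z ∈ U, (IsSol S z ∧ z r = α * z p + β * z q) → z = x)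
    (hnt : (Pi.single r 1 - Pi.single q 1 : Fin n → ℝ) ∉
      Submodule.span ℝ (insert (Pi.single p 1 - Pi.single q 1 : Fin n → ℝ) {v | Lead S x v}))
    (m : Fin n) : |Real.log ‖x m‖| ≤ (2 : ℝ) ^ ((n : ℝ) - C.card - 1) * Real.log 2 := by
  have hb := tame_of_trivial S x hx hdbl
  have hpq := hpq_of_isolated S x hx hb p q r hp0 hq0 hr0 α β hrel hiso hnt
  have hspan := hspan_of_isolated S x hx hb p q r α β hrel hiso hpq
  have hz : (Pi.single r 1 - Pi.single q 1 : Fin n → ℝ) ∉ Submodule.span ℝ {v | Lead S x v} :=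
    fun h => hnt (Submodule.span_mono (Set.subset_insert _ _) h)
  exact core3 S x hx hdbl C hC p q r hp0 hq0 hr0 α β hα hβ hrel hrq hz hpq hspan m

/-- The bound at isolated solutions of systems with one essential addition equation. -/
theorem oneAddition_bound {n : ℕ} (S : Set (Eqn n)) (x : Fin n → ℂ) (hx : IsSol S x)
    (hiso : Isolated S x) (hone : OneAddition S x) (C : Finset (Fin n))
    (hC : ∀ i ∈ C, Eqn.one i ∈ S) (m : Fin n) :
    ‖x m‖ ≤ (2 : ℝ) ^ ((2 : ℝ) ^ ((n : ℝ) - C.card - 1)) := by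
  by_cases ht : Tame S x
  · have hspan := span_of_isolated S x hx hiso ht
    exact lead_bound S x hx ∅ (by simp) C (fun i hi => Or.inr (hC i hi)) (by simpa using hspan) m
  obtain ⟨i₀, j₀, k₀, h1⟩ := hone
  -- the exceptional relation holds at `x`
  have hsum : x i₀ + x j₀ = x k₀ := by
    by_contra hne
    apply ht
    apply tame_of_trivial S x hx
    intro i j k h
    rcases h1 i j k h with h2 | ⟨rfl, rfl, rfl⟩ | ⟨rfl, rfl, rfl⟩
    · exact h2
    · exact absurd (hx _ h) hne
    · exfalso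
      have h3 : x i + x j = x k := hx _ h
      exact hne (by rw [← h3]; ring)
  -- the coordinates are nonzero
  have hnz : ∀ a, (a = i₀ ∨ a = j₀ ∨ a = k₀) → x a ≠ 0 := by
    intro a ha ha0
    apply ht
    apply tame_of_trivial S x hx
    intro i j k h
    rcases h1 i j k h with h2 | ⟨rfl, rfl, rfl⟩ | ⟨rfl, rfl, rfl⟩
    · exact h2
    · rcases ha with rfl | rfl | rfl
      · exact Or.inr (Or.inl ha0)
      · exact Or.inr (Or.inr (Or.inl ha0))
      · exact Or.inr (Or.inr (Or.inr ha0))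
    · rcases ha with rfl | rfl | rfl
      · exact Or.inr (Or.inr (Or.inl ha0))
      · exact Or.inr (Or.inl ha0)
      · exact Or.inr (Or.inr (Or.inr ha0))
  -- the trivial part
  set S' : Set (Eqn n) := {e | e ∈ S ∧ ∀ i j k, e = Eqn.add i j k →
    (i = j ∨ x i = 0 ∨ x j = 0 ∨ x k = 0)} with hS'
  have hx' : IsSol S' x := fun e he => hx e he.1
  have hdbl' : ∀ i j k, Eqn.add i j k ∈ S' → i = j ∨ x i = 0 ∨ x j = 0 ∨ x k = 0 :=
    fun i j k h => h.2 i j k rfl
  have hC' : ∀ i ∈ C, Eqn.one i ∈ S' := fun i hi => ⟨hC i hi, fun _ _ _ h => by cases h⟩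
  have hLead : ∀ v, Lead S' x v → Lead S x v := by
    intro v hv
    cases hv with
    | zero i h => exact Lead.zero i h
    | one i h => exact Lead.one i h.1
    | mul i j k h hi hj => exact Lead.mul i j k h.1 hi hj
    | add i j k p q h hp hq hp0 hq0 h1 h2 => exact Lead.add i j k p q h.1 hp hq hp0 hq0 h1 h2
  have hsol : ∀ z : Fin n → ℂ, IsSol S' z → z i₀ + z j₀ = z k₀ → IsSol S z := by
    intro z hz hsum' e he
    cases e with
    | one i => exact hz _ ⟨he, fun _ _ _ h => by cases h⟩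
    | mul i j k => exact hz _ ⟨he, fun _ _ _ h => by cases h⟩
    | add i j k =>
      rcases h1 i j k he with h2 | ⟨rfl, rfl, rfl⟩ | ⟨rfl, rfl, rfl⟩
      · refine hz _ ⟨he, fun i' j' k' h => ?_⟩
        cases h
        exact h2
      · exact hsum'
      · show z i + z j = z k
        rw [← hsum', add_comm]
  have key : ∀ (p q r : Fin n) (α β : ℂ), (α = 1 ∨ α = -1) → (β = 1 ∨ β = -1) →
      (∀ z : Fin n → ℂ, z r = α * z p + β * z q ↔ z i₀ + z j₀ = z k₀) →
      (∀ a, (a = i₀ ∨ a = j₀ ∨ a = k₀) ↔ (a = p ∨ a = q ∨ a = r)) →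
      ‖x r‖ ≤ ‖x p‖ → ‖x r‖ ≤ ‖x q‖ →
      |Real.log ‖x m‖| ≤ (2 : ℝ) ^ ((n : ℝ) - C.card - 1) * Real.log 2 := by
    intro p q r α β hα hβ hrel hperm hrp hrq
    have hp0 : x p ≠ 0 := hnz p ((hperm p).2 (Or.inl rfl))
    have hq0 : x q ≠ 0 := hnz q ((hperm q).2 (Or.inr (Or.inl rfl)))
    have hr0 : x r ≠ 0 := hnz r ((hperm r).2 (Or.inr (Or.inr rfl)))
    have hrx : x r = α * x p + β * x q := (hrel x).2 hsum
    have hnα : ‖α‖ = 1 := by rcases hα with rfl | rfl <;> simp
    have hnβ : ‖β‖ = 1 := by rcases hβ with rfl | rfl <;> simp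
    have hpn : ‖x p‖ ≤ 2 * ‖x q‖ := by
      have e1 : α * x p = x r - β * x q := by rw [hrx]; ring
      have e2 : ‖α * x p‖ ≤ ‖x r‖ + ‖β * x q‖ := by rw [e1]; exact norm_sub_le _ _
      rw [norm_mul, norm_mul, hnα, hnβ] at e2
      linarith
    have hqn : ‖x q‖ ≤ 2 * ‖x p‖ := by
      have e1 : β * x q = x r - α * x p := by rw [hrx]; ring
      have e2 : ‖β * x q‖ ≤ ‖x r‖ + ‖α * x p‖ := by rw [e1]; exact norm_sub_le _ _
      rw [norm_mul, norm_mul, hnα, hnβ] at e2
      linarith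
    apply log_bound_main S' x hx' hdbl' C hC' p q r hp0 hq0 hr0 α β hα hβ hrx hrq ?_ ?_ m
    · obtain ⟨U, hU, hUz⟩ := hiso
      exact ⟨U, hU, fun z hz h => hUz z hz (hsol z h.1 ((hrel z).1 h.2))⟩
    · intro h
      apply ht
      -- the exceptional equation is in `S`
      have hmem : ∃ i j k, Eqn.add i j k ∈ S ∧ (∀ a, (a = p ∨ a = q ∨ a = r) →
          (a = i ∨ a = j ∨ a = k)) := by
        by_contra hno
        push Not at hno
        apply ht
        apply tame_of_trivial S x hx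
        intro i j k hS
        rcases h1 i j k hS with h2 | ⟨rfl, rfl, rfl⟩ | ⟨rfl, rfl, rfl⟩
        · exact h2
        · exfalso
          obtain ⟨a, ha, hna⟩ := hno i j k hS
          rcases (hperm a).2 ha with h3 | h3 | h3
          · exact hna.1 h3
          · exact hna.2.1 h3
          · exact hna.2.2 h3
        · exfalso
          obtain ⟨a, ha, hna⟩ := hno i j k hS
          rcases (hperm a).2 ha with h3 | h3 | h3
          · exact hna.2.1 h3
          · exact hna.1 h3
          · exact hna.2.2 h3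
      obtain ⟨i', j', k', hS0, hin⟩ := hmem
      have hpqS : (Pi.single p 1 - Pi.single q 1 : Fin n → ℝ) ∈
          Submodule.span ℝ {v | Lead S x v} :=
        Submodule.subset_span (Lead.add i' j' k' p q hS0 (hin p (Or.inl rfl))
          (hin q (Or.inr (Or.inl rfl))) hp0 hq0 hpn hqn)
      have hle : Submodule.span ℝ
          (insert (Pi.single p 1 - Pi.single q 1 : Fin n → ℝ) {v | Lead S' x v}) ≤
          Submodule.span ℝ {v | Lead S x v} :=
        Submodule.span_le.2 (Set.insert_subset hpqS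
          (fun v hv => Submodule.subset_span (hLead v hv)))
      have hrqS := hle h
      have hall : ∀ a, (a = p ∨ a = q ∨ a = r) → (Pi.single a 1 - Pi.single q 1 : Fin n → ℝ) ∈
          Submodule.span ℝ {v | Lead S x v} := by
        intro a ha
        rcases ha with rfl | rfl | rfl
        · exact hpqS
        · rw [sub_self]; exact Submodule.zero_mem _
        · exact hrqS
      have hall2 : ∀ a b, (a = i₀ ∨ a = j₀ ∨ a = k₀) → (b = i₀ ∨ b = j₀ ∨ b = k₀) →
          (Pi.single a 1 - Pi.single b 1 : Fin n → ℝ) ∈ Submodule.span ℝ {v | Lead S x v} := by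
        intro a b ha hb
        have e1 : (Pi.single a 1 - Pi.single b 1 : Fin n → ℝ) =
            (Pi.single a 1 - Pi.single q 1) - (Pi.single b 1 - Pi.single q 1) := by abel
        rw [e1]
        exact Submodule.sub_mem _ (hall a ((hperm a).1 ha)) (hall b ((hperm b).1 hb))
      intro i j k hS a b ha hb ha0 hb0
      rcases h1 i j k hS with h2 | ⟨rfl, rfl, rfl⟩ | ⟨rfl, rfl, rfl⟩
      · have hS2 : Eqn.add i j k ∈ S' := by
          refine ⟨hS, fun i' j' k' h => ?_⟩
          cases h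
          exact h2
        have h3 := tame_of_trivial S' x hx' hdbl' i j k hS2 a b ha hb ha0 hb0
        exact Submodule.span_mono (fun v hv => hLead v hv) h3
      · exact hall2 a b ha hb
      · exact hall2 a b (perm3 _ _ _ _ ha) (perm3 _ _ _ _ hb)
  have hlog : |Real.log ‖x m‖| ≤ (2 : ℝ) ^ ((n : ℝ) - C.card - 1) * Real.log 2 := by
    by_cases c1 : ‖x k₀‖ ≤ ‖x i₀‖ ∧ ‖x k₀‖ ≤ ‖x j₀‖
    · exact key i₀ j₀ k₀ 1 1 (Or.inl rfl) (Or.inl rfl)
        (fun z => by rw [one_mul, one_mul]; exact eq_comm) (fun a => Iff.rfl) c1.1 c1.2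
    · by_cases c2 : ‖x i₀‖ ≤ ‖x j₀‖
      · have c3 : ‖x i₀‖ ≤ ‖x k₀‖ := by
          by_contra h
          push Not at h
          exact c1 ⟨h.le, h.le.trans c2⟩
        exact key k₀ j₀ i₀ 1 (-1) (Or.inl rfl) (Or.inr rfl)
          (fun z => by
            constructor
            · intro h; rw [h]; ring
            · intro h; rw [← h]; ring)
          (fun a => perm1 a i₀ j₀ k₀) c3 c2
      · push Not at c2
        have c3 : ‖x j₀‖ ≤ ‖x k₀‖ := by
          by_contra h
          push Not at h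
          exact c1 ⟨h.le.trans c2.le, h.le⟩
        exact key k₀ i₀ j₀ 1 (-1) (Or.inl rfl) (Or.inr rfl)
          (fun z => by
            constructor
            · intro h; rw [h]; ring
            · intro h; rw [← h]; ring)
          (fun a => perm2 a i₀ j₀ k₀) c3 c2.le
  rcases eq_or_lt_of_le (norm_nonneg (x m)) with h0 | h0
  · rw [← h0]
    positivity
  · have h2 := le_trans (le_abs_self _) hlog
    rw [← Real.log_rpow (by norm_num : (0 : ℝ) < 2)] at h2
    exact (Real.log_le_log_iff h0 (by positivity)).1 h2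

end Pool.Agent.SumProd339
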