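import Pool.Agent.SumProd339.GenOne

set_option autoImplicit false

/-!
# Real solutions of systems with one essential addition equation
-/

namespace Pool.Agent.SumProd339

open Finset

lemma pos_aux (a b : ℝ) (hb : 0 ≤ b) (h : 0 < a * b) : 0 < a := by
  by_contra h1
  push Not at h1
  have := mul_nonpos_of_nonpos_of_nonneg h1 hb
  linarith

/-- A move by positive real factors along functionals vanishing on the leading vectors. -/
lemma real_move {n : ℕ} (S : Set (Eqn n)) (x : Fin n → ℂ) (xr : Fin n → ℝ)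
    (hxr : ∀ i, x i = ((xr i : ℝ) : ℂ)) (hx : IsSol S x) (hb : Tame S x)
    (f1 f2 : (Fin n → ℝ) →ₗ[ℝ] ℝ) (h1L : ∀ v, Lead S x v → f1 v = 0)
    (h2L : ∀ v, Lead S x v → f2 v = 0) (σ τ : ℝ) :
    IsSol S (fun j => ((xr j * Real.exp (τ * f1 (Pi.single j 1) + σ * f2 (Pi.single j 1)) : ℝ) : ℂ)) := by
  have hker1 : Submodule.span ℝ {v | Lead S x v} ≤ LinearMap.ker f1 :=
    Submodule.span_le.2 (fun v hv => h1L v hv)
  have hker2 : Submodule.span ℝ {v | Lead S x v} ≤ LinearMap.ker f2 :=
    Submodule.span_le.2 (fun v hv => h2L v hv)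
  have h := move S x hx
    (fun j => ((τ * f1 (Pi.single j 1) + σ * f2 (Pi.single j 1) : ℝ) : ℂ)) ?_ ?_ ?_
  · have e : (fun j => ((xr j * Real.exp (τ * f1 (Pi.single j 1) + σ * f2 (Pi.single j 1)) : ℝ) : ℂ)) =
        fun j => x j * Complex.exp ((τ * f1 (Pi.single j 1) + σ * f2 (Pi.single j 1) : ℝ) : ℂ) := by
      funext j
      rw [hxr j, Complex.ofReal_mul, Complex.ofReal_exp]
    rw [e]
    exact h
  · intro i hi
    rw [h1L _ (Lead.one i hi), h2L _ (Lead.one i hi)]
    simp
  · intro i j k h hi hj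
    have e1 := h1L _ (Lead.mul i j k h hi hj)
    have e2 := h2L _ (Lead.mul i j k h hi hj)
    rw [map_sub, map_add] at e1 e2
    have e3 : f1 (Pi.single k 1) = f1 (Pi.single i 1) + f1 (Pi.single j 1) := by linarith
    have e4 : f2 (Pi.single k 1) = f2 (Pi.single i 1) + f2 (Pi.single j 1) := by linarith
    rw [e3, e4]
    push_cast
    ring
  · intro i j k h p' q' hp hq hp0' hq0'
    have e1 : f1 (Pi.single p' 1 - Pi.single q' 1) = 0 := hker1 (hb i j k h p' q' hp hq hp0' hq0')
    have e2 : f2 (Pi.single p' 1 - Pi.single q' 1) = 0 := hker2 (hb i j k h p' q' hp hq hp0' hq0')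
    rw [map_sub] at e1 e2
    have e3 : f1 (Pi.single p' 1) = f1 (Pi.single q' 1) := by linarith
    have e4 : f2 (Pi.single p' 1) = f2 (Pi.single q' 1) := by linarith
    rw [e3, e4]

lemma span_of_real {n : ℕ} (S : Set (Eqn n)) (x : Fin n → ℂ) (xr : Fin n → ℝ)
    (hxr : ∀ i, x i = ((xr i : ℝ) : ℂ)) (hx : IsSol S x) {i₁ : Fin n} (hi₁ : Eqn.one i₁ ∈ S)
    (hfull1 : ∀ (y : Fin n → ℝ) (i : Fin n), IsSol S (fun j => ((y j : ℝ) : ℂ)) →
      y i * y i = 1 → Eqn.mul i i i₁ ∈ S)
    (hb : Tame S x) :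
    Submodule.span ℝ {v | Lead S x v} = ⊤ := by
  by_contra hne
  obtain ⟨f, hfL, i, hi, hxi⟩ := exists_functional S x hne
  have hxi' : xr i ≠ 0 := fun h => hxi (by rw [hxr i, h]; simp)
  set τ : ℝ := -Real.log |xr i| / f (Pi.single i 1) with hτ
  have hsol := real_move S x xr hxr hx hb f f hfL hfL 0 τ
  have habs : 0 < |xr i| := abs_pos.2 hxi'
  have h1 : (xr i * Real.exp (τ * f (Pi.single i 1) + 0 * f (Pi.single i 1))) *
      (xr i * Real.exp (τ * f (Pi.single i 1) + 0 * f (Pi.single i 1))) = 1 := by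
    rw [hτ, zero_mul, add_zero, div_mul_cancel₀ _ hi, Real.exp_neg, Real.exp_log habs]
    have e : xr i * xr i = |xr i| * |xr i| := (abs_mul_abs_self _).symm
    field_simp
    rw [pow_two, pow_two, e]
  have hmem : Eqn.mul i i i₁ ∈ S := hfull1 _ i hsol h1
  have h2 := hfL _ (Lead.mul i i i₁ hmem hxi hxi)
  have h3 := hfL _ (Lead.one i₁ hi₁)
  rw [map_sub, map_add, h3] at h2
  apply hi
  linarith

lemma hspan_of_real {n : ℕ} (S : Set (Eqn n)) (x : Fin n → ℂ) (xr : Fin n → ℝ)
    (hxr : ∀ i, x i = ((xr i : ℝ) : ℂ)) (hx : IsSol S x)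
    (hb : Tame S x) (p q r : Fin n) (β : ℂ) (hrel : x r = 1 * x p + β * x q)
    (i₁ : Fin n) (hi₁ : Eqn.one i₁ ∈ S)
    (hone : ∀ (y : Fin n → ℝ) (i : Fin n), IsSol S (fun j => ((y j : ℝ) : ℂ)) →
      ((y r : ℝ) : ℂ) = 1 * ((y p : ℝ) : ℂ) + β * ((y q : ℝ) : ℂ) → y i * y i = 1 →
        Eqn.mul i i i₁ ∈ S)
    (hpq : (Pi.single p 1 - Pi.single q 1 : Fin n → ℝ) ∈ Submodule.span ℝ {v | Lead S x v}) :
    Submodule.span ℝ
      (insert (Pi.single r 1 - Pi.single q 1 : Fin n → ℝ) {v | Lead S x v}) = ⊤ := by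
  by_contra hne
  obtain ⟨f, hf0, hf⟩ := Submodule.exists_le_ker_of_lt_top _ (lt_top_iff_ne_top.2 hne)
  have hfL : ∀ v, Lead S x v → f v = 0 := fun v hv =>
    hf (Submodule.subset_span (Set.mem_insert_of_mem _ hv))
  have hfr : f (Pi.single r 1 - Pi.single q 1) = 0 :=
    hf (Submodule.subset_span (Set.mem_insert _ _))
  have hker : Submodule.span ℝ {v | Lead S x v} ≤ LinearMap.ker f :=
    Submodule.span_le.2 (fun v hv => hfL v hv)
  have hfp : f (Pi.single p 1 - Pi.single q 1) = 0 := hker hpq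
  rw [map_sub] at hfr hfp
  have hex : ∃ i, f (Pi.single i 1) ≠ 0 := by
    by_contra hall
    push Not at hall
    apply hf0
    apply LinearMap.pi_ext'
    intro i
    ext
    simpa using hall i
  obtain ⟨i, hi⟩ := hex
  have hxi : x i ≠ 0 := fun h => hi (hfL _ (Lead.zero i h))
  have hxi' : xr i ≠ 0 := fun h => hxi (by rw [hxr i, h]; simp)
  set τ : ℝ := -Real.log |xr i| / f (Pi.single i 1) with hτ
  have hsol := real_move S x xr hxr hx hb f f hfL hfL 0 τ
  have habs : 0 < |xr i| := abs_pos.2 hxi'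
  have h1 : (xr i * Real.exp (τ * f (Pi.single i 1) + 0 * f (Pi.single i 1))) *
      (xr i * Real.exp (τ * f (Pi.single i 1) + 0 * f (Pi.single i 1))) = 1 := by
    rw [hτ, zero_mul, add_zero, div_mul_cancel₀ _ hi, Real.exp_neg, Real.exp_log habs]
    have e : xr i * xr i = |xr i| * |xr i| := (abs_mul_abs_self _).symm
    field_simp
    rw [pow_two, pow_two, e]
  have hmem : Eqn.mul i i i₁ ∈ S := by
    apply hone _ i hsol _ h1
    have e1 : f (Pi.single p 1) = f (Pi.single q 1) := by linarith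
    have e2 : f (Pi.single r 1) = f (Pi.single q 1) := by linarith
    rw [e1, e2]
    push_cast
    rw [← hxr r, ← hxr p, ← hxr q, hrel]
    ring
  have h2 := hfL _ (Lead.mul i i i₁ hmem hxi hxi)
  have h3 := hfL _ (Lead.one i₁ hi₁)
  rw [map_sub, map_add, h3] at h2
  apply hi
  linarith

lemma hpq_of_real {n : ℕ} (S : Set (Eqn n)) (x : Fin n → ℂ) (xr : Fin n → ℝ)
    (hxr : ∀ i, x i = ((xr i : ℝ) : ℂ)) (hx : IsSol S x)
    (hb : Tame S x) (p q r : Fin n) (hp0 : x p ≠ 0) (hq0 : x q ≠ 0) (hr0 : x r ≠ 0)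
    (β : ℝ) (hβ : β = 1 ∨ β = -1) (hrel : xr r = xr p + β * xr q) (hrp : |xr r| ≤ |xr p|)
    (hno : ∀ y : Fin n → ℝ, IsSol S (fun j => ((y j : ℝ) : ℂ)) → y r = y p + β * y q →
      (y r + y r = y p ∨ y r + y r = y q ∨ y p + y p = y q) →
      (Pi.single p 1 - Pi.single q 1 : Fin n → ℝ) ∈ Submodule.span ℝ {v | Lead S x v})
    (hnt : (Pi.single r 1 - Pi.single q 1 : Fin n → ℝ) ∉
      Submodule.span ℝ (insert (Pi.single p 1 - Pi.single q 1 : Fin n → ℝ) {v | Lead S x v})) :
    (Pi.single p 1 - Pi.single q 1 : Fin n → ℝ) ∈ Submodule.span ℝ {v | Lead S x v} := by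
  by_contra hne
  have hnt2 : (Pi.single p 1 - Pi.single q 1 : Fin n → ℝ) ∉
      Submodule.span ℝ (insert (Pi.single r 1 - Pi.single q 1 : Fin n → ℝ) {v | Lead S x v}) :=
    fun h => hnt (mem_span_insert_exchange h hne)
  obtain ⟨f1, hf1, hk1⟩ := Submodule.exists_le_ker_of_notMem hnt
  obtain ⟨f2, hf2, hk2⟩ := Submodule.exists_le_ker_of_notMem hnt2
  have h1L : ∀ v, Lead S x v → f1 v = 0 := fun v hv =>
    hk1 (Submodule.subset_span (Set.mem_insert_of_mem _ hv))
  have h2L : ∀ v, Lead S x v → f2 v = 0 := fun v hv =>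
    hk2 (Submodule.subset_span (Set.mem_insert_of_mem _ hv))
  have h1p : f1 (Pi.single p 1 - Pi.single q 1) = 0 :=
    hk1 (Submodule.subset_span (Set.mem_insert _ _))
  have h2r : f2 (Pi.single r 1 - Pi.single q 1) = 0 :=
    hk2 (Submodule.subset_span (Set.mem_insert _ _))
  set a : ℝ := f1 (Pi.single r 1 - Pi.single q 1) with ha
  set b : ℝ := f2 (Pi.single p 1 - Pi.single q 1) with hb'
  rw [map_sub] at h1p h2r ha hb'
  have hp0' : xr p ≠ 0 := fun h => hp0 (by rw [hxr, h]; simp)
  have hq0' : xr q ≠ 0 := fun h => hq0 (by rw [hxr, h]; simp)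
  have hr0' : xr r ≠ 0 := fun h => hr0 (by rw [hxr, h]; simp)
  have hcurve : ∀ u v : ℝ, 0 < u → 0 < v → ∃ y : Fin n → ℝ,
      IsSol S (fun j => ((y j : ℝ) : ℂ)) ∧ ∃ c : ℝ,
        y p = c * u * xr p ∧ y q = c * xr q ∧ y r = c * v * xr r := by
    intro u v hu hv
    refine ⟨_, real_move S x xr hxr hx hb f1 f2 h1L h2L (Real.log u / b) (Real.log v / a),
      Real.exp (Real.log v / a * f1 (Pi.single q 1) + Real.log u / b * f2 (Pi.single q 1)),
      ?_, ?_, ?_⟩
    · have e1 : f1 (Pi.single p 1) = f1 (Pi.single q 1) := by linarith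
      have e2 : f2 (Pi.single p 1) = f2 (Pi.single q 1) + b := by linarith
      have e3 : Real.log v / a * f1 (Pi.single p 1) + Real.log u / b * f2 (Pi.single p 1) =
          (Real.log v / a * f1 (Pi.single q 1) + Real.log u / b * f2 (Pi.single q 1)) +
            Real.log u := by
        rw [e1, e2]
        field_simp
        ring
      rw [e3, Real.exp_add, Real.exp_log hu]
      ring
    · ring
    · have e1 : f1 (Pi.single r 1) = f1 (Pi.single q 1) + a := by linarith
      have e2 : f2 (Pi.single r 1) = f2 (Pi.single q 1) := by linarith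
      have e3 : Real.log v / a * f1 (Pi.single r 1) + Real.log u / b * f2 (Pi.single r 1) =
          (Real.log v / a * f1 (Pi.single q 1) + Real.log u / b * f2 (Pi.single q 1)) +
            Real.log v := by
        rw [e1, e2]
        field_simp
        ring
      rw [e3, Real.exp_add, Real.exp_log hv]
      ring
  -- `x_p` and `β x_q` have opposite signs
  have hβ0 : β ≠ 0 := by rcases hβ with rfl | rfl <;> norm_num
  have hopp : xr p * (β * xr q) < 0 := by
    by_contra h
    push Not at h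
    have h0 : β * xr q ≠ 0 := mul_ne_zero hβ0 hq0'
    have h1 : |xr p + β * xr q| = |xr p| + |β * xr q| := by
      rcases le_or_gt 0 (xr p) with h2 | h2
      · have hp1 : 0 < xr p := lt_of_le_of_ne h2 (Ne.symm hp0')
        have h3 : 0 ≤ β * xr q := by
          by_contra h4
          push Not at h4
          have := mul_neg_of_pos_of_neg hp1 h4
          linarith
        rw [abs_of_nonneg h2, abs_of_nonneg h3, abs_of_nonneg (by linarith)]
      · have h3 : β * xr q ≤ 0 := by
          by_contra h4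
          push Not at h4
          have := mul_neg_of_neg_of_pos h2 h4
          linarith
        rw [abs_of_neg h2, abs_of_nonpos h3, abs_of_nonpos (by linarith)]
        ring
    rw [← hrel] at h1
    have h2 := abs_pos.2 h0
    linarith
  apply hne
  rcases lt_or_gt_of_ne (mul_ne_zero hr0' hp0') with hs | hs
  · -- `x_r x_p < 0`
    have hrq' : 0 < xr r * (β * xr q) := by
      have h1 : 0 < (xr r * xr p) * (xr p * (β * xr q)) := mul_pos_of_neg_of_neg hs hopp
      have h2 : (xr r * xr p) * (xr p * (β * xr q)) = (xr r * (β * xr q)) * (xr p) ^ 2 := by ring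
      rw [h2] at h1
      exact pos_aux _ _ (by positivity) h1
    have hv : 0 < (β * xr q) / (2 * xr r) := by
      have e : (β * xr q) / (2 * xr r) = (xr r * (β * xr q)) / (2 * (xr r) ^ 2) := by
        field_simp
      rw [e]
      positivity
    have hu : 0 < -(β * xr q) / (2 * xr p) := by
      have e : -(β * xr q) / (2 * xr p) = (-(xr p * (β * xr q))) / (2 * (xr p) ^ 2) := by
        field_simp
      rw [e]
      have : 0 < -(xr p * (β * xr q)) := by linarith
      positivity
    obtain ⟨y, hy, c, hcp, hcq, hcr⟩ := hcurve _ _ hu hv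
    have e1 : y p = -(c * (β * xr q)) / 2 := by rw [hcp]; field_simp
    have e2 : y r = c * (β * xr q) / 2 := by rw [hcr]; field_simp
    apply hno y hy
    · rw [e1, e2, hcq]; ring
    · rcases hβ with rfl | rfl
      · right; left
        rw [e2, hcq]; ring
      · right; right
        rw [e1, hcq]; ring
  · -- `x_r x_p > 0`
    have hrq' : 0 < -(xr r * (β * xr q)) := by
      have h1 : (xr r * xr p) * (xr p * (β * xr q)) < 0 := mul_neg_of_pos_of_neg hs hopp
      have h2 : (xr r * xr p) * (xr p * (β * xr q)) = (xr r * (β * xr q)) * (xr p) ^ 2 := by ring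
      rw [h2] at h1
      have h3 : 0 < (-(xr r * (β * xr q))) * (xr p) ^ 2 := by linarith
      exact pos_aux _ _ (by positivity) h3
    have hv : 0 < -(β * xr q) / xr r := by
      have e : -(β * xr q) / xr r = (-(xr r * (β * xr q))) / ((xr r) ^ 2) := by
        field_simp
      rw [e]
      positivity
    have hu : 0 < -(2 * (β * xr q)) / xr p := by
      have e : -(2 * (β * xr q)) / xr p = (2 * (-(xr p * (β * xr q)))) / ((xr p) ^ 2) := by
        field_simp
      rw [e]
      have : 0 < -(xr p * (β * xr q)) := by linarith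
      positivity
    obtain ⟨y, hy, c, hcp, hcq, hcr⟩ := hcurve _ _ hu hv
    have e1 : y p = -(2 * (c * (β * xr q))) := by rw [hcp]; field_simp
    have e2 : y r = -(c * (β * xr q)) := by rw [hcr]; field_simp
    apply hno y hy
    · rw [e1, e2, hcq]; ring
    · left
      rw [e1, e2]; ring

/-- The bound at real solutions of systems with one essential addition equation which contain all
equations `x_i x_i = x_{i₁}` and all doublings that hold at some real solution. -/
theorem oneAddition_bound_real {n : ℕ} (S : Set (Eqn n)) (x : Fin n → ℂ) (xr : Fin n → ℝ)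
    (hxr : ∀ i, x i = ((xr i : ℝ) : ℂ)) (hx : IsSol S x) (i₁ : Fin n) (hi₁ : Eqn.one i₁ ∈ S)
    (hfull1 : ∀ (y : Fin n → ℝ) (i : Fin n), IsSol S (fun j => ((y j : ℝ) : ℂ)) →
      y i * y i = 1 → Eqn.mul i i i₁ ∈ S)
    (hfull2 : ∀ (y : Fin n → ℝ) (i k : Fin n), IsSol S (fun j => ((y j : ℝ) : ℂ)) →
      y i + y i = y k → Eqn.add i i k ∈ S)
    (hone : OneAddition S x)
    (C : Finset (Fin n)) (hC : ∀ i ∈ C, Eqn.one i ∈ S) (m : Fin n) :
    ‖x m‖ ≤ (2 : ℝ) ^ ((2 : ℝ) ^ ((n : ℝ) - C.card - 1)) := by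
  by_cases ht : Tame S x
  · have hspan := span_of_real S x xr hxr hx hi₁ hfull1 ht
    exact lead_bound S x hx ∅ (by simp) C (fun i hi => Or.inr (hC i hi)) (by simpa using hspan) m
  obtain ⟨i₀, j₀, k₀, h1⟩ := hone
  -- the exceptional relation holds at `x`
  have hsum : x i₀ + x j₀ = x k₀ := by
    by_contra hne
    apply ht
    apply tame_of_trivial S x hx
    intro i j k h
    rcases h1 i j k h with h2 | ⟨rfl, rfl, rfl⟩ | ⟨rfl, rfl, rfl⟩
    · exact h2
    · exact absurd (hx _ h) hne
    · exfalso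
      have h3 : x i + x j = x k := hx _ h
      exact hne (by rw [← h3]; ring)
  -- the coordinates are nonzero
  have hnz : ∀ a, (a = i₀ ∨ a = j₀ ∨ a = k₀) → x a ≠ 0 := by
    intro a ha ha0
    apply ht
    apply tame_of_trivial S x hx
    intro i j k h
    rcases h1 i j k h with h2 | ⟨rfl, rfl, rfl⟩ | ⟨rfl, rfl, rfl⟩
    · exact h2
    · rcases ha with rfl | rfl | rfl
      · exact Or.inr (Or.inl ha0)
      · exact Or.inr (Or.inr (Or.inl ha0))
      · exact Or.inr (Or.inr (Or.inr ha0))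
    · rcases ha with rfl | rfl | rfl
      · exact Or.inr (Or.inr (Or.inl ha0))
      · exact Or.inr (Or.inl ha0)
      · exact Or.inr (Or.inr (Or.inr ha0))
  -- the trivial part
  set S' : Set (Eqn n) := {e | e ∈ S ∧ ∀ i j k, e = Eqn.add i j k →
    (i = j ∨ x i = 0 ∨ x j = 0 ∨ x k = 0)} with hS'
  have hx' : IsSol S' x := fun e he => hx e he.1
  have hdbl' : ∀ i j k, Eqn.add i j k ∈ S' → i = j ∨ x i = 0 ∨ x j = 0 ∨ x k = 0 :=
    fun i j k h => h.2 i j k rfl
  have hC' : ∀ i ∈ C, Eqn.one i ∈ S' := fun i hi => ⟨hC i hi, fun _ _ _ h => by cases h⟩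
  have hLead : ∀ v, Lead S' x v → Lead S x v := by
    intro v hv
    cases hv with
    | zero i h => exact Lead.zero i h
    | one i h => exact Lead.one i h.1
    | mul i j k h hi hj => exact Lead.mul i j k h.1 hi hj
    | add i j k p q h hp hq hp0 hq0 h1 h2 => exact Lead.add i j k p q h.1 hp hq hp0 hq0 h1 h2
  have hsol : ∀ z : Fin n → ℂ, IsSol S' z → z i₀ + z j₀ = z k₀ → IsSol S z := by
    intro z hz hsum' e he
    cases e with
    | one i => exact hz _ ⟨he, fun _ _ _ h => by cases h⟩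
    | mul i j k => exact hz _ ⟨he, fun _ _ _ h => by cases h⟩
    | add i j k =>
      rcases h1 i j k he with h2 | ⟨rfl, rfl, rfl⟩ | ⟨rfl, rfl, rfl⟩
      · refine hz _ ⟨he, fun i' j' k' h => ?_⟩
        cases h
        exact h2
      · exact hsum'
      · show z i + z j = z k
        rw [← hsum', add_comm]
  have key : ∀ (p q r : Fin n) (β : ℂ) (βr : ℝ), (β = 1 ∨ β = -1) → β = (βr : ℂ) →
      (∀ z : Fin n → ℂ, z r = 1 * z p + β * z q ↔ z i₀ + z j₀ = z k₀) →
      (∀ a, (a = i₀ ∨ a = j₀ ∨ a = k₀) ↔ (a = p ∨ a = q ∨ a = r)) →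
      ‖x r‖ ≤ ‖x p‖ → ‖x r‖ ≤ ‖x q‖ →
      |Real.log ‖x m‖| ≤ (2 : ℝ) ^ ((n : ℝ) - C.card - 1) * Real.log 2 := by
    intro p q r β βr hβ hβr hrel hperm hrp hrq
    have hp0 : x p ≠ 0 := hnz p ((hperm p).2 (Or.inl rfl))
    have hq0 : x q ≠ 0 := hnz q ((hperm q).2 (Or.inr (Or.inl rfl)))
    have hr0 : x r ≠ 0 := hnz r ((hperm r).2 (Or.inr (Or.inr rfl)))
    have hrx : x r = 1 * x p + β * x q := (hrel x).2 hsum
    have hβ0 : β ≠ 0 := by rcases hβ with rfl | rfl <;> norm_num
    have hnβ : ‖β‖ = 1 := by rcases hβ with rfl | rfl <;> simp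
    have hpn : ‖x p‖ ≤ 2 * ‖x q‖ := by
      have e1 : x p = x r - β * x q := by rw [hrx]; ring
      have e2 : ‖x p‖ ≤ ‖x r‖ + ‖β * x q‖ := by
        calc ‖x p‖ = ‖x r - β * x q‖ := by rw [← e1]
          _ ≤ _ := norm_sub_le _ _
      rw [norm_mul, hnβ] at e2
      linarith
    have hqn : ‖x q‖ ≤ 2 * ‖x p‖ := by
      have e1 : β * x q = x r - x p := by rw [hrx]; ring
      have e2 : ‖β * x q‖ ≤ ‖x r‖ + ‖x p‖ := by rw [e1]; exact norm_sub_le _ _
      rw [norm_mul, hnβ] at e2
      linarith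
    have hsub : ∀ z, IsSol S' z → z r = 1 * z p + β * z q → IsSol S z :=
      fun z hz h => hsol z hz ((hrel z).1 h)
    have hb' := tame_of_trivial S' x hx' hdbl'
    have hnt : (Pi.single r 1 - Pi.single q 1 : Fin n → ℝ) ∉
        Submodule.span ℝ (insert (Pi.single p 1 - Pi.single q 1 : Fin n → ℝ) {v | Lead S' x v}) := by
      intro h
      apply ht
      -- the exceptional equation is in `S`
      have hmem : ∃ i j k, Eqn.add i j k ∈ S ∧ (∀ a, (a = p ∨ a = q ∨ a = r) →
          (a = i ∨ a = j ∨ a = k)) := by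
        by_contra hno
        push Not at hno
        apply ht
        apply tame_of_trivial S x hx
        intro i j k hS
        rcases h1 i j k hS with h2 | ⟨rfl, rfl, rfl⟩ | ⟨rfl, rfl, rfl⟩
        · exact h2
        · exfalso
          obtain ⟨a, ha, hna⟩ := hno i j k hS
          rcases (hperm a).2 ha with h3 | h3 | h3
          · exact hna.1 h3
          · exact hna.2.1 h3
          · exact hna.2.2 h3
        · exfalso
          obtain ⟨a, ha, hna⟩ := hno i j k hS
          rcases (hperm a).2 ha with h3 | h3 | h3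
          · exact hna.2.1 h3
          · exact hna.1 h3
          · exact hna.2.2 h3
      obtain ⟨i', j', k', hS0, hin⟩ := hmem
      have hpqS : (Pi.single p 1 - Pi.single q 1 : Fin n → ℝ) ∈
          Submodule.span ℝ {v | Lead S x v} :=
        Submodule.subset_span (Lead.add i' j' k' p q hS0 (hin p (Or.inl rfl))
          (hin q (Or.inr (Or.inl rfl))) hp0 hq0 hpn hqn)
      have hle : Submodule.span ℝ
          (insert (Pi.single p 1 - Pi.single q 1 : Fin n → ℝ) {v | Lead S' x v}) ≤
          Submodule.span ℝ {v | Lead S x v} :=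
        Submodule.span_le.2 (Set.insert_subset hpqS
          (fun v hv => Submodule.subset_span (hLead v hv)))
      have hrqS := hle h
      have hall : ∀ a, (a = p ∨ a = q ∨ a = r) → (Pi.single a 1 - Pi.single q 1 : Fin n → ℝ) ∈
          Submodule.span ℝ {v | Lead S x v} := by
        intro a ha
        rcases ha with rfl | rfl | rfl
        · exact hpqS
        · rw [sub_self]; exact Submodule.zero_mem _
        · exact hrqS
      have hall2 : ∀ a b, (a = i₀ ∨ a = j₀ ∨ a = k₀) → (b = i₀ ∨ b = j₀ ∨ b = k₀) →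
          (Pi.single a 1 - Pi.single b 1 : Fin n → ℝ) ∈ Submodule.span ℝ {v | Lead S x v} := by
        intro a b ha hb
        have e1 : (Pi.single a 1 - Pi.single b 1 : Fin n → ℝ) =
            (Pi.single a 1 - Pi.single q 1) - (Pi.single b 1 - Pi.single q 1) := by abel
        rw [e1]
        exact Submodule.sub_mem _ (hall a ((hperm a).1 ha)) (hall b ((hperm b).1 hb))
      intro i j k hS a b ha hb ha0 hb0
      rcases h1 i j k hS with h2 | ⟨rfl, rfl, rfl⟩ | ⟨rfl, rfl, rfl⟩
      · have hS2 : Eqn.add i j k ∈ S' := by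
          refine ⟨hS, fun i' j' k' h => ?_⟩
          cases h
          exact h2
        have h3 := tame_of_trivial S' x hx' hdbl' i j k hS2 a b ha hb ha0 hb0
        exact Submodule.span_mono (fun v hv => hLead v hv) h3
      · exact hall2 a b ha hb
      · exact hall2 a b (perm3 _ _ _ _ ha) (perm3 _ _ _ _ hb)
    have hβr' : βr = 1 ∨ βr = -1 := by
      rcases hβ with h | h
      · left
        rw [hβr] at h
        exact_mod_cast h
      · right
        rw [hβr] at h
        exact_mod_cast h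
    have hrr : xr r = xr p + βr * xr q := by
      have h := hrx
      rw [hxr r, hxr p, hxr q, hβr, one_mul] at h
      exact_mod_cast h
    have hN : ∀ i, ‖x i‖ = |xr i| := fun i => by rw [hxr i, Complex.norm_real, Real.norm_eq_abs]
    have hpq := hpq_of_real S' x xr hxr hx' hb' p q r hp0 hq0 hr0 βr hβr' hrr
      (by rw [← hN, ← hN]; exact hrp)
      (fun y hy h1' h2' => by
        have hyS : IsSol S (fun j => ((y j : ℝ) : ℂ)) := by
          apply hsub _ hy
          show ((y r : ℝ) : ℂ) = 1 * ((y p : ℝ) : ℂ) + β * ((y q : ℝ) : ℂ)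
          rw [h1', hβr]
          push_cast
          ring
        have hdb : ∀ a b, y a + y a = y b → Eqn.add a a b ∈ S' := by
          intro a b hab
          refine ⟨hfull2 y a b hyS hab, fun i' j' k' h => ?_⟩
          cases h
          exact Or.inl rfl
        have hld : ∀ a b, Eqn.add a a b ∈ S' → x a ≠ 0 → x b ≠ 0 →
            Lead S' x (Pi.single a 1 - Pi.single b 1) := by
          intro a b hab ha0 hb0
          have h3 : x a + x a = x b := hx' _ hab
          have h4 : ‖x b‖ = 2 * ‖x a‖ := by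
            rw [← h3, ← two_mul, norm_mul]
            simp
          have h5 := norm_nonneg (x a)
          exact Lead.add a a b a b hab (Or.inl rfl) (Or.inr (Or.inr rfl)) ha0 hb0
            (by linarith) (by linarith)
        rcases h2' with h3 | h3 | h3
        · exfalso
          apply hnt
          have e1 : (Pi.single r 1 - Pi.single q 1 : Fin n → ℝ) =
              (Pi.single r 1 - Pi.single p 1) + (Pi.single p 1 - Pi.single q 1) := by abel
          rw [e1]
          exact Submodule.add_mem _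
            (Submodule.subset_span (Set.mem_insert_of_mem _ (hld r p (hdb r p h3) hr0 hp0)))
            (Submodule.subset_span (Set.mem_insert _ _))
        · exfalso
          exact hnt (Submodule.subset_span (Set.mem_insert_of_mem _ (hld r q (hdb r q h3) hr0 hq0)))
        · exact Submodule.subset_span (hld p q (hdb p q h3) hp0 hq0)) hnt
    have hspan := hspan_of_real S' x xr hxr hx' hb' p q r β hrx i₁
      ⟨hi₁, fun _ _ _ h => by cases h⟩
      (fun y i hy h1' h2' => by
        have hyS : IsSol S (fun j => ((y j : ℝ) : ℂ)) := hsub _ hy h1'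
        exact ⟨hfull1 y i hyS h2', fun _ _ _ h => by cases h⟩) hpq
    have hz : (Pi.single r 1 - Pi.single q 1 : Fin n → ℝ) ∉ Submodule.span ℝ {v | Lead S' x v} :=
      fun h => hnt (Submodule.span_mono (Set.subset_insert _ _) h)
    exact core3 S' x hx' hdbl' C hC' p q r hp0 hq0 hr0 1 β (Or.inl rfl) hβ hrx hrq hz hpq hspan m
  have hlog : |Real.log ‖x m‖| ≤ (2 : ℝ) ^ ((n : ℝ) - C.card - 1) * Real.log 2 := by
    by_cases c1 : ‖x k₀‖ ≤ ‖x i₀‖ ∧ ‖x k₀‖ ≤ ‖x j₀‖
    · exact key i₀ j₀ k₀ 1 1 (Or.inl rfl) (by simp)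
        (fun z => by rw [one_mul, one_mul]; exact eq_comm) (fun a => Iff.rfl) c1.1 c1.2
    · by_cases c2 : ‖x i₀‖ ≤ ‖x j₀‖
      · have c3 : ‖x i₀‖ ≤ ‖x k₀‖ := by
          by_contra h
          push Not at h
          exact c1 ⟨h.le, h.le.trans c2⟩
        exact key k₀ j₀ i₀ (-1) (-1) (Or.inr rfl) (by simp)
          (fun z => by
            constructor
            · intro h; rw [h]; ring
            · intro h; rw [← h]; ring)
          (fun a => perm1 a i₀ j₀ k₀) c3 c2
      · push Not at c2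
        have c3 : ‖x j₀‖ ≤ ‖x k₀‖ := by
          by_contra h
          push Not at h
          exact c1 ⟨h.le.trans c2.le, h.le⟩
        exact key k₀ i₀ j₀ (-1) (-1) (Or.inr rfl) (by simp)
          (fun z => by
            constructor
            · intro h; rw [h]; ring
            · intro h; rw [← h]; ring)
          (fun a => perm2 a i₀ j₀ k₀) c3 c2.le
  rcases eq_or_lt_of_le (norm_nonneg (x m)) with h0 | h0
  · rw [← h0]
    positivity
  · have h2 := le_trans (le_abs_self _) hlog
    rw [← Real.log_rpow (by norm_num : (0 : ℝ) < 2)] at h2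
    exact (Real.log_le_log_iff h0 (by positivity)).1 h2

/-- If the system `T ⊆ E_n` has a real solution `x` with `OneAddition T x`, then it has a real
solution with all coordinates of absolute value at most `2^(2^(n - |C| - 1))`, if `T` contains the
equations `x_i = 1`, `i ∈ C`, and `C` is not empty. -/
theorem exists_bounded_real {n : ℕ} (T : Set (Eqn n)) (xr : Fin n → ℝ)
    (hx : IsSol T (fun i => ((xr i : ℝ) : ℂ)))
    (hone : OneAddition T (fun i => ((xr i : ℝ) : ℂ))) (i₁ : Fin n) (hi₁ : Eqn.one i₁ ∈ T)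
    (C : Finset (Fin n)) (hC : ∀ i ∈ C, Eqn.one i ∈ T) :
    ∃ z : Fin n → ℝ, IsSol T (fun i => ((z i : ℝ) : ℂ)) ∧
      ∀ m, |z m| ≤ (2 : ℝ) ^ ((2 : ℝ) ^ ((n : ℝ) - C.card - 1)) := by
  classical
  set x : Fin n → ℂ := fun i => ((xr i : ℝ) : ℂ) with hxdef
  set T' : Set (Eqn n) := T ∪ {e | ∃ i, x i = 0 ∧ e = Eqn.add i i i} with hT'
  have hxT' : IsSol T' x := by
    intro e he
    rcases he with he | ⟨i, hi, rfl⟩
    · exact hx e he
    · show x i + x i = x i
      rw [hi, add_zero]
  set F : Set (Set (Eqn n)) := {S | T' ⊆ S ∧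
    (∀ i j k, Eqn.add i j k ∈ S → i = j ∨ Eqn.add i j k ∈ T') ∧
      ∃ z : Fin n → ℝ, IsSol S (fun i => ((z i : ℝ) : ℂ))} with hF
  have hfin : F.Finite := Set.toFinite F
  have hne : F.Nonempty := ⟨T', subset_rfl, fun i j k h => Or.inr h, xr, hxT'⟩
  obtain ⟨S, hS⟩ := hfin.exists_maximal hne
  obtain ⟨hTS, hadd, zr, hz⟩ := hS.prop
  set z : Fin n → ℂ := fun i => ((zr i : ℝ) : ℂ) with hzdef
  have hins : ∀ e : Eqn n, (∀ i j k, e = Eqn.add i j k → i = j) →
      (∃ y : Fin n → ℝ, IsSol S (fun i => ((y i : ℝ) : ℂ)) ∧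
        e.Holds (fun i => ((y i : ℝ) : ℂ))) → e ∈ S := by
    rintro e he ⟨y, hy, hye⟩
    have hmem : insert e S ∈ F := by
      refine ⟨hTS.trans (Set.subset_insert _ _), ?_, y, ?_⟩
      · intro i j k h
        rcases h with h | h
        · exact Or.inl (he i j k h.symm)
        · exact hadd i j k h
      · intro e' he'
        rcases he' with rfl | he'
        · exact hye
        · exact hy e' he'
    exact hS.le_of_ge hmem (Set.subset_insert _ _) (Set.mem_insert _ _)
  have hfull1 : ∀ (y : Fin n → ℝ) (i : Fin n), IsSol S (fun j => ((y j : ℝ) : ℂ)) →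
      y i * y i = 1 → Eqn.mul i i i₁ ∈ S := by
    intro y i hy hyi
    refine hins _ (fun _ _ _ h => by cases h) ⟨y, hy, ?_⟩
    have h1 : ((y i₁ : ℝ) : ℂ) = 1 := hy _ (hTS (Or.inl hi₁))
    show ((y i : ℝ) : ℂ) * ((y i : ℝ) : ℂ) = ((y i₁ : ℝ) : ℂ)
    rw [h1]
    exact_mod_cast hyi
  have hfull2 : ∀ (y : Fin n → ℝ) (i k : Fin n), IsSol S (fun j => ((y j : ℝ) : ℂ)) →
      y i + y i = y k → Eqn.add i i k ∈ S := by
    intro y i k hy hyi
    refine hins _ (fun a b c h => by cases h; rfl) ⟨y, hy, ?_⟩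
    show ((y i : ℝ) : ℂ) + ((y i : ℝ) : ℂ) = ((y k : ℝ) : ℂ)
    exact_mod_cast hyi
  have hzero : ∀ i, x i = 0 → z i = 0 := by
    intro i hi
    have h1 : Eqn.add i i i ∈ S := hTS (Or.inr ⟨i, hi, rfl⟩)
    have h2 : z i + z i = z i := hz _ h1
    have := congrArg (fun w => w - z i) h2
    simpa using this
  have honeS : OneAddition S z := by
    obtain ⟨i₀, j₀, k₀, h1⟩ := hone
    refine ⟨i₀, j₀, k₀, fun i j k h => ?_⟩
    rcases hadd i j k h with h2 | h2
    · exact Or.inl (Or.inl h2)
    · rcases h2 with h2 | ⟨a, _, ha⟩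
      · rcases h1 i j k h2 with (h3 | h3 | h3 | h3) | h3
        · exact Or.inl (Or.inl h3)
        · exact Or.inl (Or.inr (Or.inl (hzero i h3)))
        · exact Or.inl (Or.inr (Or.inr (Or.inl (hzero j h3))))
        · exact Or.inl (Or.inr (Or.inr (Or.inr (hzero k h3))))
        · exact Or.inr h3
      · cases ha
        exact Or.inl (Or.inl rfl)
  refine ⟨zr, fun e he => hz e (hTS (Or.inl he)), fun m => ?_⟩
  have h := oneAddition_bound_real S z zr (fun _ => rfl) hz i₁ (hTS (Or.inl hi₁)) hfull1 hfull2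
    honeS C (fun i hi => hTS (Or.inl (hC i hi))) m
  have e : ‖z m‖ = |zr m| := by
    rw [hzdef, Complex.norm_real, Real.norm_eq_abs]
  rw [e] at h
  exact h

end Pool.Agent.SumProd339
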