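import Pool.Agent.SumProd339.Core

set_option autoImplicit false

/-!
# Systems of equations `x_i = 1`, `x_i + x_j = x_k`, `x_i x_j = x_k`: leading vectors and tame
solutions
-/

namespace Pool.Agent.SumProd339

open Finset

/-- The elements of `E_n`: the equations `x_i = 1`, `x_i + x_j = x_k`, `x_i * x_j = x_k`. -/
inductive Eqn (n : ℕ)
  | one (i : Fin n)
  | add (i j k : Fin n)
  | mul (i j k : Fin n)

/-- The equation holds at `x`. -/
def Eqn.Holds {n : ℕ} (x : Fin n → ℂ) : Eqn n → Prop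
  | Eqn.one i => x i = 1
  | Eqn.add i j k => x i + x j = x k
  | Eqn.mul i j k => x i * x j = x k

/-- `x` is a solution in `ℂⁿ` of the system `S ⊆ E_n`. -/
def IsSol {n : ℕ} (S : Set (Eqn n)) (x : Fin n → ℂ) : Prop := ∀ e ∈ S, e.Holds x

/-- The leading vectors of the system `S` at the point `x`: `e_i` if `x_i = 0` or `x_i = 1` is in
`S`; `e_i + e_j - e_k` if `x_i x_j = x_k` is in `S` and `x_i, x_j ≠ 0`; `e_p - e_q` if
`x_i + x_j = x_k` is in `S`, `p, q ∈ {i, j, k}`, and `x_p, x_q` are nonzero with moduli within a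
factor `2` of each other. -/
inductive Lead {n : ℕ} (S : Set (Eqn n)) (x : Fin n → ℂ) : (Fin n → ℝ) → Prop
  | zero (i : Fin n) (h : x i = 0) : Lead S x (Pi.single i 1)
  | one (i : Fin n) (h : Eqn.one i ∈ S) : Lead S x (Pi.single i 1)
  | mul (i j k : Fin n) (h : Eqn.mul i j k ∈ S) (hi : x i ≠ 0) (hj : x j ≠ 0) :
      Lead S x (Pi.single i 1 + Pi.single j 1 - Pi.single k 1)
  | add (i j k p q : Fin n) (h : Eqn.add i j k ∈ S) (hp : p = i ∨ p = j ∨ p = k)
      (hq : q = i ∨ q = j ∨ q = k) (hp0 : x p ≠ 0) (hq0 : x q ≠ 0)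
      (h1 : ‖x p‖ ≤ 2 * ‖x q‖) (h2 : ‖x q‖ ≤ 2 * ‖x p‖) :
      Lead S x (Pi.single p 1 - Pi.single q 1)

/-- `x` is tame for `S`: for every equation `x_i + x_j = x_k` of `S` and all `p, q ∈ {i, j, k}` with
`x_p, x_q ≠ 0`, the difference `e_p - e_q` lies in the linear span of the leading vectors. -/
def Tame {n : ℕ} (S : Set (Eqn n)) (x : Fin n → ℂ) : Prop :=
  ∀ i j k, Eqn.add i j k ∈ S → ∀ p q, (p = i ∨ p = j ∨ p = k) → (q = i ∨ q = j ∨ q = k) →
    x p ≠ 0 → x q ≠ 0 →
    (Pi.single p 1 - Pi.single q 1 : Fin n → ℝ) ∈ Submodule.span ℝ {v | Lead S x v}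

/-- A solution is tame if, in every equation `x_i + x_j = x_k` of `S`, the nonzero ones among the
three coordinates have moduli within a factor `2` of each other.  This is so, for instance, when
every addition equation of `S` is a doubling `x_i + x_i = x_k`. -/
lemma tame_of_balanced {n : ℕ} (S : Set (Eqn n)) (x : Fin n → ℂ)
    (h : ∀ i j k, Eqn.add i j k ∈ S → ∀ p q, (p = i ∨ p = j ∨ p = k) → (q = i ∨ q = j ∨ q = k) →
      x p ≠ 0 → x q ≠ 0 → ‖x p‖ ≤ 2 * ‖x q‖) : Tame S x := by
  intro i j k hS p q hp hq hp0 hq0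
  exact Submodule.subset_span (Lead.add i j k p q hS hp hq hp0 hq0 (h i j k hS p q hp hq hp0 hq0)
    (h i j k hS q p hq hp hq0 hp0))

/-- A solution at which the leading vectors span is tame. -/
lemma tame_of_span {n : ℕ} (S : Set (Eqn n)) (x : Fin n → ℂ)
    (h : Submodule.span ℝ {v | Lead S x v} = ⊤) : Tame S x := by
  intro i j k _ p q _ _ _ _
  rw [h]
  exact Submodule.mem_top

lemma lead_bound {n : ℕ} (S : Set (Eqn n)) (x : Fin n → ℂ) (hx : IsSol S x) (U : Set (Fin n))
    (hU : ∀ i ∈ U, ‖x i‖ = 1) (C : Finset (Fin n)) (hC : ∀ i ∈ C, i ∈ U ∨ Eqn.one i ∈ S)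
    (hspan : Submodule.span ℝ ({v | Lead S x v} ∪ (fun i => (Pi.single i 1 : Fin n → ℝ)) '' U) = ⊤)
    (m : Fin n) : ‖x m‖ ≤ (2 : ℝ) ^ ((2 : ℝ) ^ ((n : ℝ) - C.card - 1)) := by
  have hlog : |Real.log ‖x m‖| ≤ (2 : ℝ) ^ ((n : ℝ) - C.card - 1) * Real.log 2 := by
    refine core (fun i => Real.log ‖x i‖) _ (Real.log 2) (Real.log_nonneg (by norm_num)) ?_ C ?_ ?_
      hspan m
    · rintro v (hv | ⟨i, hi, rfl⟩)
      · cases hv with
        | zero i h =>
          left
          exact ⟨i, rfl, by simp [h]⟩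
        | one i h =>
          left
          have h1 : x i = 1 := hx _ h
          exact ⟨i, rfl, by simp [h1]⟩
        | mul i j k h hi hj =>
          right; left
          have h1 : x i * x j = x k := hx _ h
          refine ⟨i, j, k, rfl, ?_⟩
          rw [← h1, norm_mul, Real.log_mul (norm_ne_zero_iff.2 hi) (norm_ne_zero_iff.2 hj)]
        | add i j k p q h hp hq hp0 hq0 h1 h2 =>
          right; right
          refine ⟨p, q, rfl, ?_⟩
          have hp' : 0 < ‖x p‖ := norm_pos_iff.2 hp0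
          have hq' : 0 < ‖x q‖ := norm_pos_iff.2 hq0
          have e1 := Real.log_le_log hp' h1
          have e2 := Real.log_le_log hq' h2
          rw [Real.log_mul (by norm_num) (ne_of_gt hq')] at e1
          rw [Real.log_mul (by norm_num) (ne_of_gt hp')] at e2
          rw [abs_le]
          constructor <;> linarith
      · left
        exact ⟨i, rfl, by simp [hU i hi]⟩
    · intro i hi
      rcases hC i hi with h | h
      · rw [hU i h, Real.log_one]
      · have h1 : x i = 1 := hx _ h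
        rw [h1]
        simp
    · intro i hi
      rcases hC i hi with h | h
      · right
        exact ⟨i, h, rfl⟩
      · left
        exact Lead.one i h
  rcases eq_or_lt_of_le (norm_nonneg (x m)) with h0 | h0
  · rw [← h0]
    positivity
  · have h1 := le_trans (le_abs_self _) hlog
    rw [← Real.log_rpow (by norm_num : (0 : ℝ) < 2)] at h1
    exact (Real.log_le_log_iff h0 (by positivity)).1 h1

/-- Multiplying the coordinates by exponentials. -/
lemma move {n : ℕ} (S : Set (Eqn n)) (x : Fin n → ℂ) (hx : IsSol S x)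
    (w : Fin n → ℂ) (hw1 : ∀ i, Eqn.one i ∈ S → w i = 0)
    (hwm : ∀ i j k, Eqn.mul i j k ∈ S → x i ≠ 0 → x j ≠ 0 → w i + w j = w k)
    (hwa : ∀ i j k, Eqn.add i j k ∈ S → ∀ p q, (p = i ∨ p = j ∨ p = k) →
      (q = i ∨ q = j ∨ q = k) → x p ≠ 0 → x q ≠ 0 → w p = w q) :
    IsSol S (fun i => x i * Complex.exp (w i)) := by
  intro e he
  cases e with
  | one i =>
    have h1 : x i = 1 := hx _ he
    simp only [Eqn.Holds]
    rw [h1, hw1 i he]
    simp
  | mul i j k =>
    have h1 : x i * x j = x k := hx _ he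
    simp only [Eqn.Holds]
    by_cases hi : x i = 0
    · rw [← h1, hi]; simp
    · by_cases hj : x j = 0
      · rw [← h1, hj]; simp
      · rw [← hwm i j k he hi hj, Complex.exp_add, ← h1]
        ring
  | add i j k =>
    have h1 : x i + x j = x k := hx _ he
    simp only [Eqn.Holds]
    have key : ∃ c : ℂ, ∀ p, (p = i ∨ p = j ∨ p = k) → x p * Complex.exp (w p) = x p * c := by
      by_cases hne : ∃ q, (q = i ∨ q = j ∨ q = k) ∧ x q ≠ 0
      · obtain ⟨q, hq, hq0⟩ := hne
        refine ⟨Complex.exp (w q), fun p hp => ?_⟩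
        by_cases hp0 : x p = 0
        · rw [hp0]; simp
        · rw [hwa i j k he p q hp hq hp0 hq0]
      · push Not at hne
        refine ⟨0, fun p hp => ?_⟩
        rw [hne p hp]
        simp
    obtain ⟨c, hc⟩ := key
    rw [hc i (Or.inl rfl), hc j (Or.inr (Or.inl rfl)), hc k (Or.inr (Or.inr rfl)), ← h1]
    ring

/-- The move along a linear functional which vanishes on the leading vectors. -/
lemma move_functional {n : ℕ} (S : Set (Eqn n)) (x : Fin n → ℂ) (hx : IsSol S x)
    (hb : Tame S x) (f : (Fin n → ℝ) →ₗ[ℝ] ℝ) (hf : ∀ v, Lead S x v → f v = 0) (τ : ℂ) :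
    IsSol S (fun i => x i * Complex.exp (τ * (f (Pi.single i 1) : ℝ))) := by
  apply move S x hx
  · intro i hi
    rw [hf _ (Lead.one i hi)]
    simp
  · intro i j k h hi hj
    have h1 := hf _ (Lead.mul i j k h hi hj)
    rw [map_sub, map_add] at h1
    have h2 : f (Pi.single k 1) = f (Pi.single i 1) + f (Pi.single j 1) := by linarith
    rw [h2]
    push_cast
    ring
  · intro i j k h p q hp hq hp0 hq0
    have hker : Submodule.span ℝ {v | Lead S x v} ≤ LinearMap.ker f :=
      Submodule.span_le.2 (fun v hv => hf v hv)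
    have h1 : f (Pi.single p 1 - Pi.single q 1) = 0 := hker (hb i j k h p q hp hq hp0 hq0)
    rw [map_sub] at h1
    have h2 : f (Pi.single p 1) = f (Pi.single q 1) := by linarith
    rw [h2]

/-- A tame solution can be moved, by positive real factors, to a solution at which the leading
vectors and the unit vectors `e_i` with `|y_i| = 1` (`i ∈ U`) span. -/
lemma exists_move {n : ℕ} (S : Set (Eqn n)) (x : Fin n → ℂ) (hx : IsSol S x)
    (hb : Tame S x) :
    ∃ (w : Fin n → ℝ) (U : Set (Fin n)),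
      IsSol S (fun i => x i * ((Real.exp (w i) : ℝ) : ℂ)) ∧
      (∀ i ∈ U, ‖x i * ((Real.exp (w i) : ℝ) : ℂ)‖ = 1) ∧
      (∀ i ∈ U, Eqn.one i ∉ S) ∧
      Submodule.span ℝ ({v | Lead S (fun i => x i * ((Real.exp (w i) : ℝ) : ℂ)) v} ∪
        (fun i => (Pi.single i 1 : Fin n → ℝ)) '' U) = ⊤ ∧
      (U.Nonempty ∨ Submodule.span ℝ {v | Lead S x v} = ⊤) := by
  classical
  set s0 : Set (Fin n → ℝ) := {v | Lead S x v} with hs0
  set sg : Fin n → (Fin n → ℝ) := fun i => Pi.single i 1 with hsg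
  obtain ⟨b0, hb0s, hb0sp, hb0li⟩ := exists_linearIndependent ℝ s0
  have hb0li' : LinearIndepOn ℝ id b0 := hb0li
  obtain ⟨b, hbsub, hb0b, hspb, hbli⟩ := exists_linearIndepOn_id_extension hb0li'
    (Set.subset_union_left : b0 ⊆ b0 ∪ Set.range sg)
  have hrange : Submodule.span ℝ (Set.range sg) = ⊤ := by
    have h := (Pi.basisFun ℝ (Fin n)).span_eq
    convert h using 2
    congr 1
    funext i
    simp [hsg]
  have hbspan : Submodule.span ℝ b = ⊤ := by
    rw [eq_top_iff, ← hrange]
    exact Submodule.span_le.2 (fun v hv => hspb (Or.inr hv))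
  have hbli' : LinearIndependent ℝ (fun v : b => (v : Fin n → ℝ)) := hbli
  let bas : Module.Basis b ℝ (Fin n → ℝ) := Module.Basis.mk hbli' (by
    rw [Subtype.range_coe_subtype]
    simpa using hbspan.ge)
  let t : Fin n → ℝ := fun i => Real.log ‖x i‖
  let g : b → ℝ := fun v => if (v : Fin n → ℝ) ∈ b0 then 0 else -∑ i, (v : Fin n → ℝ) i * t i
  let f : (Fin n → ℝ) →ₗ[ℝ] ℝ := bas.constr ℝ g
  have hfb : ∀ (v : Fin n → ℝ) (hv : v ∈ b), f v = g ⟨v, hv⟩ := by
    intro v hv
    have h1 : bas ⟨v, hv⟩ = v := by simp [bas]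
    have h2 := Module.Basis.constr_basis bas ℝ g ⟨v, hv⟩
    rw [h1] at h2
    exact h2
  have hf0 : ∀ v, Lead S x v → f v = 0 := by
    intro v hv
    have h1 : v ∈ Submodule.span ℝ b0 := by
      rw [hb0sp]
      exact Submodule.subset_span hv
    have h2 : Submodule.span ℝ b0 ≤ LinearMap.ker f := by
      rw [Submodule.span_le]
      intro u hu
      have : f u = g ⟨u, hb0b hu⟩ := hfb u _
      rw [SetLike.mem_coe, LinearMap.mem_ker, this]
      simp only [g, hu, if_true]
    exact h2 h1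
  let w : Fin n → ℝ := fun i => f (Pi.single i 1)
  let U : Set (Fin n) := {i | sg i ∈ b ∧ sg i ∉ s0}
  have hfU : ∀ i ∈ U, w i = -t i := by
    intro i hi
    have h1 : f (sg i) = g ⟨sg i, hi.1⟩ := hfb _ _
    have h2 : sg i ∉ b0 := fun h => hi.2 (hb0s h)
    have h3 : w i = g ⟨sg i, hi.1⟩ := h1
    rw [h3]
    simp only [g, h2, if_false]
    simp [hsg, Pi.single_apply]
  have hx0 : ∀ i ∈ U, x i ≠ 0 := fun i hi h => hi.2 (Lead.zero i h)
  have hexp : ∀ i, x i * Complex.exp (1 * ((f (Pi.single i 1) : ℝ) : ℂ)) =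
      x i * ((Real.exp (w i) : ℝ) : ℂ) := by
    intro i
    rw [one_mul, Complex.ofReal_exp]
  refine ⟨w, U, ?_, ?_, ?_, ?_, ?_⟩
  · have h := move_functional S x hx hb f hf0 1
    have e : (fun i => x i * Complex.exp (1 * ((f (Pi.single i 1) : ℝ) : ℂ))) =
        fun i => x i * ((Real.exp (w i) : ℝ) : ℂ) := funext hexp
    rw [e] at h
    exact h
  · intro i hi
    rw [norm_mul, hfU i hi, Complex.norm_real, Real.norm_eq_abs, abs_of_pos (Real.exp_pos _),
      Real.exp_neg, Real.exp_log (norm_pos_iff.2 (hx0 i hi))]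
    exact mul_inv_cancel₀ (norm_ne_zero_iff.2 (hx0 i hi))
  · intro i hi h
    exact hi.2 (Lead.one i h)
  · rw [eq_top_iff, ← hbspan]
    apply Submodule.span_mono
    intro v hv
    have hlead : ∀ v, Lead S x v → Lead S (fun i => x i * ((Real.exp (w i) : ℝ) : ℂ)) v := by
      intro v hv
      have hne : ∀ i, x i ≠ 0 → x i * ((Real.exp (w i) : ℝ) : ℂ) ≠ 0 := by
        intro i hi
        exact mul_ne_zero hi (by exact_mod_cast (Real.exp_pos _).ne')
      cases hv with
      | zero i h => exact Lead.zero i (by simp [h])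
      | one i h => exact Lead.one i h
      | mul i j k h hi hj => exact Lead.mul i j k h (hne i hi) (hne j hj)
      | add i j k p q h hp hq hp0 hq0 h1 h2 =>
        have h3 := hf0 _ (Lead.add i j k p q h hp hq hp0 hq0 h1 h2)
        rw [map_sub] at h3
        have h4 : w p = w q := by
          simp only [w]
          linarith
        refine Lead.add i j k p q h hp hq (hne p hp0) (hne q hq0) ?_ ?_
        · simp only [norm_mul]
          rw [h4]
          calc ‖x p‖ * ‖((Real.exp (w q) : ℝ) : ℂ)‖ ≤ (2 * ‖x q‖) * ‖((Real.exp (w q) : ℝ) : ℂ)‖ :=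
                mul_le_mul_of_nonneg_right h1 (norm_nonneg _)
            _ = 2 * (‖x q‖ * ‖((Real.exp (w q) : ℝ) : ℂ)‖) := by ring
        · simp only [norm_mul]
          rw [h4]
          calc ‖x q‖ * ‖((Real.exp (w q) : ℝ) : ℂ)‖ ≤ (2 * ‖x p‖) * ‖((Real.exp (w q) : ℝ) : ℂ)‖ :=
                mul_le_mul_of_nonneg_right h2 (norm_nonneg _)
            _ = 2 * (‖x p‖ * ‖((Real.exp (w q) : ℝ) : ℂ)‖) := by ring
    rcases hbsub hv with h | ⟨i, rfl⟩
    · left
      exact hlead v (hb0s h)
    · by_cases h : sg i ∈ s0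
      · left
        exact hlead _ h
      · right
        exact ⟨i, ⟨hv, h⟩, rfl⟩
  · by_cases hU : U.Nonempty
    · exact Or.inl hU
    · right
      rw [Set.not_nonempty_iff_eq_empty] at hU
      rw [eq_top_iff, ← hbspan]
      apply Submodule.span_le.2
      intro v hv
      rcases hbsub hv with h | ⟨i, rfl⟩
      · exact Submodule.subset_span (hb0s h)
      · by_cases h : sg i ∈ s0
        · exact Submodule.subset_span h
        · exfalso
          have : i ∈ U := ⟨hv, h⟩
          rw [hU] at this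
          exact this

end Pool.Agent.SumProd339
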